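import Pool.Agent.Lib_MP_0cf6e1_co.Stmts

/-!
# MP_0cf6e1_co, piece AMGM (about 90 lines)

For each i: AM-GM (Real.inner_le_nnorm_mul_nnorm not needed; use Real.geom_mean_le_arith_mean or inner form
Real.inner_le..., e.g. Real.geom_mean_le_arith_mean_weighted): sum over k of a k i >= n (prod a k i)^(1/n) >= n (card Omega)^(-1/n).
Sum over i: sum_k sum_i a k i >= n * card * card^(-1/n).  On the other side sum_i a k i <= sqrt (x k) / c and by Cauchy-Schwarz
sum_k sqrt (x k) <= sqrt n * sqrt (sum x k) <= sqrt n * sqrt B * card.  Hence n card^(-1/n) <= sqrt n sqrt B / c, i.e.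
card^(1/n) >= c sqrt n / sqrt B; raise to the power n.
-/

namespace BDim

open Finset
open scoped Classical

theorem AMGM : AMGM_stmt := by
  sorry

end BDim
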