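import Pool.Agent.Lib_MP_0cf6e1_co.Stmts

/-!
# MP_0cf6e1_co, piece AVG (about 80 lines)

Fix the key k1 = ky a.  For u0 : kappa -> Fin (2C+1), the 2C+1 functions Function.update u0 k1 c (c in Fin (2C+1)) contain at most one
solution: the sum is sg a * (c - C) + (terms not depending on c) because ky m != ky a for a < m < b.  So the map
(u, c) -> Function.update u k1 c from {solutions} x Fin (2C+1) to all functions is injective on ... : if update u k1 c =
update u' k1 c' with u, u' solutions then c = c' (value at k1), and u, u' agree outside k1 and are both solutions, hence u k1 = u' k1.
Hence (2C+1) * #solutions <= card of all functions.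
-/

namespace BDim

open Finset
open scoped Classical

theorem AVG : AVG_stmt := by
  sorry

end BDim
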