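import Pool.Agent.Lib_MP_0cf6e1_co.Stmts

/-!
# MP_0cf6e1_co, piece BADC (about 90 lines)

Let e be a bad edge: not GdG.  Case 1: there are L, W with 1 <= L <= g, W 0 = (e.2, true), Rd e.1.1 W L, Cl t k e.1 W L.  Let
W' : Fin g -> Fin w x Bool be the restriction of W; xt l0 W' agrees with W below g >= L, so Rd and Cl hold for xt l0 W' (they depend
only on the first L letters: pos_congr, and chn m for m <= L depends on W below m).  So (L, W', e.1) is counted in NCl, and e is
determined by it: e = (p, (xt l0 W' 0).1) (g >= 1).  Case 2: L, W with W 0 = (e.1.1, false), Rd e.2 W L, Cl t k (up t e.2 e.1) W L: the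
triple (L, W', up t e.2 e.1) is counted ((up t e.2 e.1) is in V because e is counted in nbad), and e is determined by it:
e.2 = (up ..).1 and e.1 = dn t e.1.1 (up t e.2 e.1) (dn_up) with e.1.1 = (W' 0).1.
So nbad <= NCl + NCl: NCl is the cardinality of a sigma type / product Finset filtered; use card_le_card_of_injOn twice.
-/

namespace BDim

open Finset
open scoped Classical

theorem BADC : BADC_stmt := by
  sorry

end BDim
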