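import Pool.Agent.Lib_MP_0cf6e1_co.Stmts

/-!
# MP_0cf6e1_co, piece BALC (about 110 lines)

Edges above balanced edges. Put N(s) = #{p in S : tr k p = s}.  For e in the filtered set, b = (tr k e.1, e.2) lies in
bedg t Gd k A g (use GdDep, tr_up, dep_tr).  For b in bedg let N(b) = #{e in edg t Gd S : tr k e.1 = b.1, e.2 = b.2}.
Then N(b) <= N(b.1) (the map e -> e.1 is injective there) and N(b) <= N(b') where b' = tr k (up t b.2 b.1) (the map
e -> up t e.2 e.1 is injective there by up_inj, its values are in S and have tr k = b').  So the number to bound is at most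
sum over b in bedg of min(N(b.1), N(b')) = sum over tau >= 1 of #{b : N(b.1) >= tau and N(b') >= tau}
<= sum over tau of (1 + eta) #{s in A : N(s) >= tau}  (Bal applied to A_tau = {s in A : N(s) >= tau}, the b counted are in
bedg t Gd k A_tau g) = (1 + eta) sum over s in A of N(s) = (1 + eta) #{p in S : tr k p in A}.
(tau ranges over Icc 1 S.card; note 1 + eta may be used as is, no sign condition is needed if you argue as above.)
-/

namespace BDim

open Finset

namespace BalcAux

variable {w : ℕ}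

theorem main (k : ℕ) (t : Volt w) (Gd : Pt w → Fin w → Prop)
    (V S A : Finset (Pt w)) (g : Pt w → ℤ) (η : ℝ)
    (ht : Dep t) (hG : GdDep Gd k) (hB : Bal t Gd V k η) (hA : A ⊆ V.image (tr k))
    (X : Finset (Pt w × Fin w)) (Y : Finset (Pt w))
    (hX : ∀ e, e ∈ X ↔ e ∈ edg t Gd S ∧ (tr k e.1 ∈ A ∧ tr k (up t e.2 e.1) ∈ A ∧
      g (tr k (up t e.2 e.1)) - g (tr k e.1) = t k e.1 e.2))
    (hY : ∀ p, p ∈ Y ↔ p ∈ S ∧ tr k p ∈ A) :
    (X.card : ℝ) ≤ (1 + η) * Y.card := by
  classical
  set N : Pt w → ℕ := fun s => (S.filter (fun p => tr k p = s)).card with hN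
  have hNle : ∀ s, N s ≤ S.card := fun s => Finset.card_filter_le _ _
  set At : ℕ → Finset (Pt w) := fun τ => A.filter (fun s => τ ≤ N s) with hAt
  -- step 1
  have hmap : ∀ e ∈ X, (tr k e.1, e.2) ∈ bedg t Gd k A g := by
    intro e he
    obtain ⟨he1, h1, h2, h3⟩ := (hX e).1 he
    obtain ⟨hS, hne, hgd, hup⟩ := mem_edg.1 he1
    rw [mem_bedg]
    refine ⟨h1, ?_, (hG _ _).1 hgd, ?_, ?_⟩
    · simpa using hne
    · simpa only [tr_up ht] using h2
    · simpa only [tr_up ht, dep_tr ht] using h3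
  have hcard := Finset.card_eq_sum_card_fiberwise (f := fun e : Pt w × Fin w => (tr k e.1, e.2))
    (s := X) (t := bedg t Gd k A g) hmap
  -- step 2
  have hfib : ∀ b ∈ bedg t Gd k A g,
      (X.filter (fun e => (tr k e.1, e.2) = b)).card ≤
        ((Finset.Icc 1 S.card).filter (fun τ => τ ≤ N b.1 ∧ τ ≤ N (tr k (up t b.2 b.1)))).card := by
    intro b _
    have hb1 : (X.filter (fun e => (tr k e.1, e.2) = b)).card ≤ N b.1 := by
      refine Finset.card_le_card_of_injOn (fun e => e.1) ?_ ?_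
      · intro e he
        have he' := Finset.mem_filter.1 (Finset.mem_coe.1 he)
        obtain ⟨he1, -⟩ := (hX e).1 he'.1
        obtain ⟨hS, -⟩ := mem_edg.1 he1
        exact Finset.mem_coe.2 (Finset.mem_filter.2 ⟨hS, by rw [← he'.2]⟩)
      · intro e he e' he' hee
        have h1 := (Finset.mem_filter.1 (Finset.mem_coe.1 he)).2
        have h2 := (Finset.mem_filter.1 (Finset.mem_coe.1 he')).2
        have h3 : e.2 = e'.2 := by
          have := h1.trans h2.symm
          exact (Prod.ext_iff.1 this).2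
        exact Prod.ext hee h3
    have hb2 : (X.filter (fun e => (tr k e.1, e.2) = b)).card ≤ N (tr k (up t b.2 b.1)) := by
      refine Finset.card_le_card_of_injOn (fun e => up t e.2 e.1) ?_ ?_
      · intro e he
        have he' := Finset.mem_filter.1 (Finset.mem_coe.1 he)
        obtain ⟨he1, -⟩ := (hX e).1 he'.1
        obtain ⟨-, -, -, hup⟩ := mem_edg.1 he1
        refine Finset.mem_coe.2 (Finset.mem_filter.2 ⟨hup, ?_⟩)
        rw [← he'.2]
        exact (tr_up ht k e.2 e.1).symm
      · intro e he e' he' hee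
        have h1 := (Finset.mem_filter.1 (Finset.mem_coe.1 he)).2
        have h2 := (Finset.mem_filter.1 (Finset.mem_coe.1 he')).2
        have h12 := h1.trans h2.symm
        have h3 : e.2 = e'.2 := (Prod.ext_iff.1 h12).2
        have h4 : tr k e.1 = tr k e'.1 := (Prod.ext_iff.1 h12).1
        have h5 : e.1.1 = e'.1.1 := (tr_eq_iff.1 h4).1
        have hee' : up t e.2 e.1 = up t e.2 e'.1 := by
          have : up t e.2 e.1 = up t e'.2 e'.1 := hee
          rw [this, h3]
        exact Prod.ext (up_inj ht h5 hee') h3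
    set m := (X.filter (fun e => (tr k e.1, e.2) = b)).card with hm
    calc m = (Finset.Icc 1 m).card := by simp
      _ ≤ _ := by
        refine Finset.card_le_card fun τ hτ => ?_
        rw [Finset.mem_Icc] at hτ
        rw [Finset.mem_filter, Finset.mem_Icc]
        exact ⟨⟨hτ.1, hτ.2.trans (hb1.trans (hNle _))⟩, hτ.2.trans hb1, hτ.2.trans hb2⟩
  -- step 4
  have hsum : X.card ≤ ∑ τ ∈ Finset.Icc 1 S.card, (bedg t Gd k (At τ) g).card := by
    rw [hcard]
    refine (Finset.sum_le_sum hfib).trans ?_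
    simp only [Finset.card_filter]
    rw [Finset.sum_comm]
    refine Finset.sum_le_sum fun τ _ => ?_
    rw [← Finset.card_filter]
    refine Finset.card_le_card fun b hb => ?_
    obtain ⟨hb1, hb2, hb3⟩ := Finset.mem_filter.1 hb
    obtain ⟨h1, h2, h3, h4, h5⟩ := mem_bedg.1 hb1
    rw [mem_bedg]
    exact ⟨Finset.mem_filter.2 ⟨h1, hb2⟩, h2, h3, Finset.mem_filter.2 ⟨h4, hb3⟩, h5⟩
  -- step 6
  have hAsum : ∑ τ ∈ Finset.Icc 1 S.card, (At τ).card = Y.card := by
    have hYc := Finset.card_eq_sum_card_fiberwise (f := fun p : Pt w => tr k p)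
      (s := Y) (t := A) (fun p hp => ((hY p).1 hp).2)
    rw [hYc]
    simp only [hAt, Finset.card_filter]
    rw [Finset.sum_comm]
    refine Finset.sum_congr rfl fun s hs => ?_
    rw [← Finset.card_filter, ← Finset.card_filter]
    have h1 : (Finset.Icc 1 S.card).filter (fun τ => τ ≤ N s) = Finset.Icc 1 (N s) := by
      ext τ
      rw [Finset.mem_filter, Finset.mem_Icc, Finset.mem_Icc]
      exact ⟨fun h => ⟨h.1.1, h.2⟩, fun h => ⟨⟨h.1, h.2.trans (hNle s)⟩, h.2⟩⟩
    rw [h1]
    have h2 : Y.filter (fun p => tr k p = s) = S.filter (fun p => tr k p = s) := by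
      ext p
      rw [Finset.mem_filter, Finset.mem_filter, hY]
      exact ⟨fun h => ⟨h.1.1, h.2⟩, fun h => ⟨⟨h.1, h.2 ▸ hs⟩, h.2⟩⟩
    rw [h2]
    simp [hN]
  -- conclusion
  calc (X.card : ℝ) ≤ ((∑ τ ∈ Finset.Icc 1 S.card, (bedg t Gd k (At τ) g).card : ℕ) : ℝ) := by
        exact_mod_cast hsum
    _ = ∑ τ ∈ Finset.Icc 1 S.card, ((bedg t Gd k (At τ) g).card : ℝ) := by push_cast; rfl
    _ ≤ ∑ τ ∈ Finset.Icc 1 S.card, (1 + η) * ((At τ).card : ℝ) :=
        Finset.sum_le_sum fun τ _ => hB (At τ) g ((Finset.filter_subset _ _).trans hA)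
    _ = (1 + η) * (((∑ τ ∈ Finset.Icc 1 S.card, (At τ).card : ℕ)) : ℝ) := by
        rw [← Finset.mul_sum]; push_cast; rfl
    _ = (1 + η) * Y.card := by rw [hAsum]

end BalcAux

open scoped Classical

theorem BALC : BALC_stmt := by
  intro w k t Gd V S A g η ht hG hB hA
  refine BalcAux.main k t Gd V S A g η ht hG hB hA _ _ ?_ ?_
  · intro e
    simp only [Finset.mem_filter]
  · intro p
    simp only [Finset.mem_filter]

end BDim
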