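import Pool.Agent.Lib_MP_0cf6e1_co.Stmts

/-!
# MP_0cf6e1_co, piece BALN (about 110 lines)

From hSTREE (with R = membership in B) get T subset B with card T + 1 <= card A, CConn A T.  Claim: two balanced assignments tau, tau'
(with gauges g, g') that agree on all pairs outside B minus T agree everywhere: for (u,v) in T: g v - g u = g' v - g' u, so h = g - g' is
constant along T; the set {x in A : h x = h x0} is nonempty and not crossed by T, so it is A by CConn; hence g v - g u = g' v - g' u for
all u, v in A and tau = tau' on B.  So the restriction to the complement of B minus T is injective on balanced assignments, and their
number is at most (2C+1)^(card (alpha x alpha) - card B + card T); multiply by (2C+1)^(card B) and use card T <= card A - 1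
(note card B <= card (alpha x alpha), natural number subtraction: card T + 1 <= card A).
-/

namespace BDim

open Finset
open scoped Classical

theorem BALN (hSTREE : STREE_stmt) : BALN_stmt := by
  sorry

end BDim
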