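import Pool.Agent.Lib_MP_0cf6e1_co.Defs

/-!
# MP_0cf6e1_co: basic facts about truncations, moves and walks (all proved)
-/

namespace BDim

open Finset

variable {w : ℕ}

@[simp] theorem tr_fst (k : ℕ) (p : Pt w) : (tr k p).1 = p.1 := rfl

theorem tr_snd (k : ℕ) (p : Pt w) (m : ℕ) : (tr k p).2 m = if m < k then p.2 m else 0 := rfl

theorem tr_snd_lt {k m : ℕ} (p : Pt w) (h : m < k) : (tr k p).2 m = p.2 m := by
  rw [tr_snd, if_pos h]

theorem tr_snd_ge {k m : ℕ} (p : Pt w) (h : k ≤ m) : (tr k p).2 m = 0 := by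
  rw [tr_snd, if_neg (by omega)]

theorem pt_ext {p q : Pt w} (h1 : p.1 = q.1) (h2 : ∀ m, p.2 m = q.2 m) : p = q :=
  Prod.ext h1 (funext h2)

theorem tr_eq_iff {k : ℕ} {p q : Pt w} :
    tr k p = tr k q ↔ p.1 = q.1 ∧ ∀ m < k, p.2 m = q.2 m := by
  constructor
  · intro h
    refine ⟨(congrArg (fun x : Pt w => x.1) h : (tr k p).1 = (tr k q).1), fun m hm => ?_⟩
    have := congrArg (fun x : Pt w => x.2 m) h
    simpa [tr, hm] using this
  · rintro ⟨h1, h2⟩
    refine pt_ext h1 fun m => ?_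
    by_cases hm : m < k
    · simp [tr, hm, h2 m hm]
    · simp [tr, hm]

theorem tr_tr (k l : ℕ) (p : Pt w) : tr k (tr l p) = tr (min k l) p := by
  refine pt_ext rfl fun m => ?_
  simp only [tr_snd, lt_min_iff]
  split_ifs <;> first | rfl | omega

@[simp] theorem tr_idem (k : ℕ) (p : Pt w) : tr k (tr k p) = tr k p := by
  rw [tr_tr, min_self]

theorem tr_tr_le {k l : ℕ} (h : k ≤ l) (p : Pt w) : tr k (tr l p) = tr k p := by
  rw [tr_tr, min_eq_left h]

theorem tr_mono {k l : ℕ} (h : k ≤ l) {p q : Pt w} (hpq : tr l p = tr l q) :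
    tr k p = tr k q := by
  rw [← tr_tr_le h p, hpq, tr_tr_le h q]

theorem tr_succ_iff {k : ℕ} {p q : Pt w} :
    tr (k + 1) p = tr (k + 1) q ↔ tr k p = tr k q ∧ p.2 k = q.2 k := by
  rw [tr_eq_iff, tr_eq_iff]
  constructor
  · rintro ⟨h1, h2⟩
    exact ⟨⟨h1, fun m hm => h2 m (by omega)⟩, h2 k (by omega)⟩
  · rintro ⟨⟨h1, h2⟩, h3⟩
    refine ⟨h1, fun m hm => ?_⟩
    rcases Nat.lt_succ_iff_lt_or_eq.1 hm with h | h
    · exact h2 m h
    · rw [h]; exact h3

/-! ## Going up -/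

@[simp] theorem up_fst (t : Volt w) (j : Fin w) (p : Pt w) : (up t j p).1 = j := rfl

theorem up_snd' (t : Volt w) (j : Fin w) (p : Pt w) (k : ℕ) :
    (up t j p).2 k = p.2 k + t k p j := rfl

theorem dep_tr {t : Volt w} (ht : Dep t) (k : ℕ) (p : Pt w) (j : Fin w) :
    t k (tr k p) j = t k p j := ht k _ _ j (tr_idem k p)

theorem up_snd {t : Volt w} (ht : Dep t) (j : Fin w) (p : Pt w) (k : ℕ) :
    (up t j p).2 k = p.2 k + t k (tr k p) j := by
  rw [dep_tr ht, up_snd']

theorem tr_up_congr {t : Volt w} (ht : Dep t) {k : ℕ} {j : Fin w} {p q : Pt w}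
    (h : tr k p = tr k q) : tr k (up t j p) = tr k (up t j q) := by
  rw [tr_eq_iff]
  refine ⟨rfl, fun m hm => ?_⟩
  rw [up_snd', up_snd', (tr_eq_iff.1 h).2 m hm, ht m p q j (tr_mono hm.le h)]

theorem tr_up {t : Volt w} (ht : Dep t) (k : ℕ) (j : Fin w) (p : Pt w) :
    tr k (up t j (tr k p)) = tr k (up t j p) :=
  tr_up_congr ht (tr_idem k p)

/-- Injectivity of going up, at level `k`. -/
theorem tr_up_inj {t : Volt w} (ht : Dep t) {k : ℕ} {j : Fin w} {p q : Pt w}
    (h1 : p.1 = q.1) (h : tr k (up t j p) = tr k (up t j q)) : tr k p = tr k q := by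
  induction k with
  | zero => exact tr_eq_iff.2 ⟨h1, fun m hm => absurd hm (by omega)⟩
  | succ k ih =>
    obtain ⟨h2, h3⟩ := tr_succ_iff.1 h
    have h4 := ih h2
    refine tr_succ_iff.2 ⟨h4, ?_⟩
    rw [up_snd', up_snd', ht k p q j h4] at h3
    exact add_right_cancel h3

theorem eq_of_tr {p q : Pt w} (h : ∀ k, tr k p = tr k q) : p = q :=
  pt_ext ((congrArg (fun x : Pt w => x.1) (h 0) : (tr 0 p).1 = (tr 0 q).1)) fun m => (tr_eq_iff.1 (h (m + 1))).2 m (by omega)

theorem up_inj {t : Volt w} (ht : Dep t) {j : Fin w} {p q : Pt w}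
    (h1 : p.1 = q.1) (h : up t j p = up t j q) : p = q :=
  eq_of_tr fun k => tr_up_inj ht h1 (by rw [h])

/-! ## Going down -/

@[simp] theorem dn_fst (t : Volt w) (j : Fin w) (p : Pt w) : (dn t j p).1 = j := rfl

theorem dn_snd (t : Volt w) (j : Fin w) (p : Pt w) (k : ℕ) :
    (dn t j p).2 k = p.2 k - t k (tr k (dn t j p)) p.1 := by
  change dnf t j p k = _
  rw [dnf]
  rfl

theorem up_dn {t : Volt w} (ht : Dep t) (j : Fin w) (p : Pt w) : up t p.1 (dn t j p) = p := by
  refine pt_ext rfl fun k => ?_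
  rw [up_snd ht, dn_snd]
  ring

theorem dn_up {t : Volt w} (ht : Dep t) (j : Fin w) (p : Pt w) : dn t p.1 (up t j p) = p := by
  have h := up_dn ht p.1 (up t j p)
  exact up_inj ht rfl h

theorem tr_dn_congr {t : Volt w} (ht : Dep t) {k : ℕ} {j : Fin w} {p q : Pt w}
    (h : tr k p = tr k q) : tr k (dn t j p) = tr k (dn t j q) := by
  have h1 : p.1 = q.1 := (tr_eq_iff.1 h).1
  refine tr_up_inj (j := p.1) ht rfl ?_
  rw [up_dn ht, h1, up_dn ht, h]

theorem tr_dn {t : Volt w} (ht : Dep t) (k : ℕ) (j : Fin w) (p : Pt w) :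
    tr k (dn t j (tr k p)) = tr k (dn t j p) :=
  tr_dn_congr ht (tr_idem k p)

/-! ## Moves and positions -/

@[simp] theorem mv_fst (t : Volt w) (l : Fin w × Bool) (p : Pt w) : (mv t l p).1 = l.1 := by
  unfold mv
  split_ifs <;> rfl

theorem tr_mv_congr {t : Volt w} (ht : Dep t) {k : ℕ} {l : Fin w × Bool} {p q : Pt w}
    (h : tr k p = tr k q) : tr k (mv t l p) = tr k (mv t l q) := by
  unfold mv
  split_ifs
  · exact tr_up_congr ht h
  · exact tr_dn_congr ht h

/-- A move can be undone. -/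
theorem mv_mv {t : Volt w} (ht : Dep t) (l : Fin w × Bool) (p : Pt w) :
    mv t (p.1, !l.2) (mv t l p) = p := by
  unfold mv
  cases hl : l.2
  · simp only [Bool.not_false, if_true, Bool.false_eq_true, if_false]
    exact up_dn ht l.1 p
  · simp only [Bool.not_true, Bool.false_eq_true, if_false, if_true]
    exact dn_up ht l.1 p

@[simp] theorem pos_zero (t : Volt w) (p : Pt w) (W : ℕ → Fin w × Bool) : pos t p W 0 = p := rfl

theorem pos_succ (t : Volt w) (p : Pt w) (W : ℕ → Fin w × Bool) (m : ℕ) :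
    pos t p W (m + 1) = mv t (W m) (pos t p W m) := rfl

theorem pos_fst (t : Volt w) (p : Pt w) (W : ℕ → Fin w × Bool) (m : ℕ) :
    (pos t p W m).1 = chn p.1 W m := by
  cases m with
  | zero => rfl
  | succ m => rw [pos_succ, mv_fst]; rfl

theorem tr_pos_congr {t : Volt w} (ht : Dep t) {k : ℕ} {p q : Pt w} (h : tr k p = tr k q)
    (W : ℕ → Fin w × Bool) (m : ℕ) : tr k (pos t p W m) = tr k (pos t q W m) := by
  induction m with
  | zero => exact h
  | succ m ih => exact tr_mv_congr ht ih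

/-- Positions depend only on the first letters of the word. -/
theorem pos_congr (t : Volt w) (p : Pt w) {W W' : ℕ → Fin w × Bool} {L : ℕ}
    (h : ∀ m < L, W m = W' m) : ∀ m ≤ L, pos t p W m = pos t p W' m := by
  intro m
  induction m with
  | zero => intro _; rfl
  | succ m ih =>
    intro hm
    rw [pos_succ, pos_succ, ih (by omega), h m (by omega)]

/-! ## Dependence on the voltages -/

/-- Two voltages which agree below level `k`. -/
def Agr (k : ℕ) (t t' : Volt w) : Prop := ∀ m < k, t m = t' m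

theorem Agr.mono {k l : ℕ} {t t' : Volt w} (h : Agr l t t') (hk : k ≤ l) : Agr k t t' :=
  fun m hm => h m (by omega)

theorem agr_up {t t' : Volt w} {k : ℕ} (h : Agr k t t') (j : Fin w) (p : Pt w) :
    tr k (up t j p) = tr k (up t' j p) := by
  rw [tr_eq_iff]
  refine ⟨rfl, fun m hm => ?_⟩
  rw [up_snd', up_snd', h m hm]

theorem agr_dn {t t' : Volt w} (ht : Dep t) (ht' : Dep t') {k : ℕ} (h : Agr k t t') (j : Fin w)
    (p : Pt w) : tr k (dn t j p) = tr k (dn t' j p) := by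
  refine tr_up_inj (j := p.1) ht rfl ?_
  rw [agr_up h p.1 (dn t' j p), up_dn ht, up_dn ht']

theorem agr_mv {t t' : Volt w} (ht : Dep t) (ht' : Dep t') {k : ℕ} (h : Agr k t t')
    (l : Fin w × Bool) (p : Pt w) : tr k (mv t l p) = tr k (mv t' l p) := by
  unfold mv
  split_ifs
  · exact agr_up h _ _
  · exact agr_dn ht ht' h _ _

theorem agr_pos {t t' : Volt w} (ht : Dep t) (ht' : Dep t') {k : ℕ} (h : Agr k t t')
    (p : Pt w) (W : ℕ → Fin w × Bool) (m : ℕ) : tr k (pos t p W m) = tr k (pos t' p W m) := by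
  induction m with
  | zero => rfl
  | succ m ih =>
    rw [pos_succ, pos_succ, tr_mv_congr ht ih, agr_mv ht ht' h]

theorem agr_Cl {t t' : Volt w} (ht : Dep t) (ht' : Dep t') {k : ℕ} (h : Agr k t t')
    (p : Pt w) (W : ℕ → Fin w × Bool) (L : ℕ) : Cl t k p W L ↔ Cl t' k p W L := by
  unfold Cl
  rw [agr_pos ht ht' h]

theorem agr_coin {t t' : Volt w} (ht : Dep t) (ht' : Dep t') {k : ℕ} (h : Agr k t t')
    (p : Pt w) (W : ℕ → Fin w × Bool) (L : ℕ) : coin t k p W L = coin t' k p W L := by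
  unfold coin
  simp only [agr_pos ht ht' h]

theorem agr_GdG {t t' : Volt w} (ht : Dep t) (ht' : Dep t') {g k : ℕ} (h : Agr k t t')
    (p : Pt w) (j : Fin w) : GdG t g k p j ↔ GdG t' g k p j := by
  have key : ∀ (W : ℕ → Fin w × Bool) (L : ℕ),
      Cl t k (up t j p) W L ↔ Cl t' k (up t' j p) W L := by
    intro W L
    rw [agr_Cl ht ht' h]
    unfold Cl
    rw [tr_pos_congr ht' (agr_up h j p), agr_up h j p]
  unfold GdG
  simp only [agr_Cl ht ht' h p, key]

/-- `GdG` depends only on the first `k` coordinates. -/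
theorem GdG_dep {t : Volt w} (ht : Dep t) (g k : ℕ) : GdDep (GdG t g k) k := by
  intro p j
  have key1 : ∀ (W : ℕ → Fin w × Bool) (L : ℕ), Cl t k p W L ↔ Cl t k (tr k p) W L := by
    intro W L
    unfold Cl
    rw [tr_pos_congr ht (tr_idem k p).symm, tr_idem]
  have key2 : ∀ (W : ℕ → Fin w × Bool) (L : ℕ),
      Cl t k (up t j p) W L ↔ Cl t k (up t j (tr k p)) W L := by
    intro W L
    unfold Cl
    rw [tr_pos_congr ht (tr_up ht k j p).symm, tr_up ht k j p]
  unfold GdG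
  simp only [key1, key2, tr_fst]

/-- Changing the voltages of level `k` to a prefix dependent function keeps `Dep`. -/
theorem Dep.update {t : Volt w} (ht : Dep t) {k : ℕ} {u : Pt w → Fin w → ℤ}
    (hu : ∀ p q j, tr k p = tr k q → u p j = u q j) : Dep (Function.update t k u) := by
  intro m p q j h
  by_cases hm : m = k
  · subst hm
    rw [Function.update_self]
    exact hu p q j h
  · rw [Function.update_of_ne hm]
    exact ht m p q j h

theorem agr_update (t : Volt w) (k : ℕ) (u : Pt w → Fin w → ℤ) :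
    Agr k t (Function.update t k u) := by
  intro m hm
  rw [Function.update_of_ne (by omega)]

theorem mem_ball {n R : ℕ} {x : ℕ → ℤ} :
    x ∈ ball n R ↔ (∀ m, n ≤ m → x m = 0) ∧ ∑ m ∈ Finset.range n, (x m) ^ 2 ≤ (R : ℤ) := by
  classical
  unfold ball
  rw [Finset.mem_filter]
  constructor
  · rintro ⟨h1, h2⟩
    refine ⟨fun m hm => ?_, h2⟩
    obtain ⟨y, _, rfl⟩ := Finset.mem_image.1 h1
    simp only [dif_neg (not_lt.2 hm)]
  · rintro ⟨h1, h2⟩
    refine ⟨Finset.mem_image.2 ⟨fun m => x m, ?_, ?_⟩, h2⟩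
    · rw [Fintype.mem_piFinset]
      intro m
      have h3 : (x m) ^ 2 ≤ (R : ℤ) := by
        refine le_trans ?_ h2
        exact Finset.single_le_sum (f := fun m => (x m) ^ 2) (fun i _ => sq_nonneg _)
          (Finset.mem_range.2 m.2)
      rw [Finset.mem_Icc]
      constructor <;> nlinarith [sq_nonneg (x m), sq_nonneg (x m - 1), sq_nonneg (x m + 1)]
    · funext m
      by_cases hm : m < n
      · simp [hm]
      · simp [hm, h1 m (not_lt.1 hm)]

theorem mem_edg {t : Volt w} {Gd : Pt w → Fin w → Prop} {S : Finset (Pt w)}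
    {e : Pt w × Fin w} :
    e ∈ edg t Gd S ↔ e.1 ∈ S ∧ e.2 ≠ e.1.1 ∧ Gd e.1 e.2 ∧ up t e.2 e.1 ∈ S := by
  classical
  unfold edg
  simp [Finset.mem_filter, Finset.mem_product]

theorem mem_bedg {t : Volt w} {Gd : Pt w → Fin w → Prop} {k : ℕ} {A : Finset (Pt w)}
    {g : Pt w → ℤ} {e : Pt w × Fin w} :
    e ∈ bedg t Gd k A g ↔ e.1 ∈ A ∧ e.2 ≠ e.1.1 ∧ Gd e.1 e.2 ∧ tr k (up t e.2 e.1) ∈ A ∧
      g (tr k (up t e.2 e.1)) - g e.1 = t k e.1 e.2 := by
  classical
  unfold bedg
  simp [Finset.mem_filter, Finset.mem_product]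

end BDim
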