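import Pool.Agent.Lib_MP_0cf6e1_co.Stmts

/-!
# MP_0cf6e1_co, piece BRMONO (about 40 lines)

Add the orders: on any type X there is a strict total order (WellOrderingRel, IsWellOrder gives IsStrictTotalOrder).  From (L, tau) of
size d define L' i = if h : i < d then L (i, h) else WellOrderingRel and tau' b = tau (fun i => b (Fin.castLE hdd' i)).
-/

namespace BDim

open Finset
open scoped Classical

theorem BRMONO : BRMONO_stmt := by
  sorry

end BDim
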