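import Pool.Agent.Lib_MP_0cf6e1_co.Stmts

/-!
# MP_0cf6e1_co, piece CONN (about 160 lines)

Let a >= 1.  Enumerate neighbours: there is nb : alpha -> Fin Delta -> alpha such that every v with R u v or R v u is nb u i for some i
(if Delta = 0 there are no neighbours; for a = 1 the count is card alpha).  For a root r and a word om : Fin l -> Fin Delta the walk is
x_0 = r, x_(i+1) = nb x_i (om i); its support is a finite set.  Claim: every CConn set A with card A = a is, for every r in A, the support
of a walk with x_0 = x_l = r, l = 2 (a-1).  Growth: by CConn there are sets {r} = A_1 subset A_2 ... subset A_a = A, each A_(i+1) = A_i
plus a vertex v adjacent to some u in A_i (apply CConn to A' = A_i).  Induction: A_i is the support of a closed walk from r of length 2(i-1);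
it visits u at some time s; insert the detour u -> v -> u.  (R symmetric closure, so v -> u is also a neighbour step.)
So the number of such A is at most the number of (r, word) = card alpha * Delta^(2(a-1)).
A convenient formulation: lists of vertices forming a walk in the symmetric closure; map lists to words at the end.
-/

namespace BDim

open Finset
open scoped Classical

theorem CONN : CONN_stmt := by
  sorry

end BDim
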