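import Pool.Agent.Lib_MP_0cf6e1_co.Stmts

/-!
# MP_0cf6e1_co, piece CYC (about 170 lines)

Let G = fromRel (lar ...).  lar p q implies tr k p = p, tr k q = q (tr_idem), q.2 0 = p.2 0 + 1 (k >= 1, t 0 = 1); so lar p q and lar q p
are incompatible (first claim), and G.Adj p q <-> lar p q or lar q p.
Let c be a cycle from v of length L (L >= 3), suppose L <= g.  P m = c.getVert m, P 0 = P L = v.  Word: W m = (P (m+1).1,
decide (lar (P m) (P (m+1)))) for m < L (up step iff lar (P m) (P (m+1)), otherwise lar (P (m+1)) (P m)).
Claim tr k (pos t v W m) = P m for m <= L: up step: P (m+1) = tr k (up t .. (P m)) = tr k (up t .. (pos ..)) (tr_up_congr);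
down step: P m = tr k (up t (P m).1 (P (m+1))), so tr k (dn t (P (m+1)).1 (P m)) = P (m+1) (tr_dn_congr, dn_up).
So Cl t k v W L, and Cl t k0 v W L by tr_mono (tr_tr_le).  Rd v.1 W L: the chains change because lar has different chains
(chn v.1 W m = (P m).1 by pos_fst).  No backtracking: if chain (m+2) = chain m and the direction is opposite then P (m+2) = P m:
(mv_mv, tr_mv_congr), but in a cycle P m != P (m+2) for m + 2 <= L (L >= 3; vertices P 0..P (L-1) distinct, P L = P 0:
SimpleGraph.Walk.IsCycle: getVert injective on {1..L} : IsCycle.getVert_injOn or support_nodup).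
First edge: if lar v (P 1): GdG t g k0 v (P 1).1 but W 0 = ((P 1).1, true) contradicts its first part.  If lar (P 1) v: GdG t g k0 (P 1) v.1
and W 0 = ((P 1).1, false), Rd v.1 W L, Cl t k0 (up t v.1 (P 1)) W L holds because tr k (up t v.1 (P 1)) = v and Cl at level k0 depends
only on tr k0 (tr_pos_congr): contradiction with the second part.
-/

namespace BDim

open Finset
open scoped Classical

theorem CYC : CYC_stmt := by
  sorry

end BDim
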