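import Mathlib

/-!
# MP_0cf6e1_co: definitions for the lower bound `B(w) ≥ w - 1`

Points are pairs (chain index, sequence of integers).  Voltages `t k p j` are the shift of the
coordinate `k` when one goes up from the point `p` to the chain `j`; they depend only on the
coordinates of `p` before `k`.  The chain `i` is ordered lexicographically.
-/

namespace BDim

open Finset

/-- Points: a chain index and a sequence of integers. -/
abbrev Pt (w : ℕ) := Fin w × (ℕ → ℤ)

/-- Voltages. -/
abbrev Volt (w : ℕ) := ℕ → Pt w → Fin w → ℤ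

variable {w : ℕ}

noncomputable instance instDecPt : DecidableEq (Pt w) := Classical.decEq _

/-- Truncation to the first `k` coordinates. -/
def tr (k : ℕ) (p : Pt w) : Pt w := (p.1, fun m => if m < k then p.2 m else 0)

/-- Going up from `p` to the chain `j`. -/
def up (t : Volt w) (j : Fin w) (p : Pt w) : Pt w := (j, fun k => p.2 k + t k p j)

/-- The voltages depend only on the previous coordinates. -/
def Dep (t : Volt w) : Prop := ∀ k p q j, tr k p = tr k q → t k p j = t k q j

/-- Admissible voltages: prefix dependent, bounded by `C`, equal to one at level `0` (the time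
coordinate) and zero from level `n` on. -/
structure VG (n C : ℕ) (t : Volt w) : Prop where
  dep : Dep t
  bdd : ∀ k p j, |t k p j| ≤ C
  time : ∀ p j, t 0 p j = 1
  fin : ∀ k, n ≤ k → ∀ p j, t k p j = 0

/-- The good edges `(p, j)` (from `p` up to the chain `j`) inside the finite set `S`. -/
noncomputable def edg (t : Volt w) (Gd : Pt w → Fin w → Prop) (S : Finset (Pt w)) :
    Finset (Pt w × Fin w) := by
  classical
  exact (S ×ˢ (univ : Finset (Fin w))).filter
    (fun e => e.2 ≠ e.1.1 ∧ Gd e.1 e.2 ∧ up t e.2 e.1 ∈ S)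

/-- The balanced good edges of the level `k` graph inside the set `A` of truncated points, for
the gauge function `g`. -/
noncomputable def bedg (t : Volt w) (Gd : Pt w → Fin w → Prop) (k : ℕ) (A : Finset (Pt w))
    (g : Pt w → ℤ) : Finset (Pt w × Fin w) := by
  classical
  exact (A ×ˢ (univ : Finset (Fin w))).filter
    (fun e => e.2 ≠ e.1.1 ∧ Gd e.1 e.2 ∧ tr k (up t e.2 e.1) ∈ A ∧
      g (tr k (up t e.2 e.1)) - g e.1 = t k e.1 e.2)

/-- Balanced subgraphs of the level `k` graph are sparse. -/
def Bal (t : Volt w) (Gd : Pt w → Fin w → Prop) (V : Finset (Pt w)) (k : ℕ) (η : ℝ) : Prop :=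
  ∀ (A : Finset (Pt w)) (g : Pt w → ℤ), A ⊆ V.image (tr k) →
    ((bedg t Gd k A g).card : ℝ) ≤ (1 + η) * A.card

/-- The predicate `Gd` depends only on the first `k` coordinates. -/
def GdDep (Gd : Pt w → Fin w → Prop) (k : ℕ) : Prop := ∀ p j, Gd p j ↔ Gd (tr k p) j

/-- `S` has the largest ratio of good edges to points among its nonempty subsets. -/
def Extr (t : Volt w) (Gd : Pt w → Fin w → Prop) (S : Finset (Pt w)) : Prop :=
  ∀ T : Finset (Pt w), T ⊆ S → (edg t Gd T).card * S.card ≤ (edg t Gd S).card * T.card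

/-! ## Counting on a finite set with a function -/

section Count

variable {ι α β Λ : Type}

/-- Number of elements of `Ω` in the class of `i`. -/
noncomputable def cnt (Ω : Finset ι) (f : ι → α) (i : ι) : ℕ := by
  classical
  exact (Ω.filter (fun i' => f i' = f i)).card

/-- Unnormalised energy. -/
noncomputable def En (Ω : Finset ι) (f : ι → α) (lab : ι → Λ) : ℝ :=
  ∑ i ∈ Ω, (cnt Ω (fun i' => (f i', lab i')) i : ℝ) / cnt Ω f i

/-- `‖π_{s,λ} - π_s‖₁` for the class `s = f i` and the label `λ = lab i`; `h` gives the finer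
classes. -/
noncomputable def D1 (Ω : Finset ι) (f : ι → α) (h : ι → β) (lab : ι → Λ) (i : ι) : ℝ := by
  classical
  exact ∑ c ∈ (Ω.filter (fun i' => f i' = f i)).image h,
    |((Ω.filter (fun i' => h i' = c ∧ lab i' = lab i)).card : ℝ) /
        cnt Ω (fun i' => (f i', lab i')) i -
      ((Ω.filter (fun i' => h i' = c)).card : ℝ) / cnt Ω f i|

end Count

/-- The set of pairs (edge, side); side `true` is the lower end. -/
noncomputable def Om (t : Volt w) (Gd : Pt w → Fin w → Prop) (S : Finset (Pt w)) :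
    Finset ((Pt w × Fin w) × Bool) := edg t Gd S ×ˢ (univ : Finset Bool)

/-- The end of the edge given by the side. -/
def Xo (t : Volt w) (o : (Pt w × Fin w) × Bool) : Pt w :=
  if o.2 = true then o.1.1 else up t o.1.2 o.1.1

/-- The label of an edge seen from one side: the other chain and the side. -/
def lam (o : (Pt w × Fin w) × Bool) : Fin w × Bool :=
  if o.2 = true then (o.1.2, true) else (o.1.1.1, false)

/-! ## Walks -/

/-- The coordinates of the point of the chain `j` whose upper neighbour in the chain of `p` is `p`.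
-/
noncomputable def dnf (t : Volt w) (j : Fin w) (p : Pt w) : ℕ → ℤ
  | k => p.2 k - t k (j, fun m => if h : m < k then dnf t j p m else 0) p.1
termination_by k => k

/-- Going down from `p` to the chain `j`. -/
noncomputable def dn (t : Volt w) (j : Fin w) (p : Pt w) : Pt w := (j, dnf t j p)

/-- The move with signed label `l`: `(j, true)` goes up to the chain `j`, `(j, false)` goes down
to the chain `j`. -/
noncomputable def mv (t : Volt w) (l : Fin w × Bool) (p : Pt w) : Pt w :=
  if l.2 = true then up t l.1 p else dn t l.1 p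

/-- The position after `m` steps of the word `W`, starting from `p`. -/
noncomputable def pos (t : Volt w) (p : Pt w) (W : ℕ → Fin w × Bool) : ℕ → Pt w
  | 0 => p
  | m + 1 => mv t (W m) (pos t p W m)

/-- The chain after `m` steps, starting in the chain `i`. -/
def chn (i : Fin w) (W : ℕ → Fin w × Bool) : ℕ → Fin w
  | 0 => i
  | m + 1 => (W m).1

/-- The first `L` steps of `W` are nontrivial and without backtracking. -/
def Rd (i : Fin w) (W : ℕ → Fin w × Bool) (L : ℕ) : Prop :=
  (∀ m < L, chn i W (m + 1) ≠ chn i W m) ∧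
    ∀ m, m + 1 < L → ¬ (chn i W (m + 2) = chn i W m ∧ (W (m + 1)).2 = !(W m).2)

/-- The walk is closed at level `k` after `L` steps. -/
def Cl (t : Volt w) (k : ℕ) (p : Pt w) (W : ℕ → Fin w × Bool) (L : ℕ) : Prop :=
  tr k (pos t p W L) = tr k p

/-- Number of coincidences at level `k` in the first `L` steps. -/
noncomputable def coin (t : Volt w) (k : ℕ) (p : Pt w) (W : ℕ → Fin w × Bool) (L : ℕ) : ℕ := by
  classical
  exact (((Finset.range (L + 1)) ×ˢ (Finset.range (L + 1))).filter
    (fun ab => ab.1 < ab.2 ∧ tr k (pos t p W ab.1) = tr k (pos t p W ab.2))).card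

/-- Extension of a finite word to an infinite one. -/
def xt {g : ℕ} (l₀ : Fin w × Bool) (W : Fin g → Fin w × Bool) : ℕ → Fin w × Bool :=
  fun m => if h : m < g then W ⟨m, h⟩ else l₀

/-- The potential: sum over the closed reduced walks of length `1, …, g` from the points of `V`
of `(2 C + 1)` to the number of coincidences. -/
noncomputable def Pot (C g : ℕ) (l₀ : Fin w × Bool) (V : Finset (Pt w)) (t : Volt w) (k : ℕ) : ℕ :=
  by
  classical
  exact ∑ L ∈ Finset.Icc 1 g, ∑ W : Fin g → Fin w × Bool, ∑ p ∈ V,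
    if Rd p.1 (xt l₀ W) L ∧ Cl t k p (xt l₀ W) L then
      (2 * C + 1) ^ coin t k p (xt l₀ W) L else 0

/-- Number of closed reduced walks of length `1, …, g` from the points of `V`. -/
noncomputable def NCl (g : ℕ) (l₀ : Fin w × Bool) (V : Finset (Pt w)) (t : Volt w) (k : ℕ) : ℕ :=
  by
  classical
  exact ∑ L ∈ Finset.Icc 1 g, ∑ W : Fin g → Fin w × Bool,
    (V.filter (fun p => Rd p.1 (xt l₀ W) L ∧ Cl t k p (xt l₀ W) L)).card

/-- An edge is good if it is not the first edge of a closed reduced walk of length at most `g` at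
level `k`, from either end. -/
def GdG (t : Volt w) (g k : ℕ) (p : Pt w) (j : Fin w) : Prop :=
  (¬ ∃ (L : ℕ) (W : ℕ → Fin w × Bool), 1 ≤ L ∧ L ≤ g ∧ W 0 = (j, true) ∧ Rd p.1 W L ∧
      Cl t k p W L) ∧
  (¬ ∃ (L : ℕ) (W : ℕ → Fin w × Bool), 1 ≤ L ∧ L ≤ g ∧ W 0 = (p.1, false) ∧ Rd j W L ∧
      Cl t k (up t j p) W L)

/-- The key of the step `m` of a walk at level `k`: the edge used, given by its lower end
(truncated) and the chain of its upper end. -/
noncomputable def key (t : Volt w) (k : ℕ) (p : Pt w) (W : ℕ → Fin w × Bool) (m : ℕ) :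
    Pt w × Fin w :=
  if (W m).2 = true then (tr k (pos t p W m), (W m).1)
  else (tr k (pos t p W (m + 1)), (pos t p W m).1)

/-- The sign of a step. -/
def sgn (W : ℕ → Fin w × Bool) (m : ℕ) : ℤ := if (W m).2 = true then 1 else -1

/-- The oriented graph of the good edges at level `k` (on truncated points). -/
def lar (t : Volt w) (Gd : Pt w → Fin w → Prop) (k : ℕ) (p q : Pt w) : Prop :=
  tr k p = p ∧ p.1 ≠ q.1 ∧ Gd p q.1 ∧ q = tr k (up t q.1 p)

/-- Number of bad edges inside `V`. -/
noncomputable def nbad (t : Volt w) (Gd : Pt w → Fin w → Prop) (V : Finset (Pt w)) : ℕ := by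
  classical
  exact ((V ×ˢ (univ : Finset (Fin w))).filter
    (fun e => e.2 ≠ e.1.1 ∧ ¬ Gd e.1 e.2 ∧ up t e.2 e.1 ∈ V)).card

/-! ## Laws of a coordinate -/

/-- Law of the coordinate `k` given the prefix `s`. -/
noncomputable def law (t : Volt w) (Gd : Pt w → Fin w → Prop) (S : Finset (Pt w)) (k : ℕ)
    (s : Pt w) (v : ℤ) : ℝ := by
  classical
  exact (((Om t Gd S).filter (fun o => tr k (Xo t o) = s ∧ (Xo t o).2 k = v)).card : ℝ) /
    ((Om t Gd S).filter (fun o => tr k (Xo t o) = s)).card

/-- `‖law s - shifted law s'‖₁` for the edge `e` from the prefix `s` to the prefix `s'`. -/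
noncomputable def D2 (t : Volt w) (Gd : Pt w → Fin w → Prop) (S : Finset (Pt w)) (k : ℕ)
    (e : Pt w × Fin w) : ℝ := by
  classical
  exact ∑ v ∈ S.image (fun p => p.2 k) ∪ S.image (fun p => p.2 k - t k e.1 e.2),
    |law t Gd S k (tr k e.1) v - law t Gd S k (tr k (up t e.2 e.1)) (v + t k e.1 e.2)|

/-! ## Connectivity by cuts, in a finite set -/

/-- Every proper cut of `A` is crossed by the relation `R`. -/
def CConn {α : Type} (A : Finset α) (R : α → α → Prop) : Prop :=
  ∀ A' : Finset α, A' ⊆ A → A'.Nonempty → A' ≠ A →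
    ∃ u ∈ A', ∃ v ∈ A, v ∉ A' ∧ (R u v ∨ R v u)

/-! ## Balls -/

/-- Integer sequences supported on `[0, n)` with sum of squares at most `R`. -/
noncomputable def ball (n R : ℕ) : Finset (ℕ → ℤ) := by
  classical
  exact ((Fintype.piFinset (fun _ : Fin n => Finset.Icc (-(R : ℤ)) R)).image
    (fun y m => if h : m < n then y ⟨m, h⟩ else 0)).filter
      (fun x => ∑ m ∈ Finset.range n, (x m) ^ 2 ≤ (R : ℤ))

/-- A bounded prefix dependent shift of integer sequences. -/
structure Shift (n C : ℕ) (s : ℕ → (ℕ → ℤ) → ℤ) : Prop where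
  bdd : ∀ k x, |s k x| ≤ C
  dep : ∀ k x y, (∀ m < k, x m = y m) → s k x = s k y
  fin : ∀ k x, n ≤ k → s k x = 0

/-! ## The abstract poset construction -/

/-- A finite poset of width at most `w`, given with a chain partition and a set `E` of cover
pairs between different chains. -/
structure Frame (V : Type) (w : ℕ) where
  lt : V → V → Prop
  ch : V → Fin w
  E : V → V → Prop
  irr : ∀ v, ¬ lt v v
  trans : ∀ u v x, lt u v → lt v x → lt u x
  comp : ∀ u v, ch u = ch v → u ≠ v → lt u v ∨ lt v u
  Elt : ∀ u v, E u v → lt u v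
  Ech : ∀ u v, E u v → ch u ≠ ch v
  cover : ∀ u v x, E u v → lt u x → ¬ lt x v

/-- The order on `V × Fin N`. -/
def MLt {V : Type} (F : Frame V w) (N : ℕ) (a b : V × Fin N) : Prop :=
  (a.1 = b.1 ∧ a.2 < b.2) ∨ (F.lt a.1 b.1 ∧ (F.E a.1 b.1 → a.2 ≤ b.2))

/-- The pairs of `E` inside `S`. -/
noncomputable def eset {V : Type} (E : V → V → Prop) (S : Finset V) : Finset (V × V) := by
  classical
  exact (S ×ˢ S).filter (fun e => E e.1 e.2)

/-- A strict order has a Boolean realizer of size `d`. -/
def BR {X : Type} (lt : X → X → Prop) (d : ℕ) : Prop :=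
  ∃ (L : Fin d → X → X → Prop) (τ : (Fin d → Prop) → Prop),
    (∀ i, IsStrictTotalOrder X (L i)) ∧ ∀ x y : X, x ≠ y → (lt x y ↔ τ (fun i => L i x y))

/-- Upper bit vector. -/
def bp {V : Type} {d : ℕ} (r : Fin d → V → ℕ) (sg : Fin d → V → Prop) (v v' : V) :
    Fin d → Prop := fun k => r k v < r k v' ∨ (r k v = r k v' ∧ sg k v)

/-- Lower bit vector. -/
def bm {V : Type} {d : ℕ} (r : Fin d → V → ℕ) (sg : Fin d → V → Prop) (v v' : V) :
    Fin d → Prop := fun k => r k v < r k v' ∨ (r k v = r k v' ∧ ¬ sg k v)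

/-- The homogeneous structure obtained from a Boolean realizer of `MLt F N`, `N` large. -/
structure Hom {V : Type} (F : Frame V w) {d : ℕ} (r : Fin d → V → ℕ) (sg : Fin d → V → Prop)
    (τ : (Fin d → Prop) → Prop) : Prop where
  sgc : ∀ k v v', r k v = r k v' → (sg k v ↔ sg k v')
  self : ∀ v, τ (bp r sg v v) ∧ ¬ τ (bm r sg v v)
  hp : ∀ v v', v ≠ v' → (τ (bp r sg v v') ↔ F.lt v v')
  hm : ∀ v v', v ≠ v' → (τ (bm r sg v v') ↔ (F.lt v v' ∧ ¬ F.E v v'))

end BDim
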