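import Pool.Agent.Lib_MP_0cf6e1_co.Stmts

/-!
# MP_0cf6e1_co, piece EDGEC (about 110 lines)

Let V = univ x B.  The set P of all (p,j) with p in V and j != p.1 has w (w-1) card B elements.  Each element of P is a good edge with upper
end in V (counted in edg), or a bad one with upper end in V (counted in nbad), or its upper end up t j p is not in V.  For fixed i != j the
last kind with p.1 = i is {x in B : (fun k => x k + t k (i,x) j) not in B}, and s k x = t k (i,x) j is a Shift n C (bdd, dep from Dep and
tr_eq_iff, fin), so there are at most eps card B of them; in total at most w (w-1) eps card B.
-/

namespace BDim

open Finset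
open scoped Classical

theorem EDGEC : EDGEC_stmt := by
  sorry

end BDim
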