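import Pool.Agent.Lib_MP_0cf6e1_co.Stmts

/-!
# MP_0cf6e1_co, piece ENB (about 20 lines)

0 <= En <= card Omega: each quotient is between 0 and 1, because the elements with the same (f, lab) have the same f
(cnt of the pair is at most cnt of f); division by zero is harmless (the quotient is then 0).
-/

namespace BDim

open Finset

private theorem enb_cnt_mono {ι α β : Type} (Ω : Finset ι) (f : ι → α) (g : ι → β)
    (hfg : ∀ a b, f a = f b → g a = g b) (i : ι) : cnt Ω f i ≤ cnt Ω g i := by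
  classical
  unfold cnt
  refine Finset.card_le_card fun x hx => ?_
  simp only [Finset.mem_filter] at hx ⊢
  exact ⟨hx.1, hfg _ _ hx.2⟩

open scoped Classical

theorem ENB : ENB_stmt := by
  intro ι α Λ Ω f lab
  have h0 : ∀ i ∈ Ω, 0 ≤ (cnt Ω (fun i' => (f i', lab i')) i : ℝ) / cnt Ω f i :=
    fun i _ => by positivity
  have h1 : ∀ i ∈ Ω, (cnt Ω (fun i' => (f i', lab i')) i : ℝ) / cnt Ω f i ≤ 1 := by
    intro i _
    refine div_le_one_of_le₀ ?_ (Nat.cast_nonneg _)
    have h2 : cnt Ω (fun i' => (f i', lab i')) i ≤ cnt Ω f i :=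
      enb_cnt_mono Ω _ _ (fun a b h => (Prod.ext_iff.1 h).1) i
    exact_mod_cast h2
  refine ⟨Finset.sum_nonneg h0, ?_⟩
  calc En Ω f lab ≤ ∑ i ∈ Ω, (1 : ℝ) := Finset.sum_le_sum h1
    _ = Ω.card := by simp

end BDim
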