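import Pool.Agent.Lib_MP_0cf6e1_co.Stmts

/-!
# MP_0cf6e1_co, piece ENERGY (about 120 lines)

Energy increment. Write, for i in Omega, s = f i (coarse class), c = h i (fine class, contained in the coarse class by
the hypothesis), l = lab i, n(s) = #{f = s}, n(s,l) = #{f = s, lab = l}, n(c), n(c,l) likewise for h (all counted in Omega).
For a fine class c inside s (write s = s(c)) and a label l put a(c,l) = n(c,l) - n(s,l) n(c) / n(s).
1. Sum over i of D1 i = sum over pairs (c,l) with n(s(c),l) > 0 of |a(c,l)|: group the i by (s,l): there are n(s,l) of them, all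
   with the same D1 = sum over c in s of |n(c,l)/n(s,l) - n(c)/n(s)|. (For n(s,l) = 0 one has a(c,l) = 0.)
2. Cauchy-Schwarz: (sum |a|)^2 <= (sum over (c,l) of n(c)) (sum a^2 / n(c)) and sum over (c,l) of n(c) = card Lambda * card Omega
   (c over the classes in the image of h, l over all of Lambda).
3. sum a^2/n(c) = sum n(c,l)^2/n(c) - 2 sum n(c,l) n(s,l)/n(s) + sum n(s,l)^2 n(c)/n(s)^2
   = En h - 2 En f + En f = En h - En f, because En h = sum_{(c,l)} n(c,l)^2/n(c) (group the i by (c,l)), En f likewise and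
   sum over c in s of n(c,l) = n(s,l), sum over c in s of n(c) = n(s).
-/

namespace BDim

open Finset
open scoped Classical

namespace ENERGYaux

/-- Group by a function. -/
theorem grp1 {ι γ : Type} (Ω : Finset ι) (u : ι → γ) (φ : γ → ℝ) :
    ∑ i ∈ Ω, φ (u i) =
      ∑ c ∈ Ω.image u, ((Ω.filter (fun i => u i = c)).card : ℝ) * φ c := by
  rw [Finset.sum_comp]
  simp only [nsmul_eq_mul]

/-- Group by a function and a label. -/
theorem grp2 {ι γ Λ : Type} [Fintype Λ] (Ω : Finset ι) (u : ι → γ) (lab : ι → Λ)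
    (φ : γ → Λ → ℝ) :
    ∑ i ∈ Ω, φ (u i) (lab i) =
      ∑ c ∈ Ω.image u, ∑ l : Λ,
        ((Ω.filter (fun i => u i = c ∧ lab i = l)).card : ℝ) * φ c l := by
  rw [← Finset.sum_fiberwise_of_maps_to (g := u) (t := Ω.image u)
    (fun i hi => Finset.mem_image_of_mem u hi)]
  refine Finset.sum_congr rfl fun c _ => ?_
  rw [← Finset.sum_fiberwise (Ω.filter (fun i => u i = c)) lab]
  refine Finset.sum_congr rfl fun l _ => ?_
  rw [Finset.filter_filter]
  rw [Finset.sum_congr rfl (g := fun _ => φ c l), Finset.sum_const, nsmul_eq_mul]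
  intro i hi
  obtain ⟨_, h1, h2⟩ := Finset.mem_filter.1 hi
  rw [h1, h2]

theorem cnt_pair {ι α Λ : Type} (Ω : Finset ι) (f : ι → α) (lab : ι → Λ) (i : ι) :
    cnt Ω (fun i' => (f i', lab i')) i =
      (Ω.filter (fun i' => f i' = f i ∧ lab i' = lab i)).card := by
  unfold cnt
  refine congrArg Finset.card (Finset.ext fun j => ?_)
  simp only [Finset.mem_filter, Prod.mk.injEq]

end ENERGYaux

open ENERGYaux in
theorem ENERGY : ENERGY_stmt := by
  intro ι α β Λ _ Ω f h lab hfh
  rcases Ω.eq_empty_or_nonempty with hΩ | ⟨i₀, hi₀⟩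
  · subst hΩ
    simp [En]
  -- the coarse class of a fine class
  obtain ⟨F, hF⟩ : ∃ F : β → α, ∀ i ∈ Ω, F (h i) = f i := by
    refine ⟨fun c => if hc : ∃ i ∈ Ω, h i = c then f hc.choose else f i₀, fun i hi => ?_⟩
    have hc : ∃ j ∈ Ω, h j = h i := ⟨i, hi, rfl⟩
    simp only [dif_pos hc]
    exact hfh _ hc.choose_spec.1 _ hi hc.choose_spec.2
  set C : Finset β := Ω.image h with hC
  set N : β → ℝ := fun c => ((Ω.filter (fun i => h i = c)).card : ℝ) with hN
  set Nl : β → Λ → ℝ := fun c l => ((Ω.filter (fun i => h i = c ∧ lab i = l)).card : ℝ) with hNl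
  set Ns : α → ℝ := fun s => ((Ω.filter (fun i => f i = s)).card : ℝ) with hNs
  set Nsl : α → Λ → ℝ := fun s l => ((Ω.filter (fun i => f i = s ∧ lab i = l)).card : ℝ)
    with hNsl
  have hN0 : ∀ c ∈ C, 0 < N c := by
    intro c hc
    obtain ⟨i, hi, rfl⟩ := Finset.mem_image.1 hc
    have : 0 < (Ω.filter (fun j => h j = h i)).card :=
      Finset.card_pos.2 ⟨i, Finset.mem_filter.2 ⟨hi, rfl⟩⟩
    exact Nat.cast_pos.2 this
  have hNs0 : ∀ i ∈ Ω, 0 < Ns (f i) := by
    intro i hi
    have : 0 < (Ω.filter (fun j => f j = f i)).card :=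
      Finset.card_pos.2 ⟨i, Finset.mem_filter.2 ⟨hi, rfl⟩⟩
    exact Nat.cast_pos.2 this
  have hNsC : ∀ c ∈ C, 0 < Ns (F c) := by
    intro c hc
    obtain ⟨i, hi, rfl⟩ := Finset.mem_image.1 hc
    rw [hF i hi]
    exact hNs0 i hi
  have hle : ∀ c ∈ C, ∀ l, Nl c l ≤ Nsl (F c) l := by
    intro c hc l
    have : (Ω.filter (fun i => h i = c ∧ lab i = l)).card ≤
        (Ω.filter (fun i => f i = F c ∧ lab i = l)).card := by
      refine Finset.card_le_card fun i hi => ?_
      obtain ⟨h1, h2, h3⟩ := Finset.mem_filter.1 hi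
      refine Finset.mem_filter.2 ⟨h1, ?_, h3⟩
      rw [← h2, hF i h1]
    exact Nat.cast_le.2 this
  have hNl0 : ∀ c l, 0 ≤ Nl c l := fun c l => Nat.cast_nonneg _
  have hNsl0 : ∀ c l, 0 ≤ Nsl c l := fun c l => Nat.cast_nonneg _
  set a : β → Λ → ℝ := fun c l => Nl c l - Nsl (F c) l * N c / Ns (F c) with ha
  -- Step 1
  have step1 : ∑ i ∈ Ω, D1 Ω f h lab i = ∑ c ∈ C, ∑ l : Λ, |a c l| := by
    have e1 : ∀ i ∈ Ω, D1 Ω f h lab i = ∑ c ∈ C, (if f i = F c then
        |Nl c (lab i) / Nsl (F c) (lab i) - N c / Ns (F c)| else 0) := by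
      intro i hi
      unfold D1
      rw [← Finset.sum_filter]
      have hset : (Ω.filter (fun i' => f i' = f i)).image h = C.filter (fun c => f i = F c) := by
        ext c
        constructor
        · intro hc
          obtain ⟨j, hj, rfl⟩ := Finset.mem_image.1 hc
          obtain ⟨hj1, hj2⟩ := Finset.mem_filter.1 hj
          exact Finset.mem_filter.2 ⟨Finset.mem_image_of_mem h hj1, by rw [hF j hj1, hj2]⟩
        · intro hc
          obtain ⟨hc1, hc2⟩ := Finset.mem_filter.1 hc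
          obtain ⟨j, hj1, rfl⟩ := Finset.mem_image.1 hc1
          rw [hF j hj1] at hc2
          exact Finset.mem_image.2 ⟨j, Finset.mem_filter.2 ⟨hj1, hc2.symm⟩, rfl⟩
      rw [hset]
      refine Finset.sum_congr rfl fun c hc => ?_
      have hc2 := (Finset.mem_filter.1 hc).2
      rw [cnt_pair, ← hc2]
      rfl
    rw [Finset.sum_congr rfl e1, Finset.sum_comm]
    refine Finset.sum_congr rfl fun c hc => ?_
    rw [← Finset.sum_fiberwise Ω lab]
    refine Finset.sum_congr rfl fun l _ => ?_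
    have e2 : ∀ i ∈ Ω.filter (fun i => lab i = l),
        (if f i = F c then |Nl c (lab i) / Nsl (F c) (lab i) - N c / Ns (F c)| else 0) =
        (if f i = F c then |Nl c l / Nsl (F c) l - N c / Ns (F c)| else 0) := by
      intro i hi
      rw [(Finset.mem_filter.1 hi).2]
    rw [Finset.sum_congr rfl e2, ← Finset.sum_filter, Finset.sum_const, Finset.filter_filter,
      nsmul_eq_mul]
    have e3 : ((Ω.filter (fun i => lab i = l ∧ f i = F c)).card : ℝ) = Nsl (F c) l := by
      simp only [hNsl]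
      congr 2
      refine Finset.filter_congr fun i _ => ?_
      tauto
    rw [e3]
    rcases (hNsl0 (F c) l).eq_or_lt with h0 | hpos
    · have h1 : Nl c l = 0 := le_antisymm (by rw [h0]; exact hle c hc l) (hNl0 c l)
      simp only [ha, h1, ← h0]
      simp
    · conv_lhs => rw [← abs_of_pos hpos, ← abs_mul]
      congr 1
      simp only [ha]
      rw [mul_sub, abs_of_pos hpos, mul_div_cancel₀ _ hpos.ne']
      ring
  -- Step 2
  have step2 : (∑ c ∈ C, ∑ l : Λ, |a c l|) ^ 2 ≤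
      ((Fintype.card Λ : ℝ) * Ω.card) * ∑ c ∈ C, ∑ l : Λ, a c l ^ 2 / N c := by
    have hsum : ∑ c ∈ C, ∑ _l : Λ, N c = (Fintype.card Λ : ℝ) * Ω.card := by
      simp only [Finset.sum_const, Finset.card_univ, nsmul_eq_mul]
      rw [← Finset.mul_sum]
      congr 1
      have := grp1 Ω h (fun _ => 1)
      simp only [mul_one, Finset.sum_const, nsmul_eq_mul] at this
      exact this.symm
    rw [← hsum]
    simp only [← Finset.sum_product']
    refine Finset.sum_sq_le_sum_mul_sum_of_sq_le_mul _ ?_ ?_ ?_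
    · rintro ⟨c, l⟩ hcl
      exact (hN0 c (Finset.mem_product.1 hcl).1).le
    · rintro ⟨c, l⟩ hcl
      exact div_nonneg (sq_nonneg _) (hN0 c (Finset.mem_product.1 hcl).1).le
    · rintro ⟨c, l⟩ hcl
      have := (hN0 c (Finset.mem_product.1 hcl).1).ne'
      simp only [sq_abs]
      rw [mul_div_cancel₀ _ this]
  -- Step 3
  have hEnh : En Ω h lab = ∑ c ∈ C, ∑ l : Λ, Nl c l * (Nl c l / N c) := by
    unfold En
    have := grp2 Ω h lab (fun c l => Nl c l / N c)
    rw [← this]
    refine Finset.sum_congr rfl fun i _ => ?_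
    rw [cnt_pair]
    rfl
  have hEnf : En Ω f lab = ∑ c ∈ C, ∑ l : Λ, Nl c l * (Nsl (F c) l / Ns (F c)) := by
    unfold En
    have := grp2 Ω h lab (fun c l => Nsl (F c) l / Ns (F c))
    rw [← this]
    refine Finset.sum_congr rfl fun i hi => ?_
    rw [cnt_pair, hF i hi]
    rfl
  have hEnf2 : En Ω f lab = ∑ s ∈ Ω.image f, ∑ l : Λ, Nsl s l * (Nsl s l / Ns s) := by
    unfold En
    have := grp2 Ω f lab (fun s l => Nsl s l / Ns s)
    rw [← this]
    refine Finset.sum_congr rfl fun i hi => ?_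
    rw [cnt_pair]
    rfl
  have hthird : En Ω f lab = ∑ c ∈ C, ∑ l : Λ, (Nsl (F c) l / Ns (F c)) ^ 2 * N c := by
    have e1 : ∑ c ∈ C, ∑ l : Λ, (Nsl (F c) l / Ns (F c)) ^ 2 * N c =
        ∑ i ∈ Ω, ∑ l : Λ, (Nsl (F (h i)) l / Ns (F (h i))) ^ 2 := by
      rw [grp1 Ω h (fun c => ∑ l : Λ, (Nsl (F c) l / Ns (F c)) ^ 2)]
      refine Finset.sum_congr rfl fun c _ => ?_
      rw [Finset.mul_sum]
      refine Finset.sum_congr rfl fun l _ => ?_
      rw [mul_comm]
    have e2 : ∑ i ∈ Ω, ∑ l : Λ, (Nsl (F (h i)) l / Ns (F (h i))) ^ 2 =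
        ∑ i ∈ Ω, ∑ l : Λ, (Nsl (f i) l / Ns (f i)) ^ 2 := by
      refine Finset.sum_congr rfl fun i hi => ?_
      rw [hF i hi]
    rw [e1, e2, grp1 Ω f (fun s => ∑ l : Λ, (Nsl s l / Ns s) ^ 2), hEnf2]
    refine Finset.sum_congr rfl fun s hs => ?_
    obtain ⟨i, hi, rfl⟩ := Finset.mem_image.1 hs
    have h0 := (hNs0 i hi).ne'
    rw [Finset.mul_sum]
    refine Finset.sum_congr rfl fun l _ => ?_
    change Nsl (f i) l * (Nsl (f i) l / Ns (f i)) = Ns (f i) * (Nsl (f i) l / Ns (f i)) ^ 2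
    field_simp
  have step3 : ∑ c ∈ C, ∑ l : Λ, a c l ^ 2 / N c = En Ω h lab - En Ω f lab := by
    have e : En Ω h lab - En Ω f lab =
        En Ω h lab - En Ω f lab - En Ω f lab + En Ω f lab := by ring
    rw [e]
    nth_rw 3 [hthird]
    rw [hEnh, hEnf, ← Finset.sum_sub_distrib, ← Finset.sum_sub_distrib,
      ← Finset.sum_add_distrib]
    refine Finset.sum_congr rfl fun c hc => ?_
    rw [← Finset.sum_sub_distrib, ← Finset.sum_sub_distrib, ← Finset.sum_add_distrib]
    refine Finset.sum_congr rfl fun l _ => ?_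
    have h1 := (hN0 c hc).ne'
    have h2 := (hNsC c hc).ne'
    simp only [ha]
    field_simp
    ring
  rw [step1, ← step3]
  exact step2

end BDim
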