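import Pool.Agent.Lib_MP_0cf6e1_co.Stmts

/-!
# MP_0cf6e1_co, piece EXTR (about 50 lines)

Among the nonempty subsets T of S choose one with the largest ratio card (edg T) / card T (Finset.exists_max_image on the powerset
filtered by Nonempty, real or rational ratio).  It is extremal (for T' empty edg T' is empty) and its ratio is at least that of S.
-/

namespace BDim

open Finset
open scoped Classical

theorem EXTR : EXTR_stmt := by
  sorry

end BDim
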