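import Pool.Agent.Lib_MP_0cf6e1_co.Stmts

/-!
# MP_0cf6e1_co, piece FINAL (about 220 lines)

Given w >= 3.  eta = 1/(4w), eta' = 1/(8w).  Choose C >= 1 with 4 (2w)^2 2^(2w) <= (2C+1)^eta' (real power tends to infinity).
K from hREGION C (1/(16w)).  r, k0, n, a0, m from hNUM w C K.  B from hREGION at n, V = univ x B : Finset (Pt w),
card V = w card B <= w (K sqrt n)^n <= 4^a0.  t from hTOWER (eta', V).  Gd = GdG t (2r+2) k0.
nbad <= card V / 16: from hTOWER and the third property of hNUM: nbad (2C+1)^(k0-1) * 16 <= 32 * 2^(k0-1) (...) card V <= (2C+1)^(k0-1) card V.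
hEDGEC (eps = 1/(16w)): card edg >= (w-1)(1 - 1/(16w)) card V - card V/16 >= (w - 1 - 1/8) card V.
Small sets: if S subset V with card S <= 2m then card (edg S) <= (1+eta) card S: otherwise S is nonempty and hSMALLSET gives
(...)^(n-k0) <= 2 w card S <= 2w * 2m, contradiction with hNUM.  The same with S = V (w - 1 - 1/8 >= 1 + eta): 2 w card V >= (...)^(n-k0) > 2w * 2m, so card V > 2m >= m.
Frame F from hFRAME on {p // p in V} (card = card V); eset F.E S <-> edg (S.image val).  N from hHOM with d = w - 2.  If BR (MLt F N) (w-2) then hHOM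
and hGRP (m, eta) give (w - 1 - 1/8) card V <= card (eset F.E univ) <= (w-2)(1+eta) card V + w^2 (2 (card V/m + 1))^(w-2)
<= (w - 2 + 1/4) card V + m/2 < (w - 2 + 1/4 + 1/2) card V (card V <= w (K sqrt n)^n in the last term), contradiction.
Antichain: x in B, a i = (i, x): F.lt (a i) (a j) is false (same chain: i = j and toLex x < toLex x; different: coordinate 0 of up is x 0 + 1 > x 0,
while toLex u <= toLex x implies u 0 <= x 0).
-/

namespace BDim

open Finset
open scoped Classical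

private theorem final_C (w : ℕ) (hw : 3 ≤ w) : ∃ C : ℕ, 1 ≤ C ∧
    (4 * (2 * w : ℕ) ^ 2 * 2 ^ (2 * w) : ℝ) ≤ (2 * C + 1 : ℝ) ^ (1 / (8 * (w : ℝ))) := by
  have hpos : (0 : ℝ) < 1 / (8 * (w : ℝ)) := by
    have : (3 : ℝ) ≤ w := by exact_mod_cast hw
    positivity
  obtain ⟨x, hx⟩ := Filter.eventually_atTop.1
    ((tendsto_rpow_atTop hpos).eventually_ge_atTop (4 * (2 * w : ℕ) ^ 2 * 2 ^ (2 * w) : ℝ))
  refine ⟨⌈|x|⌉₊ + 1, by omega, hx _ ?_⟩
  have h1 : |x| ≤ (⌈|x|⌉₊ : ℝ) := Nat.le_ceil _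
  have h2 : x ≤ |x| := le_abs_self x
  push_cast
  have h3 : (0 : ℝ) ≤ |x| := abs_nonneg x
  linarith

private theorem lex_le_zero {x y : ℕ → ℤ} (h : toLex x ≤ toLex y) : x 0 ≤ y 0 := by
  rcases h.lt_or_eq with h | h
  · obtain ⟨k, h1, h2⟩ := h
    rcases Nat.eq_zero_or_pos k with hk | hk
    · subst hk; exact le_of_lt h2
    · exact le_of_eq (h1 0 hk)
  · have : x = y := toLex_inj.1 h
    rw [this]

theorem FINAL (hSMALLSET : SMALLSET_stmt) (hHOM : HOM_stmt) (hGRP : GRP_stmt) (hFRAME : FRAME_stmt) (hREGION : REGION_stmt) (hTOWER : TOWER_stmt) (hNUM : NUM_stmt) (hEDGEC : EDGEC_stmt) : FINAL_stmt := by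
  intro w hw
  obtain ⟨C, hC, hCw⟩ := final_C w hw
  have hwr : (3 : ℝ) ≤ (w : ℝ) := by exact_mod_cast hw
  have hw0 : (0 : ℝ) < (w : ℝ) := by linarith
  obtain ⟨K, hK, hKr⟩ := hREGION C (1 / (16 * (w : ℝ))) (by positivity)
  obtain ⟨r, k₀, n, a₀, m, hk₀, hkn, hm, ha, hsz, hgir, hX, hlast⟩ := hNUM w C K hw hC hK
  obtain ⟨B, hBne, _, hBcard, hBsh⟩ := hKr n (by omega)
  set V : Finset (Pt w) := (univ : Finset (Fin w)) ×ˢ B with hV
  have hVcard : V.card = w * B.card := by
    rw [hV, Finset.card_product, Finset.card_univ, Fintype.card_fin]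
  have hBpos : 0 < B.card := hBne.card_pos
  have hVle : (V.card : ℝ) ≤ w * (K * Real.sqrt n) ^ n := by
    rw [hVcard]; push_cast
    exact mul_le_mul_of_nonneg_left hBcard hw0.le
  have hV4 : V.card ≤ 4 ^ a₀ := by
    have : (V.card : ℝ) ≤ (4 : ℝ) ^ a₀ := hVle.trans hsz
    exact_mod_cast this
  obtain ⟨t, ht, hGd, hBal, hnbad⟩ := hTOWER w C n r k₀ a₀ (1 / (8 * (w : ℝ))) V (by omega) hC hk₀
    hkn.le (by positivity) ha hV4 hCw
  set Gd := GdG t (2 * r + 2) k₀ with hGdd
  have hVpos : 0 < V.card := by rw [hVcard]; positivity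
  have hVr : (0 : ℝ) < (V.card : ℝ) := by exact_mod_cast hVpos
  -- bad edges
  have hbad : (nbad t Gd V : ℝ) ≤ (V.card : ℝ) / 16 := by
    have h1 : 16 * (nbad t Gd V * (2 * C + 1) ^ (k₀ - 1)) ≤ V.card * (2 * C + 1) ^ (k₀ - 1) := by
      calc 16 * (nbad t Gd V * (2 * C + 1) ^ (k₀ - 1))
          ≤ 16 * (2 * (2 ^ (k₀ - 1) * ((2 * r + 2) * (2 * w) ^ (2 * r + 2) * V.card *
              (2 * C + 1) ^ ((2 * r + 3) ^ 2)))) := Nat.mul_le_mul_left _ hnbad
        _ = V.card * (32 * 2 ^ (k₀ - 1) * ((2 * r + 2) * (2 * w) ^ (2 * r + 2) *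
              (2 * C + 1) ^ ((2 * r + 3) ^ 2))) := by ring
        _ ≤ V.card * (2 * C + 1) ^ (k₀ - 1) := Nat.mul_le_mul_left _ hgir
    have h2 : 0 < (2 * C + 1) ^ (k₀ - 1) := by positivity
    have h3 : 16 * nbad t Gd V ≤ V.card := by
      refine Nat.le_of_mul_le_mul_right ?_ h2
      rw [mul_assoc]; exact h1
    have h4 : (16 : ℝ) * nbad t Gd V ≤ V.card := by exact_mod_cast h3
    linarith
  -- number of edges
  have hedg : ((w : ℝ) - 1 - 1 / 8) * V.card ≤ (edg t Gd V).card := by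
    have h1 := hEDGEC w n C t Gd B (1 / (16 * (w : ℝ))) (by omega) ht (by positivity) hBsh
    rw [← hV] at h1
    have h2 : (w : ℝ) * B.card = V.card := by rw [hVcard]; push_cast; ring
    rw [h2] at h1
    have h3 : ((w : ℝ) - 1) * (1 / (16 * (w : ℝ))) ≤ 1 / 16 := by
      rw [mul_one_div, div_le_div_iff₀ (by positivity) (by norm_num)]
      nlinarith
    nlinarith
  -- the small set theorem
  have hsmall : ∀ S : Finset (Pt w), S ⊆ V → S.Nonempty →
      (1 + 1 / (4 * (w : ℝ))) * S.card ≤ (edg t Gd S).card → 2 * (m : ℝ) < S.card := by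
    intro S hS hne hcard
    have h1 := hSMALLSET w n k₀ t Gd V S (1 / (4 * (w : ℝ))) (1 / (8 * (w : ℝ))) ht.dep hkn
      (by positivity) (one_div_lt_one_div_of_lt (by positivity) (by linarith)) hGd hBal hS hne hcard
    have h2 := lt_of_lt_of_le hX h1
    have h3 : (0 : ℝ) < 2 * w := by positivity
    exact lt_of_mul_lt_mul_left h2 h3.le
  have hVbig : 2 * (m : ℝ) < V.card := by
    refine hsmall V (Finset.Subset.refl _) (Finset.card_pos.1 hVpos) (le_trans ?_ hedg)
    refine mul_le_mul_of_nonneg_right ?_ hVr.le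
    have : 1 / (4 * (w : ℝ)) ≤ 1 / 12 := by
      rw [div_le_div_iff₀ (by positivity) (by norm_num)]; linarith
    linarith
  -- the frame
  obtain ⟨F, hFlt, hFch, hFcount⟩ := hFRAME w n C t Gd V ht
  obtain ⟨N, hN, hNbr⟩ := hHOM {p : Pt w // p ∈ V} w (w - 2) F
  refine ⟨{p : Pt w // p ∈ V}, inferInstance, F, N, hN, ?_, ?_⟩
  · obtain ⟨x, hx⟩ := hBne
    refine ⟨fun i => ⟨(i, x), Finset.mem_product.2 ⟨Finset.mem_univ _, hx⟩⟩, ?_, ?_⟩
    · intro i j hij
      have := congrArg (fun a : {p : Pt w // p ∈ V} => a.1.1) hij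
      exact this
    · intro i j hlt
      rw [hFlt] at hlt
      rcases hlt with ⟨_, h⟩ | ⟨_, h⟩
      · exact lt_irrefl _ h
      · have h1 := lex_le_zero h
        rw [up_snd', ht.time] at h1
        simp at h1
  · intro hbr
    obtain ⟨rr, sg, τ, hH⟩ := hNbr hbr
    have h1 := hGRP {p : Pt w // p ∈ V} w (w - 2) F rr sg τ hH m (1 / (4 * (w : ℝ))) hm
      (by positivity) ?_
    · have hcu : (eset F.E (univ : Finset {p : Pt w // p ∈ V})).card = (edg t Gd V).card := by
        rw [hFcount]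
        congr 2
        ext p
        simp
      have hcv : Fintype.card {p : Pt w // p ∈ V} = V.card := by simp
      rw [hcu, hcv] at h1
      have hd : (((w - 2 : ℕ)) : ℝ) = (w : ℝ) - 2 := by
        rw [Nat.cast_sub (by omega)]; norm_num
      rw [hd] at h1
      have hm0 : (0 : ℝ) < m := by exact_mod_cast hm
      have h2 : (w : ℝ) ^ 2 * (2 * ((V.card : ℝ) / m + 1)) ^ (w - 2) ≤ m / 2 := by
        refine le_trans ?_ hlast
        refine mul_le_mul_of_nonneg_left ?_ (by positivity)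
        refine pow_le_pow_left₀ (by positivity) ?_ _
        have : (V.card : ℝ) / m ≤ w * (K * Real.sqrt n) ^ n / m :=
          div_le_div_of_nonneg_right hVle hm0.le
        linarith
      have h3 : ((w : ℝ) - 2) * (1 + 1 / (4 * (w : ℝ))) ≤ (w : ℝ) - 2 + 1 / 4 := by
        have : ((w : ℝ) - 2) * (1 / (4 * (w : ℝ))) ≤ 1 / 4 := by
          rw [mul_one_div, div_le_div_iff₀ (by positivity) (by norm_num)]
          nlinarith
        nlinarith
      have h4 : ((w : ℝ) - 2) * (1 + 1 / (4 * (w : ℝ))) * (V.card : ℝ) ≤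
          ((w : ℝ) - 2 + 1 / 4) * V.card := mul_le_mul_of_nonneg_right h3 hVr.le
      nlinarith
    · intro S hS
      by_contra hcon
      push Not at hcon
      have hcardS : (S.image Subtype.val).card = S.card :=
        Finset.card_image_of_injective _ Subtype.val_injective
      have hsub : S.image Subtype.val ⊆ V := by
        intro p hp
        obtain ⟨a, _, rfl⟩ := Finset.mem_image.1 hp
        exact a.2
      rw [hFcount] at hcon
      have hne : (S.image Subtype.val).Nonempty := by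
        rw [Finset.nonempty_iff_ne_empty]
        intro hemp
        rw [hemp] at hcon
        have : (edg t Gd (∅ : Finset (Pt w))).card = 0 := by
          rw [Finset.card_eq_zero, Finset.eq_empty_iff_forall_notMem]
          intro e he
          exact absurd (mem_edg.1 he).1 (Finset.notMem_empty _)
        rw [this] at hcon
        have h5 : (0 : ℝ) ≤ (1 + 1 / (4 * (w : ℝ))) * S.card := by positivity
        rw [Nat.cast_zero] at hcon
        linarith
      have h6 := hsmall (S.image Subtype.val) hsub hne (by rw [hcardS]; exact hcon.le)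
      rw [hcardS] at h6
      have h7 : (S.card : ℝ) ≤ 2 * m := by exact_mod_cast hS
      linarith

end BDim
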