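import Pool.Agent.Lib_MP_0cf6e1_co.Stmts

/-!
# MP_0cf6e1_co, piece FRAME (about 150 lines)

Define on V (subtype): lt a b as in the statement, ch a = a.1.1, E a b := b.1 = up t b.1.1 a.1 and b.1.1 != a.1.1 and Gd a.1 b.1.1.
Lexicographic order on Nat -> Int: Pi.Lex (toLex x < toLex y <-> exists k, x m = y m for m < k and x k < y k); it is a linear order
(Mathlib: Pi.Lex.linearOrder needs well-founded index).  Facts:
(a) toLex x <= toLex y implies x 0 <= y 0; x 0 < y 0 implies toLex x < toLex y.
(b) going up is strictly monotone on a chain: p.1 = q.1, toLex p.2 < toLex q.2 -> toLex (up t j p).2 < toLex (up t j q).2: at the first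
    difference k the prefixes agree, so t m p j = t m q j for m <= k (Dep, tr_eq_iff).
(c) (up t j p).2 0 = p.2 0 + 1 (VG.time).
irr: toLex x < toLex x is false (same chain).  trans a b c: all chains equal: trans of lex; a,b same chain, c different: (b) and
transitivity; b,c same chain, a different: transitivity; a,b different, b,c different: coordinate 0 of c >= coordinate 0 of b + 1 >=
coordinate 0 of a + 2 by (a),(c), which is larger than that of a and of up a: use (a) in both cases c same chain as a or not.
comp: same chain, different points: lex is total.  Elt: toLex of equal things.  Ech clear.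
cover u v x: E u v, lt u x, lt x v impossible: v = up u, so v.2 0 = u.2 0 + 1.  If ch x differs from both: x 0 >= u 0 + 1 and
v 0 >= x 0 + 1.  If ch x = ch u: u < x lex, and lt x v says up x <= v = up u lex (same target chain), contradiction with (b).
If ch x = ch v: lt u x says up u <= x, i.e. v <= x, and lt x v says x < v lex.
Counting: the map (a,b) -> (a.1, b.1.1) is a bijection from eset F.E S onto edg t Gd (S.image val).
-/

namespace BDim

open Finset
open scoped Classical

theorem FRAME : FRAME_stmt := by
  sorry

end BDim
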