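import Pool.Agent.Lib_MP_0cf6e1_co.Stmts

/-!
# MP_0cf6e1_co, piece GIRTH (about 110 lines)

Induction on k0 >= 1: there is t with VG k0 C t and Pot C g l0 V t k0 * (2C+1)^(k0-1) <= 2^(k0-1) * (g (2w)^g card V (2C+1)^((g+1)^2)).
k0 = 1: t 0 = 1 and t k = 0 for k >= 1 (Dep clear); coin <= (L+1)^2 <= (g+1)^2 (card of a filter of a product), number of words
(card (Fin w x Bool))^g = (2w)^g, so Pot <= g (2w)^g card V (2C+1)^((g+1)^2).
Step: hGSTEP at level k0 gives u; t' = update t k0 u is VG (k0+1) C (t' 0 = t 0 since k0 >= 1; zero from k0+1 on).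
Finally NCl <= Pot (each term 1 <= (2C+1)^coin).
-/

namespace BDim

open Finset
open scoped Classical

theorem GIRTH (hGSTEP : GSTEP_stmt) : GIRTH_stmt := by
  sorry

end BDim
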