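import Pool.Agent.Lib_MP_0cf6e1_co.Stmts

/-!
# MP_0cf6e1_co, piece GRP (about 200 lines)

Apply hGRPA to each order: beta k : V -> Nat.  box v = (beta k v)_k, a function Fin d -> Nat with values < M := 2 (card V / m + 1), so
there are at most M^d boxes, and M <= 2 (card V / m + 1) in the reals.
Edges of type 1: E v v' such that for some k, beta k v = beta k v' is even.  For fixed k and a fixed even value b the set
S_b = {v : beta k v = b} has at most 2 m elements (if nonempty), so it spans at most (1+eta) card S_b pairs of E (hypothesis);
sum over b: <= (1+eta) card V; sum over k: d (1+eta) card V.
Edges of type 2: E v v' such that for every k: beta k v != beta k v', or beta k v = beta k v' odd.  Claim: for all u, u' with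
box u = box v and box u' = box v': E u u'.  Indeed for each k the truth values of bp r sg u u' k, bm r sg u u' k, bp r sg u' u k,
bm r sg u' u k are equal to those for (v, v'): if beta k v < beta k v' then r k v < r k v' and r k u < r k u' (property 1); same for >;
if equal and odd: r k v = r k v' = r k u = r k u' (property 2), and the signs agree by Hom.sgc.  So bp r sg u u' = bp r sg v v' etc.
as functions.  From E v v' (v != v'): tau (bp v v') true (hp), tau (bm v v') false (hm), and since F.lt v' v is false (irr, trans):
tau (bp v' v) is false (hp).  If u = u' then bp u' u = bp u u and tau of it is true by Hom.self, contradiction; so u != u', then hp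
gives F.lt u u' and hm gives F.E u u'.
So for a type 2 edge all pairs (u, u') of box v x box v' are in E.  For fixed u the pairs E u u' have pairwise different chains
F.ch u' (E u x, E u y with ch x = ch y, x != y: comp gives lt x y or lt y x, contradiction with cover), likewise for fixed u'.  So
box v and box v' have at most w elements.  The number of type 2 edges is at most the sum over the boxes with at most w elements
of (elements v of the box) * (number of v' with E v v' <= w) <= M^d * w * w.
-/

namespace BDim

open Finset
open scoped Classical

theorem GRP (hGRPA : GRPA_stmt) : GRP_stmt := by
  sorry

end BDim
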