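import Pool.Agent.Lib_MP_0cf6e1_co.Stmts

/-!
# MP_0cf6e1_co, piece GRPA (about 100 lines)

For v let st v = #{u : r u < r v} (start of its class) and sz v = #{u : r u = r v}; big v := m < sz v.
beta v = 2 * (st v / m) + (if big v then 1 else 0).
(1) if r v < r v' then st v + sz v <= st v'.  st v = st v' <-> r v = r v'.  So: beta v < beta v': either st v / m < st v' / m, then
st v < st v' and r v < r v'; or same quotient, v not big, v' big: then r v != r v' (same class would have the same size); if r v' < r v
then st v >= st v' + sz v' > st v' + m, so the quotients differ, contradiction; so r v < r v'.
(2) beta v = beta v' odd: both big with the same quotient; if r v < r v' then st v' >= st v + sz v > st v + m, quotients differ.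
(3) beta v even (v not big): the set G of v' with beta v' = beta v consists of small classes with starts in the window
[q m, (q+1) m), q = st v / m.  Take u in G with r u maximal: G is contained in {v' : q m <= st v', r v' <= r u}, and
#{v' : r v' <= r u} = st u + sz u <= (q+1) m - 1 + m, while the elements with r v' < r v0 (v0 in G with r v0 minimal) are not in G and
there are st v0 >= q m of them.  So card G <= 2 m.
(4) st v < card V (v itself is not counted), so st v / m <= card V / m and beta v <= 2 (card V / m) + 1.
-/

namespace BDim

open Finset
open scoped Classical

theorem GRPA : GRPA_stmt := by
  sorry

end BDim
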