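import Pool.Agent.Lib_MP_0cf6e1_co.Stmts

/-!
# MP_0cf6e1_co, piece GSTEP (about 200 lines)

Let Keys be the finite set of all key t k p W m, for p in V, W = xt l0 W', m < g, as a subtype kappa (Fintype).  For
u0 : kappa -> Fin (2C+1) let u p j = (u0 (tr k p, j) : Int) - C if (tr k p, j) is in Keys, and 0 otherwise; |u| <= C, prefix dependent,
Dep (update t k u) by Dep.update.  Let t' = update t k u, rho = 2C+1.
For fixed L in Icc 1 g, W, p put X(u0) = [Rd and Cl t' (k+1)] rho^(coin t' (k+1)).  Claim: rho * sum over u0 of X(u0) <=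
2 * (number of u0) * [Rd and Cl t k] rho^(coin t k).  Indeed Cl t' (k+1) implies Cl t' k <-> Cl t k (agr_Cl, tr_mono), and
coin t' (k+1) <= coin t' k = coin t k.  If Rd and Cl t k: take a < b <= L from hKEYD.  By hKEYC summed from a to b (telescoping),
(pos t' b).2 k - (pos t' a).2 k = sum over m in Ico a b of sgn W m * (u0 (key m) - C), where all keys are in Keys (b <= L <= g).
If it is nonzero then (a,b) is a coincidence at level k but not at level k+1 for t', so coin t' (k+1) <= coin t k - 1 and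
rho * X <= rho^(coin t k).  If it is zero, X <= rho^(coin t k), and by hAVG rho * #{such u0} <= number of u0.
Together rho * sum X <= rho^coin * (#u0) + rho^coin * (#u0).
Sum over (L, W, p): rho * sum over u0 of Pot(t') (k+1) <= 2 * #u0 * Pot t k, so some u0 satisfies the claim
(Finset.exists_le_of_sum_le or by contradiction).
-/

namespace BDim

open Finset
open scoped Classical

namespace GSTEP

variable {w : ℕ}

theorem mem_coin {t : Volt w} {k : ℕ} {p : Pt w} {W : ℕ → Fin w × Bool} {L : ℕ} :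
    coin t k p W L = (((Finset.range (L + 1)) ×ˢ (Finset.range (L + 1))).filter
    (fun ab => ab.1 < ab.2 ∧ tr k (pos t p W ab.1) = tr k (pos t p W ab.2))).card := by
  unfold coin
  rfl

theorem coin_le (t : Volt w) (k : ℕ) (p : Pt w) (W : ℕ → Fin w × Bool) (L : ℕ) :
    coin t (k + 1) p W L ≤ coin t k p W L := by
  rw [mem_coin, mem_coin]
  apply Finset.card_le_card
  intro ab h
  rw [Finset.mem_filter] at h ⊢
  exact ⟨h.1, h.2.1, tr_mono (Nat.le_succ k) h.2.2⟩

theorem coin_lt {t : Volt w} {k : ℕ} {p : Pt w} {W : ℕ → Fin w × Bool} {L a b : ℕ} (hab : a < b)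
    (hb : b ≤ L) (h : tr k (pos t p W a) = tr k (pos t p W b))
    (h' : tr (k + 1) (pos t p W a) ≠ tr (k + 1) (pos t p W b)) :
    coin t (k + 1) p W L + 1 ≤ coin t k p W L := by
  rw [mem_coin, mem_coin]
  apply Finset.card_lt_card
  rw [Finset.ssubset_iff_of_subset]
  · refine ⟨(a, b), ?_, ?_⟩
    · rw [Finset.mem_filter, Finset.mem_product, Finset.mem_range, Finset.mem_range]
      exact ⟨⟨by show a < L + 1; omega, by show b < L + 1; omega⟩, hab, h⟩
    · rw [Finset.mem_filter]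
      rintro ⟨_, _, h3⟩
      exact h' h3
  · intro ab h
    rw [Finset.mem_filter] at h ⊢
    exact ⟨h.1, h.2.1, tr_mono (Nat.le_succ k) h.2.2⟩

/-- Coordinates along a walk, summed. -/
theorem telescope (hKEYC : KEYC_stmt) {k : ℕ} {t t' : Volt w} (p : Pt w) (W : ℕ → Fin w × Bool)
    (ht : Dep t) (ht' : Dep t') (h : Agr k t t') {a b : ℕ} (hab : a ≤ b) :
    (pos t' p W b).2 k = (pos t' p W a).2 k +
      ∑ m ∈ Finset.Ico a b, sgn W m * t' k (key t k p W m).1 (key t k p W m).2 := by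
  induction b, hab using Nat.le_induction with
  | base => simp
  | succ n hn ih =>
    rw [Finset.sum_Ico_succ_top hn, hKEYC w k t t' p W n ht ht' h, ih]
    ring

theorem key_tr (t : Volt w) (k : ℕ) (p : Pt w) (W : ℕ → Fin w × Bool) (m : ℕ) :
    tr k (key t k p W m).1 = (key t k p W m).1 := by
  unfold key
  split_ifs <;> exact tr_idem _ _

/-- The set of the keys. -/
noncomputable def Keys (t : Volt w) (k g : ℕ) (l₀ : Fin w × Bool) (V : Finset (Pt w)) :
    Finset (Pt w × Fin w) :=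
  (V ×ˢ ((univ : Finset (Fin g → Fin w × Bool)) ×ˢ Finset.range g)).image
    (fun x => key t k x.1 (xt l₀ x.2.1) x.2.2)

theorem key_mem {t : Volt w} {k g : ℕ} {l₀ : Fin w × Bool} {V : Finset (Pt w)} {p : Pt w}
    (hp : p ∈ V) (W : Fin g → Fin w × Bool) {m : ℕ} (hm : m < g) :
    key t k p (xt l₀ W) m ∈ Keys t k g l₀ V := by
  unfold Keys
  rw [Finset.mem_image]
  exact ⟨(p, W, m), by simp [hp, hm], rfl⟩

/-- The voltages of an assignment. -/
noncomputable def vo (C k : ℕ) (Ks : Finset (Pt w × Fin w)) (u0 : {e // e ∈ Ks} → Fin (2 * C + 1))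
    (p : Pt w) (j : Fin w) : ℤ :=
  if h : (tr k p, j) ∈ Ks then (u0 ⟨_, h⟩ : ℤ) - C else 0

theorem vo_bdd (C k : ℕ) (Ks : Finset (Pt w × Fin w)) (u0 : {e // e ∈ Ks} → Fin (2 * C + 1))
    (p : Pt w) (j : Fin w) : |vo C k Ks u0 p j| ≤ C := by
  unfold vo
  split_ifs with h
  · have := (u0 ⟨_, h⟩).2
    rw [abs_le]
    constructor <;> omega
  · simp

theorem vo_dep (C k : ℕ) (Ks : Finset (Pt w × Fin w)) (u0 : {e // e ∈ Ks} → Fin (2 * C + 1))
    (p q : Pt w) (j : Fin w) (h : tr k p = tr k q) : vo C k Ks u0 p j = vo C k Ks u0 q j := by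
  unfold vo
  rw [h]

theorem vo_key (C : ℕ) {k : ℕ} {Ks : Finset (Pt w × Fin w)} (u0 : {e // e ∈ Ks} → Fin (2 * C + 1))
    {e : Pt w × Fin w} (he : e ∈ Ks) (htr : tr k e.1 = e.1) :
    vo C k Ks u0 e.1 e.2 = (u0 ⟨e, he⟩ : ℤ) - C := by
  unfold vo
  have h : (tr k e.1, e.2) ∈ Ks := by rw [htr]; exact he
  rw [dif_pos h]
  have h2 : (⟨(tr k e.1, e.2), h⟩ : {e // e ∈ Ks}) = ⟨e, he⟩ := Subtype.ext (Prod.ext htr rfl)
  rw [h2]

theorem avg' (hAVG : AVG_stmt) (κ : Type) [Fintype κ] [inst : DecidableEq κ] (C a b : ℕ)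
    (sg : ℕ → ℤ) (ky : ℕ → κ) (hab : a < b) (h1 : ∀ m, sg m = 1 ∨ sg m = -1)
    (h2 : ∀ m m', a ≤ m → m < b → a ≤ m' → m' < b → ky m = ky m' → m = m') :
  (2 * C + 1) * ((univ : Finset (κ → Fin (2 * C + 1))).filter (fun u =>
      ∑ m ∈ Finset.Ico a b, sg m * ((u (ky m) : ℤ) - C) = 0)).card ≤
    Fintype.card (κ → Fin (2 * C + 1)) := by
  have h := hAVG κ C a b sg ky hab h1 h2
  have he : inst = fun a b => Classical.propDecidable (a = b) := Subsingleton.elim _ _
  subst he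
  exact h

/-- The term of the potential. -/
noncomputable def X (C : ℕ) (t : Volt w) (k : ℕ) (p : Pt w) (W : ℕ → Fin w × Bool) (L : ℕ) : ℕ :=
  if Rd p.1 W L ∧ Cl t k p W L then (2 * C + 1) ^ coin t k p W L else 0

theorem claim (hKEYC : KEYC_stmt) (hKEYD : KEYD_stmt) (hAVG : AVG_stmt) {C g k : ℕ}
    {l₀ : Fin w × Bool} {V : Finset (Pt w)} {t : Volt w} (hk : 1 ≤ k) (ht : Dep t)
    (ht0 : ∀ p j, t 0 p j = 1) {L : ℕ} (hL : L ∈ Finset.Icc 1 g) (W : Fin g → Fin w × Bool)
    {p : Pt w} (hp : p ∈ V) :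
    (2 * C + 1) * ∑ u0 : {e // e ∈ Keys t k g l₀ V} → Fin (2 * C + 1),
      X C (Function.update t k (vo C k (Keys t k g l₀ V) u0)) (k + 1) p (xt l₀ W) L ≤
    2 * (Fintype.card ({e // e ∈ Keys t k g l₀ V} → Fin (2 * C + 1)) * X C t k p (xt l₀ W) L) := by
  set Ks := Keys t k g l₀ V with hKs
  obtain ⟨hL1, hLg⟩ := Finset.mem_Icc.1 hL
  have htu : ∀ u0 : {e // e ∈ Ks} → Fin (2 * C + 1), Dep (Function.update t k (vo C k Ks u0)) :=
    fun u0 => ht.update (vo_dep C k Ks u0)
  have hag : ∀ u0 : {e // e ∈ Ks} → Fin (2 * C + 1),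
      Agr k t (Function.update t k (vo C k Ks u0)) := fun u0 => agr_update t k _
  by_cases hY : Rd p.1 (xt l₀ W) L ∧ Cl t k p (xt l₀ W) L
  · obtain ⟨hRd, hCl⟩ := hY
    have hXt : X C t k p (xt l₀ W) L = (2 * C + 1) ^ coin t k p (xt l₀ W) L := by
      unfold X
      rw [if_pos ⟨hRd, hCl⟩]
    obtain ⟨a, b, hab, hbL, htrab, hinj⟩ := hKEYD w k t p (xt l₀ W) L ht ht0 hk hL1 hRd hCl
    have hkm : ∀ m, m < b → key t k p (xt l₀ W) m ∈ Ks := by
      intro m hm
      exact key_mem hp W (by omega)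
    let ky : ℕ → {e // e ∈ Ks} := fun m =>
      if h : key t k p (xt l₀ W) m ∈ Ks then ⟨_, h⟩ else ⟨_, hkm a hab⟩
    have hky : ∀ m, (h : m < b) → ky m = ⟨key t k p (xt l₀ W) m, hkm m h⟩ := by
      intro m h
      show (if h : key t k p (xt l₀ W) m ∈ Ks then (⟨_, h⟩ : {e // e ∈ Ks}) else ⟨_, hkm a hab⟩) = _
      rw [dif_pos (hkm m h)]
    have havg := avg' hAVG {e // e ∈ Ks} C a b (sgn (xt l₀ W)) ky hab
      (by intro m; unfold sgn; split_ifs <;> simp)
      (by
        intro m m' h1 h2 h3 h4 h5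
        rw [hky m h2, hky m' h4, Subtype.mk.injEq] at h5
        exact hinj m m' h1 h2 h3 h4 h5)
    set c := coin t k p (xt l₀ W) L with hc
    set N := Fintype.card ({e // e ∈ Ks} → Fin (2 * C + 1)) with hN
    set Z : ({e // e ∈ Ks} → Fin (2 * C + 1)) → Prop := fun u =>
      ∑ m ∈ Finset.Ico a b, sgn (xt l₀ W) m * ((u (ky m) : ℤ) - C) = 0 with hZ
    have hterm : ∀ u0 : {e // e ∈ Ks} → Fin (2 * C + 1),
        (2 * C + 1) * X C (Function.update t k (vo C k Ks u0)) (k + 1) p (xt l₀ W) L ≤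
          (2 * C + 1) ^ c + if Z u0 then (2 * C + 1) * (2 * C + 1) ^ c else 0 := by
      intro u0
      set t' := Function.update t k (vo C k Ks u0) with ht'
      have hcoin : coin t' k p (xt l₀ W) L = c := (agr_coin ht (htu u0) (hag u0) p _ L).symm
      have hXle : X C t' (k + 1) p (xt l₀ W) L ≤ (2 * C + 1) ^ coin t' (k + 1) p (xt l₀ W) L := by
        unfold X
        split_ifs
        · exact le_rfl
        · exact Nat.zero_le _
      by_cases hz : Z u0
      · rw [if_pos hz]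
        have h1 : X C t' (k + 1) p (xt l₀ W) L ≤ (2 * C + 1) ^ c :=
          hXle.trans (Nat.pow_le_pow_right (by omega) ((coin_le t' k p _ L).trans hcoin.le))
        exact (Nat.mul_le_mul_left _ h1).trans (Nat.le_add_left _ _)
      · rw [if_neg hz, add_zero]
        have htr' : tr k (pos t' p (xt l₀ W) a) = tr k (pos t' p (xt l₀ W) b) := by
          rw [← agr_pos ht (htu u0) (hag u0), ← agr_pos ht (htu u0) (hag u0)]
          exact htrab
        have hne : tr (k + 1) (pos t' p (xt l₀ W) a) ≠ tr (k + 1) (pos t' p (xt l₀ W) b) := by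
          intro heq
          have h1 := (tr_succ_iff.1 heq).2
          rw [telescope hKEYC p (xt l₀ W) ht (htu u0) (hag u0) hab.le] at h1
          apply hz
          have h2 : ∑ m ∈ Finset.Ico a b, sgn (xt l₀ W) m * ((u0 (ky m) : ℤ) - C) =
              ∑ m ∈ Finset.Ico a b, sgn (xt l₀ W) m *
                t' k (key t k p (xt l₀ W) m).1 (key t k p (xt l₀ W) m).2 := by
            refine Finset.sum_congr rfl fun m hm => ?_
            have hmb : m < b := (Finset.mem_Ico.1 hm).2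
            rw [ht', Function.update_self, vo_key C u0 (hkm m hmb) (key_tr _ _ _ _ _), hky m hmb]
          show ∑ m ∈ Finset.Ico a b, sgn (xt l₀ W) m * ((u0 (ky m) : ℤ) - C) = 0
          rw [h2]
          linarith
        have h3 := coin_lt hab hbL htr' hne
        rw [hcoin] at h3
        calc (2 * C + 1) * X C t' (k + 1) p (xt l₀ W) L ≤
            (2 * C + 1) * (2 * C + 1) ^ coin t' (k + 1) p (xt l₀ W) L := Nat.mul_le_mul_left _ hXle
          _ = (2 * C + 1) ^ (coin t' (k + 1) p (xt l₀ W) L + 1) := by ring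
          _ ≤ (2 * C + 1) ^ c := Nat.pow_le_pow_right (by omega) h3
    have hZN : (2 * C + 1) * (univ.filter Z).card ≤ N := by
      exact havg
    rw [hXt, Finset.mul_sum]
    calc ∑ u0 : {e // e ∈ Ks} → Fin (2 * C + 1),
          (2 * C + 1) * X C (Function.update t k (vo C k Ks u0)) (k + 1) p (xt l₀ W) L
        ≤ ∑ u0 : {e // e ∈ Ks} → Fin (2 * C + 1),
          ((2 * C + 1) ^ c + if Z u0 then (2 * C + 1) * (2 * C + 1) ^ c else 0) :=
          Finset.sum_le_sum fun u0 _ => hterm u0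
      _ = N * (2 * C + 1) ^ c + (univ.filter Z).card * ((2 * C + 1) * (2 * C + 1) ^ c) := by
          rw [Finset.sum_add_distrib, Finset.sum_const, Finset.card_univ, smul_eq_mul,
            ← Finset.sum_filter, Finset.sum_const, smul_eq_mul]
      _ = N * (2 * C + 1) ^ c + ((2 * C + 1) * (univ.filter Z).card) * (2 * C + 1) ^ c := by ring
      _ ≤ N * (2 * C + 1) ^ c + N * (2 * C + 1) ^ c :=
          Nat.add_le_add_left (Nat.mul_le_mul_right _ hZN) _
      _ = 2 * (N * (2 * C + 1) ^ c) := by ring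
  · have h0 : ∀ u0 : {e // e ∈ Ks} → Fin (2 * C + 1),
        X C (Function.update t k (vo C k Ks u0)) (k + 1) p (xt l₀ W) L = 0 := by
      intro u0
      unfold X
      rw [if_neg]
      rintro ⟨h1, h2⟩
      apply hY
      refine ⟨h1, ?_⟩
      rw [agr_Cl ht (htu u0) (hag u0)]
      exact tr_mono (Nat.le_succ k) h2
    rw [Finset.sum_eq_zero (fun u0 _ => h0 u0)]
    simp

theorem Pot_eq (C g : ℕ) (l₀ : Fin w × Bool) (V : Finset (Pt w)) (t : Volt w) (k : ℕ) :
    Pot C g l₀ V t k = ∑ L ∈ Finset.Icc 1 g, ∑ W : Fin g → Fin w × Bool, ∑ p ∈ V,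
      X C t k p (xt l₀ W) L := by
  unfold Pot X
  rfl

end GSTEP

theorem GSTEP (hKEYC : KEYC_stmt) (hKEYD : KEYD_stmt) (hAVG : AVG_stmt) : GSTEP_stmt := by
  intro w C g k l₀ V t hk ht ht0
  by_contra hcon
  push Not at hcon
  set Ks := GSTEP.Keys t k g l₀ V with hKs
  have hlt : ∀ u0 : {e // e ∈ Ks} → Fin (2 * C + 1), 2 * Pot C g l₀ V t k + 1 ≤
      (2 * C + 1) * Pot C g l₀ V (Function.update t k (GSTEP.vo C k Ks u0)) (k + 1) :=
    fun u0 => hcon _ (GSTEP.vo_bdd C k Ks u0) (GSTEP.vo_dep C k Ks u0)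
  have hsum : (2 * C + 1) * ∑ u0 : {e // e ∈ Ks} → Fin (2 * C + 1),
      Pot C g l₀ V (Function.update t k (GSTEP.vo C k Ks u0)) (k + 1) ≤
      2 * (Fintype.card ({e // e ∈ Ks} → Fin (2 * C + 1)) * Pot C g l₀ V t k) := by
    rw [GSTEP.Pot_eq C g l₀ V t k, Finset.sum_congr rfl (fun u0 _ => GSTEP.Pot_eq C g l₀ V
      (Function.update t k (GSTEP.vo C k Ks u0)) (k + 1))]
    rw [Finset.sum_comm, Finset.mul_sum, Finset.mul_sum, Finset.mul_sum]
    refine Finset.sum_le_sum fun L hL => ?_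
    rw [Finset.sum_comm, Finset.mul_sum, Finset.mul_sum, Finset.mul_sum]
    refine Finset.sum_le_sum fun W _ => ?_
    rw [Finset.sum_comm, Finset.mul_sum, Finset.mul_sum, Finset.mul_sum]
    refine Finset.sum_le_sum fun p hp => ?_
    exact GSTEP.claim hKEYC hKEYD hAVG hk ht ht0 hL W hp
  have hsum2 : Fintype.card ({e // e ∈ Ks} → Fin (2 * C + 1)) * (2 * Pot C g l₀ V t k + 1) ≤
      (2 * C + 1) * ∑ u0 : {e // e ∈ Ks} → Fin (2 * C + 1),
      Pot C g l₀ V (Function.update t k (GSTEP.vo C k Ks u0)) (k + 1) := by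
    rw [Finset.mul_sum]
    have := Finset.sum_le_sum (s := (univ : Finset ({e // e ∈ Ks} → Fin (2 * C + 1))))
      (fun u0 _ => hlt u0)
    rw [Finset.sum_const, Finset.card_univ, smul_eq_mul] at this
    exact this
  have hN : 0 < Fintype.card ({e // e ∈ Ks} → Fin (2 * C + 1)) := Fintype.card_pos
  have h3 := hsum2.trans hsum
  have h4 : Fintype.card ({e // e ∈ Ks} → Fin (2 * C + 1)) * (2 * Pot C g l₀ V t k + 1) =
    2 * (Fintype.card ({e // e ∈ Ks} → Fin (2 * C + 1)) * Pot C g l₀ V t k) +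
      Fintype.card ({e // e ∈ Ks} → Fin (2 * C + 1)) := by ring
  omega

end BDim
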