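import Pool.Agent.Lib_MP_0cf6e1_co.Stmts

/-!
# MP_0cf6e1_co, piece HALF (about 70 lines)

Map x in ball n (4R) to y m = Int.tdiv (x m) 2 (truncation towards 0): 4 (y m)^2 <= (x m)^2, so y in ball n R.  Each y has at most 3^n
preimages: x m - 2 y m is in {-1, 0, 1} for m < n and x m = 0 for m >= n; so x is determined by y and the function
m -> x m - 2 y m + 1 in Fin 3 (m : Fin n).  E.g. injective map from ball n (4R) to ball n R x (Fin n -> Fin 3).
-/

namespace BDim

open Finset
open scoped Classical

theorem HALF : HALF_stmt := by
  sorry

end BDim
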