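import Pool.Agent.Lib_MP_0cf6e1_co.Stmts

/-!
# MP_0cf6e1_co, piece HOM (about 120 lines)

Let q = card of the type of colours K = (Fin d -> (V x Bool) -> (V x Bool) -> Bool) (Fintype), N from hRAM q 3 (N >= 3 >= 1).
Given BR (MLt F N) d with L, tau; colour a pair (z,z') by k, (v,a), (v',b) -> decide (L k (v, z_a) (v', z_b)) where z_false = z,
z_true = z' (equivalence K = Fin q by Fintype.equivFin).  hRAM gives f : Fin 3 -> Fin N strictly increasing, homogeneous.
L'_k (v,i) (v',j) := L k (v, f i) (v', f j) is a strict total order on V x Fin 3 (f injective) satisfying the hypothesis of hPREO: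
(homogeneous colours), so we get r k, sg k.  Hom: bp r sg v v' = fun k => L k (v, f 0) (v', f 1) and
bm r sg v v' = fun k => L k (v, f 1) (v', f 0) (funext, propext).  Since (v, f 0) != (v', f 1):
tau (bp v v') <-> MLt F N (v, f 0) (v', f 1) <-> (v = v' or F.lt v v')   (f 0 < f 1; if F.lt v v' then v != v' by irr; the condition
E -> f 0 <= f 1 is true), tau (bm v v') <-> MLt F N (v, f 1) (v', f 0) <-> F.lt v v' and not F.E v v'  (for v = v': f 1 < f 0 false
and F.lt v v false).
-/

namespace BDim

open Finset
open scoped Classical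

theorem HOM (hRAM : RAM_stmt) (hPREO : PREO_stmt) : HOM_stmt := by
  sorry

end BDim
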