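import Pool.Agent.Lib_MP_0cf6e1_co.Stmts

/-!
# MP_0cf6e1_co, piece KEYC (about 40 lines)

Cases on (W m).2.  true: pos t' (m+1) = up t' (W m).1 P with P = pos t' p W m; coordinate k is P.2 k + t' k P j and
t' k P j = t' k (tr k (pos t p W m)) j because tr k P = tr k (pos t p W m) (agr_pos, symmetric use) and Dep t', tr_idem.
false: pos t' (m+1) = dn t' j P, dn_snd: coordinate k is P.2 k - t' k (tr k (dn t' j P)) P.1, and tr k (dn t' j P) =
tr k (pos t' p W (m+1)) = tr k (pos t p W (m+1)) by agr_pos, P.1 = (pos t p W m).1 by pos_fst.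
-/

namespace BDim

open Finset
open scoped Classical

theorem KEYC : KEYC_stmt := by
  sorry

end BDim
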