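import Pool.Agent.Lib_MP_0cf6e1_co.Stmts

/-!
# MP_0cf6e1_co, piece KEYD (about 120 lines)

Write P m = tr k (pos t p W m).  Since P 0 = P L and 1 <= L there are pairs a < b <= L with P a = P b; choose one with b - a minimal.
Then P a, ..., P (b-1) are pairwise different (a smaller pair otherwise), and for a < m' < b also P m' != P b = P a.
b - a >= 3: b = a+1 is impossible because the chain changes (Rd, first part; (P m).1 = chn p.1 W m by pos_fst and tr_fst).
b = a + 2: coordinate 0 (k >= 1, tr_eq_iff) changes by +1 for an up step and -1 for a down step (t 0 = 1, up_snd', dn_snd), so the two
steps a, a+1 have opposite directions: (W (a+1)).2 = !(W a).2, and the chains of P a and P (a+2) agree: contradiction with the second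
part of Rd (a + 1 < L).
Distinct keys: key m gives the lower end (truncated at level k) and the chain of the upper end of the edge between P m and P (m+1);
the upper end truncated is tr k (up t (key m).2 (key m).1), so key m determines the unordered pair {P m, P (m+1)} (use mv/up_dn).
If key m = key m' with m < m' in [a,b): P m = P m' is impossible, so P m = P (m'+1) and P (m+1) = P m'; the second gives m+1 = m'
(both in (a,b) ... m+1 <= m' <= b-1), the first then gives P m = P (m+2), so m + 2 = b and m = a (otherwise a smaller pair), i.e.
b = a + 2, excluded.
-/

namespace BDim

open Finset
open scoped Classical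

theorem KEYD : KEYD_stmt := by
  sorry

end BDim
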