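import Pool.Agent.Lib_MP_0cf6e1_co.Stmts

/-!
# MP_0cf6e1_co, piece MOMENT (about 130 lines)

Expand the square: sum over x of sum over j,k of x j s_j(x) x k s_k(x).  Off-diagonal terms vanish: for j < k the involution
x -> x with the coordinate k negated (Function.update x k (- x k)) maps ball n R to itself, does not change x j, s_j(x), s_k(x) (they
depend only on the coordinates < k), so the sum of x j s_j(x) x k s_k(x) over the ball equals its negative (Finset.sum_involution or
sum_bij + linarith).  Diagonal: sum over x, k of (x k)^2 (s_k(x))^2 <= C^2 sum over x of sum over k of (x k)^2 <= C^2 R card.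
mem_ball is in Basic.lean.
-/

namespace BDim

open Finset
open scoped Classical

theorem MOMENT : MOMENT_stmt := by
  sorry

end BDim
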