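import Pool.Agent.Lib_MP_0cf6e1_co.Stmts

/-!
# MP_0cf6e1_co, piece MOORE

Graphs without short cycles are locally sparse: if the graph `G = fromRel ar` (`ar` asymmetric) has
no cycle of length at most `2 r + 2`, then every set `A` with fewer than `(1 + η) ^ r` points spans
at most `(1 + η) |A|` edges.

Proof.  Take `A' ⊆ A` minimal with more than `(1 + η) |A'|` edges; then every nonempty `T ⊆ A'` is
touched by more than `(1 + η) |T|` edges of `A'`.  In the graph `H` of the edges inside `A'` two
paths with the same ends and total length at most `2 r + 2` are equal (`short_unique`).  Hence the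
edges touching the ball `B_i` (`i ≤ r`) of a point `v` are mapped injectively to `B_(i+1) \ {v}` by
the farther end, so `|B_(i+1)| > (1 + η) |B_i|` and `|A| ≥ |B_r| ≥ (1 + η) ^ r`.
-/

namespace BDim

open Finset
open scoped Classical

namespace MOORE

variable {α : Type}

/-- Two paths with the same ends of small total length are equal. -/
theorem short_unique {H : SimpleGraph α} {R : ℕ}
    (hH : ∀ (v : α) (c : H.Walk v v), c.IsCycle → R < c.length) {u v : α}
    (p q : H.Walk u v) (hp : p.IsPath) (hq : q.IsPath) (hl : p.length + q.length ≤ R) : p = q := by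
  set K : SimpleGraph α := SimpleGraph.fromEdgeSet {e | e ∈ p.edges ∨ e ∈ q.edges} with hK
  have hpK : ∀ e, e ∈ p.edges → e ∈ K.edgeSet := by
    intro e he
    rw [hK, SimpleGraph.edgeSet_fromEdgeSet]
    exact ⟨Or.inl he, fun hd => (SimpleGraph.not_isDiag_of_mem_edgeSet H
      (p.edges_subset_edgeSet he)) hd⟩
  have hqK : ∀ e, e ∈ q.edges → e ∈ K.edgeSet := by
    intro e he
    rw [hK, SimpleGraph.edgeSet_fromEdgeSet]
    exact ⟨Or.inr he, fun hd => (SimpleGraph.not_isDiag_of_mem_edgeSet H
      (q.edges_subset_edgeSet he)) hd⟩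
  have hKe : ∀ e ∈ K.edgeSet, e ∈ p.edges ∨ e ∈ q.edges := by
    intro e he
    rw [hK, SimpleGraph.edgeSet_fromEdgeSet] at he
    exact he.1
  have hKH : K ≤ H := by
    intro a b hab
    have := hKe s(a, b) hab
    rcases this with h | h
    · exact p.edges_subset_edgeSet h
    · exact q.edges_subset_edgeSet h
  have hac : K.IsAcyclic := by
    intro a c hc
    have h1 := hH a (c.mapLe hKH) (hc.mapLe hKH)
    rw [SimpleGraph.Walk.length_mapLe] at h1
    have h2 : c.edges ⊆ p.edges ++ q.edges := by
      intro e he
      rw [List.mem_append]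
      exact hKe e (c.edges_subset_edgeSet he)
    have h3 := (hc.isTrail.edges_nodup.subperm h2).length_le
    rw [List.length_append, SimpleGraph.Walk.length_edges, SimpleGraph.Walk.length_edges,
      SimpleGraph.Walk.length_edges] at h3
    omega
  have h1 := hac.path_unique ⟨p.transfer K hpK, hp.transfer hpK⟩
    ⟨q.transfer K hqK, hq.transfer hqK⟩
  have h2 : p.transfer K hpK = q.transfer K hqK := congrArg Subtype.val h1
  have h3 : (p.transfer K hpK).transfer H (by
      intro e he; rw [SimpleGraph.Walk.edges_transfer] at he; exact p.edges_subset_edgeSet he) =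
      (q.transfer K hqK).transfer H (by
      intro e he; rw [SimpleGraph.Walk.edges_transfer] at he; exact q.edges_subset_edgeSet he) := by
    congr 1
  rw [SimpleGraph.Walk.transfer_transfer, SimpleGraph.Walk.transfer_transfer,
    SimpleGraph.Walk.transfer_self, SimpleGraph.Walk.transfer_self] at h3
  exact h3

/-- Adjacent vertices at small distance have different distances. -/
theorem dist_ne {H : SimpleGraph α} {R : ℕ}
    (hH : ∀ (v : α) (c : H.Walk v v), c.IsCycle → R < c.length) {v x y : α}
    (hx : H.Reachable v x) (hxy : H.Adj x y) (hd : H.dist v x = H.dist v y)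
    (hR : 2 * H.dist v x + 1 ≤ R) : False := by
  have hy : H.Reachable v y := hx.trans hxy.reachable
  obtain ⟨p, hp, hpl⟩ := hx.exists_path_of_dist
  obtain ⟨q, hq, hql⟩ := hy.exists_path_of_dist
  have hns : y ∉ p.support := by
    intro hm
    have h1 := SimpleGraph.Walk.length_takeUntil_lt_length hm hxy.ne'
    have h2 := SimpleGraph.dist_le (p.takeUntil y hm)
    omega
  have h3 := short_unique hH (p.concat hxy) q (hp.concat hns hxy) hq (by
    rw [SimpleGraph.Walk.length_concat]; omega)
  have h4 := congrArg SimpleGraph.Walk.length h3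
  rw [SimpleGraph.Walk.length_concat] at h4
  omega

/-- The neighbour at smaller distance is unique. -/
theorem par_unique {H : SimpleGraph α} {R : ℕ}
    (hH : ∀ (v : α) (c : H.Walk v v), c.IsCycle → R < c.length) {v x y z : α}
    (hy : H.Reachable v y) (hyx : H.Adj y x) (hz : H.Reachable v z) (hzx : H.Adj z x)
    (hdy : H.dist v x = H.dist v y + 1) (hdz : H.dist v x = H.dist v z + 1)
    (hR : 2 * H.dist v x ≤ R) : y = z := by
  obtain ⟨p, hp, hpl⟩ := hy.exists_path_of_dist
  obtain ⟨q, hq, hql⟩ := hz.exists_path_of_dist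
  have hns : x ∉ p.support := by
    intro hm
    have h1 := p.length_takeUntil_le_length hm
    have h2 := SimpleGraph.dist_le (p.takeUntil x hm)
    omega
  have hns' : x ∉ q.support := by
    intro hm
    have h1 := q.length_takeUntil_le_length hm
    have h2 := SimpleGraph.dist_le (q.takeUntil x hm)
    omega
  have h3 := short_unique hH (p.concat hyx) (q.concat hzx) (hp.concat hns hyx)
    (hq.concat hns' hzx) (by
      rw [SimpleGraph.Walk.length_concat, SimpleGraph.Walk.length_concat]; omega)
  obtain ⟨hv, -⟩ := SimpleGraph.Walk.concat_inj h3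
  exact hv

theorem dist_succ {H : SimpleGraph α} {v x y : α} (hx : H.Reachable v x) (hxy : H.Adj x y) :
    H.dist v y ≤ H.dist v x + 1 := by
  obtain ⟨p, -, hpl⟩ := hx.exists_path_of_dist
  have := SimpleGraph.dist_le (p.concat hxy)
  rw [SimpleGraph.Walk.length_concat] at this
  omega

end MOORE

open MOORE in
theorem MOORE : MOORE_stmt := by
  intro α ar A r η hη hasym hcyc hA
  by_contra hcon
  push Not at hcon
  -- number of pairs inside a set
  set e : Finset α → ℕ := fun X => ((X ×ˢ X).filter (fun e => ar e.1 e.2)).card with he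
  have hne : (A.powerset.filter (fun X => (1 + η) * (X.card : ℝ) < (e X : ℝ))).Nonempty :=
    ⟨A, by rw [mem_filter]; exact ⟨mem_powerset_self A, hcon⟩⟩
  obtain ⟨A', hA', hmin⟩ := Finset.exists_min_image _ (fun X : Finset α => X.card) hne
  rw [mem_filter, mem_powerset] at hA'
  obtain ⟨hsub, hbig⟩ := hA'
  have hirr : ∀ u, ¬ ar u u := fun u h => hasym u u h h
  -- touched pairs
  set tch : Finset α → Finset (α × α) := fun T =>
    (A' ×ˢ A').filter (fun e => ar e.1 e.2 ∧ (e.1 ∈ T ∨ e.2 ∈ T)) with htch
  have htouch : ∀ T : Finset α, T ⊆ A' → T.Nonempty →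
      (1 + η) * (T.card : ℝ) < ((tch T).card : ℝ) := by
    intro T hT hTn
    have h1 : (e (A' \ T) : ℝ) ≤ (1 + η) * ((A' \ T).card : ℝ) := by
      by_contra h
      push Not at h
      have h2 := hmin (A' \ T) (by
        rw [mem_filter, mem_powerset]
        exact ⟨sdiff_subset.trans hsub, h⟩)
      have h3 : (A' \ T).card < A'.card := by
        rw [card_sdiff_of_subset hT]
        have := card_le_card hT
        have := hTn.card_pos
        omega
      omega
    have h4 : e A' = e (A' \ T) + (tch T).card := by
      have h5 := Finset.card_filter_add_card_filter_not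
        (s := (A' ×ˢ A').filter (fun e => ar e.1 e.2)) (fun e : α × α => e.1 ∉ T ∧ e.2 ∉ T)
      rw [he, htch]
      simp only
      rw [← h5]
      congr 2
      · ext ⟨a, b⟩
        simp only [mem_filter, mem_product, mem_sdiff]
        tauto
      · ext ⟨a, b⟩
        simp only [mem_filter, mem_product]
        tauto
    have h6 : ((A' \ T).card : ℝ) = A'.card - T.card := by
      rw [card_sdiff_of_subset hT, Nat.cast_sub (card_le_card hT)]
    have h7 : (e A' : ℝ) = e (A' \ T) + (tch T).card := by exact_mod_cast h4
    rw [h6] at h1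
    nlinarith
  -- a vertex
  have hAne : A'.Nonempty := by
    rw [nonempty_iff_ne_empty]
    rintro rfl
    simp [he] at hbig
  obtain ⟨v, hv⟩ := hAne
  -- the graph of the edges inside A'
  set H : SimpleGraph α :=
    { Adj := fun a b => a ∈ A' ∧ b ∈ A' ∧ (SimpleGraph.fromRel ar).Adj a b
      symm := ⟨fun a b h => ⟨h.2.1, h.1, h.2.2.symm⟩⟩
      loopless := ⟨fun a h => h.2.2.ne rfl⟩ } with hHdef
  have hHG : H ≤ SimpleGraph.fromRel ar := fun a b h => h.2.2
  have hH : ∀ (v : α) (c : H.Walk v v), c.IsCycle → 2 * r + 2 < c.length := by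
    intro v c hc
    have := hcyc v (c.mapLe hHG) (hc.mapLe hHG)
    rwa [SimpleGraph.Walk.length_mapLe] at this
  have hadj : ∀ a b, a ∈ A' → b ∈ A' → ar a b → H.Adj a b := by
    intro a b ha hb hab
    refine ⟨ha, hb, ?_⟩
    rw [SimpleGraph.fromRel_adj]
    exact ⟨fun h => hirr b (h ▸ hab), Or.inl hab⟩
  set B : ℕ → Finset α := fun i => A'.filter (fun x => H.Reachable v x ∧ H.dist v x ≤ i) with hB
  have hstep : ∀ i, i ≤ r → (tch (B i)).card + 1 ≤ (B (i + 1)).card := by
    intro i hi
    -- the farther end
    set f : α × α → α := fun e => if H.dist v e.1 < H.dist v e.2 then e.2 else e.1 with hf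
    have key : ∀ e ∈ tch (B i), ∃ x y : α, f e = x ∧ x ∈ A' ∧ y ∈ A' ∧ H.Reachable v x ∧
        H.Reachable v y ∧ H.Adj y x ∧ H.dist v x = H.dist v y + 1 ∧ H.dist v x ≤ i + 1 ∧
        ((e.1 = x ∧ e.2 = y) ∨ (e.1 = y ∧ e.2 = x)) := by
      rintro ⟨a, b⟩ hab
      rw [htch] at hab
      simp only [mem_filter, mem_product] at hab
      obtain ⟨⟨haA, hbA⟩, hab, hor⟩ := hab
      have hadjab := hadj a b haA hbA hab
      have hreach : H.Reachable v a ∧ H.Reachable v b := by
        rcases hor with h | h
        · rw [hB] at h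
          simp only [mem_filter] at h
          exact ⟨h.2.1, h.2.1.trans hadjab.reachable⟩
        · rw [hB] at h
          simp only [mem_filter] at h
          exact ⟨h.2.1.trans hadjab.symm.reachable, h.2.1⟩
      have h1 := dist_succ hreach.1 hadjab
      have h2 := dist_succ hreach.2 hadjab.symm
      have hmini : H.dist v a ≤ i ∨ H.dist v b ≤ i := by
        rcases hor with h | h
        · rw [hB] at h
          simp only [mem_filter] at h
          exact Or.inl h.2.2
        · rw [hB] at h
          simp only [mem_filter] at h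
          exact Or.inr h.2.2
      have hne' : H.dist v a ≠ H.dist v b := by
        intro h
        exact dist_ne hH hreach.1 hadjab h (by omega)
      by_cases hlt : H.dist v a < H.dist v b
      · refine ⟨b, a, ?_, hbA, haA, hreach.2, hreach.1, hadjab, by omega, by omega,
          Or.inr ⟨rfl, rfl⟩⟩
        rw [hf]; simp only [hlt, if_true]
      · refine ⟨a, b, ?_, haA, hbA, hreach.1, hreach.2, hadjab.symm, by omega, by omega,
          Or.inl ⟨rfl, rfl⟩⟩
        rw [hf]; simp only [hlt, if_false]
    have hmaps : ∀ e ∈ tch (B i), f e ∈ (B (i + 1)).erase v := by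
      intro e he'
      obtain ⟨x, y, hfx, hxA, -, hrx, -, -, hd, hdi, -⟩ := key e he'
      rw [hfx, mem_erase, hB]
      simp only [mem_filter]
      refine ⟨?_, hxA, hrx, hdi⟩
      rintro rfl
      rw [SimpleGraph.dist_self] at hd
      omega
    have hinj : Set.InjOn f (tch (B i) : Set (α × α)) := by
      intro e1 h1 e2 h2 hfe
      have hm1 := h1
      have hm2 := h2
      rw [htch] at hm1 hm2
      simp only [coe_filter, mem_product, Set.mem_setOf_eq] at hm1 hm2
      obtain ⟨x, y, hfx, hxA, -, hrx, hry, hyx, hd, hdi, hor⟩ := key e1 h1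
      obtain ⟨x', y', hfx', hxA', -, hrx', hry', hyx', hd', hdi', hor'⟩ := key e2 h2
      have hxx : x = x' := by rw [← hfx, ← hfx', hfe]
      subst hxx
      have hyy : y = y' := par_unique hH hry hyx hry' hyx' hd hd' (by omega)
      subst hyy
      rcases hor with ⟨ha, hb⟩ | ⟨ha, hb⟩ <;> rcases hor' with ⟨ha', hb'⟩ | ⟨ha', hb'⟩
      · exact Prod.ext (ha.trans ha'.symm) (hb.trans hb'.symm)
      · exfalso
        have c1 := hm1.2.1
        have c2 := hm2.2.1
        rw [ha, hb] at c1
        rw [ha', hb'] at c2
        exact hasym _ _ c1 c2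
      · exfalso
        have c1 := hm1.2.1
        have c2 := hm2.2.1
        rw [ha, hb] at c1
        rw [ha', hb'] at c2
        exact hasym _ _ c1 c2
      · exact Prod.ext (ha.trans ha'.symm) (hb.trans hb'.symm)
    have h1 := Finset.card_le_card_of_injOn f hmaps hinj
    have hvB : v ∈ B (i + 1) := by
      rw [hB]
      simp only [mem_filter]
      exact ⟨hv, SimpleGraph.Reachable.refl v, by rw [SimpleGraph.dist_self]; omega⟩
    rw [card_erase_of_mem hvB] at h1
    have := card_pos.2 ⟨v, hvB⟩
    omega
  have hgrow : ∀ i, i ≤ r → (1 + η) ^ i ≤ ((B i).card : ℝ) := by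
    intro i
    induction i with
    | zero =>
      intro _
      have hv0 : v ∈ B 0 := by
        rw [hB]
        simp only [mem_filter]
        exact ⟨hv, SimpleGraph.Reachable.refl v, by rw [SimpleGraph.dist_self]⟩
      have := card_pos.2 ⟨v, hv0⟩
      rw [pow_zero]
      exact_mod_cast this
    | succ i ih =>
      intro hi
      have h1 := ih (by omega)
      have h2 := hstep i (by omega)
      have hvi : v ∈ B i := by
        rw [hB]
        simp only [mem_filter]
        exact ⟨hv, SimpleGraph.Reachable.refl v, by rw [SimpleGraph.dist_self]; omega⟩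
      have h3 := htouch (B i) (filter_subset _ _) ⟨v, hvi⟩
      have h4 : ((tch (B i)).card : ℝ) + 1 ≤ (B (i + 1)).card := by exact_mod_cast h2
      rw [pow_succ]
      nlinarith
  have h1 := hgrow r le_rfl
  have h2 : ((B r).card : ℝ) ≤ A.card := by
    exact_mod_cast card_le_card ((filter_subset _ _).trans hsub)
  linarith

end BDim
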