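import Pool.Agent.Lib_MP_0cf6e1_co.Stmts

/-!
# MP_0cf6e1_co, piece MORD (about 80 lines)

MLt is a strict order: irreflexive (a.2 < a.2 false, F.irr), transitive: cases.  (lt, lt): F.lt a c by trans and F.E a c is impossible by
F.cover a c b.  (eq, lt): F.E a c -> a.2 < b.2 <= c.2.  (lt, eq), (eq, eq) similar.
Width at most w: the map a -> F.ch a.1 is injective on an antichain: if a != b have the same chain: if a.1 = b.1 then a.2, b.2 are
comparable; otherwise F.comp gives F.lt a.1 b.1 or the converse, and F.E a.1 b.1 is false by F.Ech; so MLt a b or MLt b a.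
Last part: s = image of i -> (a i, 0) (1 <= N).
-/

namespace BDim

open Finset
open scoped Classical

theorem MORD : MORD_stmt := by
  sorry

end BDim
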