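import Pool.Agent.Lib_MP_0cf6e1_co.Stmts

/-!
# MP_0cf6e1_co, piece NUM (about 220 lines)

Take r large and k0 = r^3 = M, n = M^2, a0 = r^9, m = floor( X / (8 w) ) where X = (c' sqrt(n - k0))^(n-k0), c' = the constant
((1/(4w) - 1/(8w))/(1 + 1/(4w)) / sqrt (8w)) > 0.
-/

namespace BDim

open Finset
open scoped Classical

namespace NUM

/-- polynomial against exponential -/
theorem ev_pow (k : ℕ) {b : ℝ} (hb : 1 < b) (A : ℝ) :
    ∀ᶠ r : ℕ in Filter.atTop, A * (r : ℝ) ^ k < b ^ r := by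
  have h1 := (tendsto_pow_const_div_const_pow_of_one_lt k hb).const_mul A
  rw [mul_zero] at h1
  filter_upwards [h1.eventually_lt_const (by norm_num : (0 : ℝ) < 1)] with r hr
  have hb0 : 0 < b ^ r := by positivity
  rw [← mul_div_assoc, div_lt_one hb0] at hr
  exact hr

/-- the third condition -/
theorem cond3 {w C r : ℕ} (hC : 1 ≤ C) (hr : 20 ≤ r) (hw : 4 * w ≤ r) :
    32 * 2 ^ (r ^ 3 - 1) * ((2 * r + 2) * (2 * w) ^ (2 * r + 2) * (2 * C + 1) ^ ((2 * r + 3) ^ 2)) ≤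
      (2 * C + 1) ^ (r ^ 3 - 1) := by
  obtain ⟨b, hb⟩ : ∃ b, b = 2 * C + 1 := ⟨_, rfl⟩
  rw [← hb]
  have hb3 : 3 ≤ b := by omega
  have hb1 : 1 ≤ b := by omega
  obtain ⟨N, hN⟩ : ∃ N, N = r ^ 3 - 1 := ⟨_, rfl⟩
  rw [← hN]
  obtain ⟨M, hM⟩ : ∃ M, M = N / 3 := ⟨_, rfl⟩
  have hM3 : 3 * M ≤ N := by omega
  -- the power of two
  have h8 : 8 * b ≤ b ^ 3 := by
    have h9 : 8 ≤ b * b := by nlinarith
    calc 8 * b ≤ b * b * b := Nat.mul_le_mul h9 le_rfl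
      _ = b ^ 3 := by ring
  have hA : 2 ^ N * b ^ M ≤ b ^ N := by
    have h1 : N = (N - 3 * M) + 3 * M := by omega
    have h2 : 2 ^ N = 2 ^ (N - 3 * M) * 8 ^ M := by
      conv_lhs => rw [h1]
      rw [pow_add, pow_mul]
      norm_num
    have h3 : b ^ N = b ^ (N - 3 * M) * (b ^ 3) ^ M := by
      conv_lhs => rw [h1]
      rw [pow_add, pow_mul]
    rw [h2, h3, mul_assoc, ← mul_pow]
    exact Nat.mul_le_mul (Nat.pow_le_pow_left (by omega) _) (Nat.pow_le_pow_left h8 _)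
  have hB : 32 * ((2 * r + 2) * (2 * w) ^ (2 * r + 2) * b ^ ((2 * r + 3) ^ 2)) ≤ b ^ M := by
    have h32 : 32 ≤ b ^ 5 := by
      calc 32 ≤ 3 ^ 5 := by norm_num
        _ ≤ b ^ 5 := Nat.pow_le_pow_left hb3 5
    have hlt : ∀ x : ℕ, x ≤ b ^ x := fun x => (Nat.lt_pow_self (by omega)).le
    have h2 : (2 * w) ^ (2 * r + 2) ≤ b ^ (2 * w * (2 * r + 2)) := by
      rw [pow_mul]
      exact Nat.pow_le_pow_left (hlt _) _
    calc 32 * ((2 * r + 2) * (2 * w) ^ (2 * r + 2) * b ^ ((2 * r + 3) ^ 2)) ≤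
          b ^ 5 * (b ^ (2 * r + 2) * b ^ (2 * w * (2 * r + 2)) * b ^ ((2 * r + 3) ^ 2)) :=
            Nat.mul_le_mul h32 (Nat.mul_le_mul (Nat.mul_le_mul (hlt _) h2) le_rfl)
      _ = b ^ (5 + ((2 * r + 2) + 2 * w * (2 * r + 2) + (2 * r + 3) ^ 2)) := by
            rw [← pow_add, ← pow_add, ← pow_add]
      _ ≤ b ^ M := by
            apply Nat.pow_le_pow_right hb1
            have h3 : 2 * w * (2 * r + 2) ≤ r * (r + 1) := by
              calc 2 * w * (2 * r + 2) = 4 * w * (r + 1) := by ring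
                _ ≤ r * (r + 1) := Nat.mul_le_mul hw le_rfl
            have h4 : 3 * (5 + ((2 * r + 2) + r * (r + 1) + (2 * r + 3) ^ 2)) + 3 ≤ r ^ 3 - 1 := by
              have h5 : 3 * (5 + ((2 * r + 2) + r * (r + 1) + (2 * r + 3) ^ 2)) + 3 + 1 ≤ r ^ 3 := by
                nlinarith
              omega
            omega
  calc 32 * 2 ^ N * ((2 * r + 2) * (2 * w) ^ (2 * r + 2) * b ^ ((2 * r + 3) ^ 2)) =
        2 ^ N * (32 * ((2 * r + 2) * (2 * w) ^ (2 * r + 2) * b ^ ((2 * r + 3) ^ 2))) := by ring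
    _ ≤ 2 ^ N * b ^ M := Nat.mul_le_mul le_rfl hB
    _ ≤ b ^ N := hA

/-- the last condition, abstractly -/
theorem cond5 {w P : ℕ} {X Y G m : ℝ} (hw : 3 ≤ w) (hG : 2 ≤ G)
    (hX : (G ^ (2 * w)) ^ P ≤ X) (hY0 : 0 ≤ Y) (hY : Y ≤ G ^ P * X) (hP : 34 * (w : ℝ) ^ 2 ≤ 2 ^ P)
    (hm : X / (16 * w) ≤ m) :
    (w : ℝ) ^ 2 * (2 * (w * Y / m + 1)) ^ (w - 2) ≤ m / 2 := by
  have hw3 : (3 : ℝ) ≤ w := by exact_mod_cast hw
  have hw0 : (0 : ℝ) < w := by linarith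
  have hG0 : 0 < G := by linarith
  have hG1 : 1 ≤ G := by linarith
  have hX0 : 0 < X := lt_of_lt_of_le (by positivity) hX
  have hm0 : 0 < m := lt_of_lt_of_le (by positivity) hm
  have hGP : 2 ^ P ≤ G ^ P := pow_le_pow_left₀ (by norm_num) hG P
  have hGP1 : 34 * (w : ℝ) ^ 2 ≤ G ^ P := hP.trans hGP
  have hGP0 : 0 < G ^ P := by positivity
  have h1 : w * Y / m ≤ 16 * (w : ℝ) ^ 2 * G ^ P := by
    rw [div_le_iff₀ hm0]
    calc w * Y ≤ w * (G ^ P * X) := by gcongr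
      _ = 16 * (w : ℝ) ^ 2 * G ^ P * (X / (16 * w)) := by field_simp
      _ ≤ 16 * (w : ℝ) ^ 2 * G ^ P * m := by gcongr
  have h2 : 2 * (w * Y / m + 1) ≤ G ^ (2 * P) := by
    have h3 : (1 : ℝ) ≤ (w : ℝ) ^ 2 * G ^ P := by
      have h4 : (1 : ℝ) ≤ (w : ℝ) ^ 2 := by nlinarith
      have h5 : (1 : ℝ) ≤ G ^ P := one_le_pow₀ hG1
      nlinarith
    calc 2 * (w * Y / m + 1) ≤ 34 * (w : ℝ) ^ 2 * G ^ P := by nlinarith
      _ ≤ G ^ P * G ^ P := by gcongr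
      _ = G ^ (2 * P) := by rw [two_mul, pow_add]
  have h0 : 0 ≤ 2 * (w * Y / m + 1) := by positivity
  have h3 : (2 * (w * Y / m + 1)) ^ (w - 2) ≤ (G ^ (2 * P)) ^ (w - 2) := pow_le_pow_left₀ h0 h2 _
  have h4 : (w : ℝ) ^ 2 * (G ^ (2 * P)) ^ (w - 2) * (32 * w) ≤ X := by
    refine le_trans ?_ hX
    have h5 : (G ^ (2 * w)) ^ P = (G ^ (2 * P)) ^ (w - 2) * (G ^ P) ^ 4 := by
      rw [← pow_mul, ← pow_mul, ← pow_mul, ← pow_add]
      congr 1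
      obtain ⟨v, rfl⟩ : ∃ v, w = v + 2 := ⟨w - 2, by omega⟩
      rw [Nat.add_sub_cancel]
      ring
    rw [h5]
    have h6 : (w : ℝ) ^ 2 * (32 * w) ≤ (G ^ P) ^ 4 := by
      have h7 : (34 * (w : ℝ) ^ 2) ^ 4 ≤ (G ^ P) ^ 4 := pow_le_pow_left₀ (by positivity) hGP1 4
      refine le_trans ?_ h7
      have h8 : (1 : ℝ) ≤ (w : ℝ) ^ 5 := one_le_pow₀ (by linarith)
      have h9 : (34 * (w : ℝ) ^ 2) ^ 4 = 34 ^ 4 * ((w : ℝ) ^ 3 * (w : ℝ) ^ 5) := by ring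
      have h10 : (w : ℝ) ^ 2 * (32 * w) = 32 * (w : ℝ) ^ 3 := by ring
      rw [h9, h10]
      have h11 : (w : ℝ) ^ 3 ≤ (w : ℝ) ^ 3 * (w : ℝ) ^ 5 := le_mul_of_one_le_right (by positivity) h8
      have h12 : (0 : ℝ) ≤ (w : ℝ) ^ 3 := by positivity
      nlinarith
    calc (w : ℝ) ^ 2 * (G ^ (2 * P)) ^ (w - 2) * (32 * w) =
          (G ^ (2 * P)) ^ (w - 2) * ((w : ℝ) ^ 2 * (32 * w)) := by ring
      _ ≤ (G ^ (2 * P)) ^ (w - 2) * (G ^ P) ^ 4 := by gcongr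
  calc (w : ℝ) ^ 2 * (2 * (w * Y / m + 1)) ^ (w - 2) ≤ (w : ℝ) ^ 2 * (G ^ (2 * P)) ^ (w - 2) := by
        gcongr
    _ ≤ X / (32 * w) := by
        rw [le_div_iff₀ (by positivity)]
        exact h4
    _ = X / (16 * w) / 2 := by field_simp; norm_num
    _ ≤ m / 2 := by linarith

/-- comparison of the size of the region with the bound for small sets -/
theorem size_cmp {M : ℕ} {K c G : ℝ} (hK : 0 < K) (hc : 0 < c) (hG : G = 4 * K / c + 2)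
    (hM : 2 ≤ M) (h2 : K * M ≤ 2 ^ (M - 1)) :
    (K * M) ^ (M ^ 2) ≤ G ^ (M ^ 2 - M) * (c * (M / 2)) ^ (M ^ 2 - M) := by
  have hMr : (2 : ℝ) ≤ M := by exact_mod_cast hM
  have hP : M ^ 2 - M = (M - 1) * M := by
    obtain ⟨v, rfl⟩ : ∃ v, M = v + 1 := ⟨M - 1, by omega⟩
    rw [Nat.add_sub_cancel]
    have : (v + 1) ^ 2 = v * (v + 1) + (v + 1) := by ring
    omega
  have hsq : M ^ 2 = M + (M ^ 2 - M) := by
    have : M ≤ M ^ 2 := by nlinarith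
    omega
  have hKM : 0 < K * M := by positivity
  have h3 : (K * M) ^ M ≤ 2 ^ (M ^ 2 - M) := by
    rw [hP, pow_mul]
    exact pow_le_pow_left₀ hKM.le h2 M
  have h4 : 2 * (K * M) ≤ G * (c * (M / 2)) := by
    have h5 : G * (c * (M / 2)) = 2 * (K * M) + c * M := by
      rw [hG]
      field_simp
      ring
    rw [h5]
    have : 0 < c * M := by positivity
    linarith
  calc (K * M) ^ (M ^ 2) = (K * M) ^ M * (K * M) ^ (M ^ 2 - M) := by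
        conv_lhs => rw [hsq]
        rw [pow_add]
    _ ≤ 2 ^ (M ^ 2 - M) * (K * M) ^ (M ^ 2 - M) := by gcongr
    _ = (2 * (K * M)) ^ (M ^ 2 - M) := by rw [mul_pow 2 (K * (M : ℝ))]
    _ ≤ (G * (c * (M / 2))) ^ (M ^ 2 - M) := pow_le_pow_left₀ (by positivity) h4 _
    _ = G ^ (M ^ 2 - M) * (c * (M / 2)) ^ (M ^ 2 - M) := by rw [mul_pow]

end NUM

theorem NUM : NUM_stmt := by
  intro w C K hw hC hK
  have hw3 : (3 : ℝ) ≤ w := by exact_mod_cast hw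
  have hw0 : (0 : ℝ) < w := by linarith
  obtain ⟨c, hc⟩ : ∃ c : ℝ, c = (1 / (4 * (w : ℝ)) - 1 / (8 * w)) / (1 + 1 / (4 * w)) /
      Real.sqrt (8 * w) := ⟨_, rfl⟩
  have hc0 : 0 < c := by
    rw [hc]
    have h1 : 0 < 1 / (4 * (w : ℝ)) - 1 / (8 * w) := by
      have : 1 / (4 * (w : ℝ)) - 1 / (8 * w) = 1 / (8 * w) := by field_simp; norm_num
      rw [this]; positivity
    positivity
  obtain ⟨G, hG⟩ : ∃ G : ℝ, G = 4 * K / c + 2 := ⟨_, rfl⟩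
  have hG2 : 2 ≤ G := by
    rw [hG]
    have : 0 < 4 * K / c := by positivity
    linarith
  have hb : 1 < 1 + 1 / (8 * (w : ℝ)) := by
    have : 0 < 1 / (8 * (w : ℝ)) := by positivity
    linarith
  obtain ⟨R, hR⟩ := Filter.eventually_atTop.1
    ((NUM.ev_pow 9 hb 1).and (NUM.ev_pow 3 (by norm_num : (1 : ℝ) < 2) K))
  obtain ⟨r, hrR, hr2, hr3⟩ : ∃ r : ℕ, R ≤ r ∧ 34 * w ^ 2 + 20 ≤ r ∧ 2 * G ^ (2 * w) / c ≤ r := by
    refine ⟨max R (max (34 * w ^ 2 + 20) ⌈2 * G ^ (2 * w) / c⌉₊), le_max_left _ _,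
      (le_max_left _ _).trans (le_max_right _ _), ?_⟩
    have h1 : ⌈2 * G ^ (2 * w) / c⌉₊ ≤ max R (max (34 * w ^ 2 + 20) ⌈2 * G ^ (2 * w) / c⌉₊) :=
      (le_max_right _ _).trans (le_max_right _ _)
    exact (Nat.le_ceil _).trans (by exact_mod_cast h1)
  obtain ⟨hc1, hc2⟩ := hR r hrR
  rw [one_mul] at hc1
  have hww : w ≤ w ^ 2 := by nlinarith
  have h4w : 4 * w ≤ r := by omega
  have hr20 : 20 ≤ r := by omega
  obtain ⟨M, hM⟩ : ∃ M, M = r ^ 3 := ⟨_, rfl⟩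
  have hMr : r + 1 ≤ M := by
    rw [hM]
    have h1 : r ^ 3 = r * r * r := by ring
    nlinarith [Nat.mul_le_mul hr20 hr20, Nat.mul_le_mul (Nat.mul_le_mul hr20 hr20) (le_refl r)]
  have hM2 : 2 ≤ M := by omega
  have hM1 : 1 ≤ M := by omega
  have hMlt : M < M ^ 2 := by nlinarith
  have hMP : M ≤ M ^ 2 - M := by
    have : 2 * M ≤ M ^ 2 := by nlinarith
    omega
  obtain ⟨P, hP⟩ : ∃ P, P = M ^ 2 - M := ⟨_, rfl⟩
  have hMreal : (2 : ℝ) ≤ M := by exact_mod_cast hM2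
  have hcast : ((M ^ 2 - M : ℕ) : ℝ) = (M : ℝ) ^ 2 - M := by
    rw [Nat.cast_sub hMlt.le]; push_cast; ring
  have hsq : (M : ℝ) / 2 ≤ Real.sqrt ((M ^ 2 - M : ℕ) : ℝ) := by
    apply Real.le_sqrt_of_sq_le
    rw [hcast]
    nlinarith
  have hKM : K * M ≤ 2 ^ r := by
    rw [hM]
    push_cast
    exact hc2.le
  obtain ⟨X, hX⟩ : ∃ X : ℝ, X = (c * Real.sqrt ((M ^ 2 - M : ℕ) : ℝ)) ^ (M ^ 2 - M) := ⟨_, rfl⟩
  have hXform : ((1 / (4 * (w : ℝ)) - 1 / (8 * w)) / (1 + 1 / (4 * w)) *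
      Real.sqrt ((M ^ 2 - M : ℕ) : ℝ) / Real.sqrt (8 * w)) ^ (M ^ 2 - M) = X := by
    rw [hX, hc]
    congr 1
    ring
  have hXge : (c * (M / 2)) ^ (M ^ 2 - M) ≤ X := by
    rw [hX]
    exact pow_le_pow_left₀ (by positivity) (mul_le_mul_of_nonneg_left hsq hc0.le) _
  have hcM : G ^ (2 * w) ≤ c * (M / 2) := by
    rw [div_le_iff₀ hc0] at hr3
    have h1 : (r : ℝ) ≤ M := by exact_mod_cast (by omega : r ≤ M)
    nlinarith
  have hXG : (G ^ (2 * w)) ^ (M ^ 2 - M) ≤ X := (pow_le_pow_left₀ (by positivity) hcM _).trans hXge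
  have hP2 : 34 * (w : ℝ) ^ 2 ≤ 2 ^ (M ^ 2 - M) := by
    have h1 : 34 * w ^ 2 ≤ M ^ 2 - M := by omega
    have h2 : M ^ 2 - M ≤ 2 ^ (M ^ 2 - M) := Nat.lt_two_pow_self.le
    exact_mod_cast h1.trans h2
  have hX16 : 34 * (w : ℝ) ^ 2 ≤ X := by
    refine hP2.trans (le_trans ?_ hXG)
    refine pow_le_pow_left₀ (by norm_num) ?_ _
    calc (2 : ℝ) = 2 ^ 1 := by norm_num
      _ ≤ 2 ^ (2 * w) := pow_le_pow_right₀ (by norm_num) (by omega)
      _ ≤ G ^ (2 * w) := pow_le_pow_left₀ (by norm_num) hG2 _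
  have hX0 : 0 < X := lt_of_lt_of_le (by positivity) hX16
  obtain ⟨m, hm⟩ : ∃ m : ℕ, m = ⌊X / (8 * w)⌋₊ := ⟨_, rfl⟩
  have hm1 : (m : ℝ) ≤ X / (8 * w) := by
    rw [hm]; exact Nat.floor_le (by positivity)
  have hX2 : 2 ≤ X / (8 * w) := by
    rw [le_div_iff₀ (by positivity)]
    nlinarith
  have hm2 : X / (16 * w) ≤ m := by
    have h1 : X / (8 * w) < m + 1 := by rw [hm]; exact Nat.lt_floor_add_one _
    have h2 : X / (8 * w) = 2 * (X / (16 * w)) := by field_simp; norm_num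
    have h3 : 1 ≤ X / (16 * w) := by linarith
    linarith
  have hsqrtn : Real.sqrt ((M ^ 2 : ℕ) : ℝ) = M := by
    push_cast
    exact Real.sqrt_sq (by positivity)
  refine ⟨r, M, M ^ 2, r ^ 9, m, hM1, hMlt, ?_, ?_, ?_, ?_, ?_, ?_⟩
  · have h1 : (1 : ℝ) ≤ m := by
      have h2 : X / (8 * w) = 2 * (X / (16 * w)) := by field_simp; norm_num
      linarith
    exact_mod_cast h1
  · push_cast
    exact hc1
  · rw [hsqrtn]
    have h1 : (w : ℝ) ≤ 2 ^ r := by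
      have h2 : w ≤ 2 ^ r := by
        have : r ≤ 2 ^ r := Nat.lt_two_pow_self.le
        omega
      exact_mod_cast h2
    calc (w : ℝ) * (K * M) ^ (M ^ 2) ≤ 2 ^ r * (2 ^ r) ^ (M ^ 2) := by
          gcongr
      _ = 2 ^ (r + r * M ^ 2) := by rw [← pow_mul, ← pow_add]
      _ ≤ 2 ^ (2 * r ^ 9) := by
          apply pow_le_pow_right₀ (by norm_num)
          rw [hM]
          have h2 : r * (r ^ 3) ^ 2 = r ^ 7 := by ring
          rw [h2]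
          have h3 : r ^ 7 ≤ r ^ 9 := Nat.pow_le_pow_right (by omega) (by norm_num)
          have h4 : r ^ 1 ≤ r ^ 9 := Nat.pow_le_pow_right (by omega) (by norm_num)
          rw [pow_one] at h4
          omega
      _ = 4 ^ (r ^ 9) := by
          rw [pow_mul]
          norm_num
  · rw [hM]
    exact NUM.cond3 hC hr20 h4w
  · rw [hXform]
    calc 2 * (w : ℝ) * (2 * m) ≤ 2 * (w : ℝ) * (2 * (X / (8 * w))) := by gcongr
      _ = X / 2 := by field_simp; norm_num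
      _ < X := by linarith
  · rw [hsqrtn]
    refine NUM.cond5 (P := M ^ 2 - M) (X := X) (G := G) hw hG2 hXG (by positivity) ?_ hP2 hm2
    have h1 : K * M ≤ 2 ^ (M - 1) :=
      hKM.trans (pow_le_pow_right₀ (by norm_num) (by omega))
    exact (NUM.size_cmp hK hc0 hG hM2 h1).trans (mul_le_mul_of_nonneg_left hXge (by positivity))

end BDim
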