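import Pool.Agent.Lib_MP_0cf6e1_co.Stmts

/-!
# MP_0cf6e1_co, piece PREO (about 150 lines)

Write P v v' = L (v,0) (v',1) and Q v v' = L (v,1) (v',0); by the homogeneity hypothesis P v v' <-> L (v,i) (v',j) for all i < j and
Q v v' <-> L (v,j) (v',i) for all i < j.  L is a strict total order, so for all v, v': not (P v v') <-> Q v' v (the elements (v,0)
and (v',1) are different), i.e. exactly one of P v v', Q v' v holds.
Call v below v' if P v v' and Q v v'.  Call v, v' merged if exactly one of P v v', Q v v' holds.  If none holds then Q v' v and P v' v,
so v' is below v.  v is merged with itself (P v v xor Q v v).  Using three values 0 < 1 < 2 of the second coordinate: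
* direction: sg v := P v v.  If v, v' merged with P v v' and not Q v v' (so P v' v): (v,0) < (v',1) < (v,2) gives sg v, likewise
  sg v'.  If Q v v' and not P v v' (so Q v' v): (v,2) < (v',1) < (v,0) gives not sg v, and not sg v'.
  So merged v, v' satisfy: P v v' <-> sg v <-> sg v', Q v v' <-> not sg v.
* merged is transitive, below is transitive, below is compatible with merged (if v below v' and v' merged with u then v below u, etc.):
  each case is a chain of two inequalities through the middle value 1 (for instance v below v', v' merged u with P v' u, P u v':
  L(v,i)(v',1) for every i and (v',1) < (u,2) gives L (v,i) (u,2), so P v u and L (v,2) (u,2)...; if v, u were not (v below u) they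
  would be merged (u merged v', so v merged v' contradiction) or u below v (then u below v below v' contradicts merged)).
Put r v = number of u with u below v.  Then v below v' implies r v < r v'; merged implies r v = r v'; so r v < r v' <-> v below v' and
r v = r v' <-> merged (trichotomy).  The two formulas follow.
-/

namespace BDim

open Finset
open scoped Classical

theorem PREO : PREO_stmt := by
  sorry

end BDim
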