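import Pool.Agent.Lib_MP_0cf6e1_co.Stmts

/-!
# MP_0cf6e1_co, piece RAM (about 110 lines)

Finite Ramsey theorem for pairs with c colours (classical; write the usual proof).  E.g.: first a one-sided lemma by induction:
for all c, l there is N such that for every col there is a strictly increasing f : Fin l -> Fin N such that col (f i) (f j) depends only
on i for i < j (N(l+1) = 1 + c * N(l) ..., pigeonhole on the colours of the pairs with the smallest element); then take
l = c * m + 1 and apply the pigeonhole principle to the colours of i.  Take N at least m.  c = 0: take N >= max 1 m, there is no col
(m = 0 is trivial).  You may use any Ramsey-type lemma already on main.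
-/

namespace BDim

open Finset
open scoped Classical

theorem RAM : RAM_stmt := by
  sorry

end BDim
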