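import Pool.Agent.Lib_MP_0cf6e1_co.Stmts

/-!
# MP_0cf6e1_co, piece REGION (about 200 lines)

WLOG eps <= 1 (replace eps by min eps 1).  Choose a natural lam with 1/lam^2 <= eps/2.  For kappa >= 1 (chosen at the end) let
R0 = kappa^2 n^2, delta = 4 lam C kappa + C^2, D = n delta (natural numbers).  For R in [R0, 4 R0] and x in ball n (R - D) (with D <= R)
and |sum x k s k x| <= 2 lam C kappa n: sum (x k + s k x)^2 <= R - D + 4 lam C kappa n + n C^2 <= R, so the shifted x is in ball n R.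
By hMOMENT and Chebyshev the number of x in ball n R with |sum x k s k x| > 2 lam C kappa n >= lam C sqrt R is at most
card/lam^2 <= (eps/2) card  (if C = 0 the sum is 0; treat by: (2 lam C kappa n)^2 >= lam^2 C^2 R).
So exits <= card (ball R) - card (ball (R-D)) + (eps/2) card (ball R).
Choose R: let R_i = R0 + i D, I = the largest i with R_i <= 4 R0.  If card (ball (R_(i-1))) < (1 - eps/2) card (ball R_i) for all
1 <= i <= I then (1 - eps/2)^I card (ball (4 R0)) >= (1-eps/2)^I card (ball R_I) ... > card (ball R0), more precisely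
card (ball R0) < (1-eps/2)^I card (ball R_I) <= (1-eps/2)^I card (ball (4R0)) <= (1-eps/2)^I 3^n card (ball R0) by hHALF; so it is
enough that (1-eps/2)^I 3^n <= 1.  I >= 3 kappa^2 n^2 / (n delta) - 1 >= M1 n if kappa is large (delta is linear in kappa), where
(1 - eps/2)^M1 * 3 <= 1.  kappa depends only on C, eps.  Then some R = R_i, 1 <= i <= I, has
card (ball R) - card (ball (R-D)) <= (eps/2) card (ball R).  B = ball n R; nonempty (0 in B); K from hSIZEB kappa and
ball n R subset ball n (4 kappa^2 n^2).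
(If delta = 0, i.e. C = 0, everything is trivial: the shift is 0; or replace C by max C 1.)
-/

namespace BDim

open Finset
open scoped Classical

namespace REGION

theorem ball_mono {n R R' : ℕ} (h : R ≤ R') : ball n R ⊆ ball n R' := by
  intro x hx
  rw [mem_ball] at hx ⊢
  exact ⟨hx.1, hx.2.trans (by exact_mod_cast h)⟩

theorem zero_mem_ball (n R : ℕ) : (fun _ => 0 : ℕ → ℤ) ∈ ball n R := by
  rw [mem_ball]
  refine ⟨fun _ _ => rfl, ?_⟩
  simp

theorem ball_card_pos (n R : ℕ) : 0 < (ball n R).card :=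
  Finset.card_pos.2 ⟨_, zero_mem_ball n R⟩

/-- The shifted point stays in the ball. -/
theorem shift_mem {n C R D T : ℕ} {s : ℕ → (ℕ → ℤ) → ℤ} (hs : Shift n C s) {x : ℕ → ℤ}
    (hDR : D ≤ R) (hD : 2 * T + n * C ^ 2 ≤ D) (hx : x ∈ ball n (R - D))
    (hT : |∑ k ∈ range n, x k * s k x| ≤ (T : ℤ)) : (fun k => x k + s k x) ∈ ball n R := by
  rw [mem_ball] at hx ⊢
  obtain ⟨h1, h2⟩ := hx
  refine ⟨fun m hm => ?_, ?_⟩
  · simp only [h1 m hm, hs.fin m x hm, add_zero]
  · have e1 : ∑ m ∈ range n, (x m + s m x) ^ 2 =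
        ∑ m ∈ range n, (x m) ^ 2 + 2 * ∑ m ∈ range n, x m * s m x + ∑ m ∈ range n, (s m x) ^ 2 := by
      rw [Finset.mul_sum, ← Finset.sum_add_distrib, ← Finset.sum_add_distrib]
      refine Finset.sum_congr rfl fun m _ => ?_
      ring
    have e2 : ∑ m ∈ range n, (s m x) ^ 2 ≤ ∑ _m ∈ range n, (C : ℤ) ^ 2 := by
      refine Finset.sum_le_sum fun m _ => ?_
      have := hs.bdd m x
      rw [← sq_abs]
      exact pow_le_pow_left₀ (abs_nonneg _) this 2
    rw [Finset.sum_const, Finset.card_range, nsmul_eq_mul] at e2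
    have e3 : ∑ k ∈ range n, x k * s k x ≤ (T : ℤ) := (le_abs_self _).trans hT
    have e4 : ((R - D : ℕ) : ℤ) = (R : ℤ) - D := by rw [Nat.cast_sub hDR]
    rw [e4] at h2
    have e5 : (2 : ℤ) * T + n * (C : ℤ) ^ 2 ≤ D := by exact_mod_cast hD
    show ∑ m ∈ range n, (x m + s m x) ^ 2 ≤ (R : ℤ)
    rw [e1]
    linarith

/-- Chebyshev. -/
theorem cheb (hMOMENT : MOMENT_stmt) {n C R l T : ℕ} {s : ℕ → (ℕ → ℤ) → ℤ} (hs : Shift n C s)
    (hT : l ^ 2 * (C ^ 2 * R) ≤ T ^ 2) (hT0 : 0 < T) :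
    l ^ 2 * ((ball n R).filter (fun x => ¬ |∑ k ∈ range n, x k * s k x| ≤ (T : ℤ))).card ≤
      (ball n R).card := by
  set F := (ball n R).filter (fun x => ¬ |∑ k ∈ range n, x k * s k x| ≤ (T : ℤ)) with hF
  have h1 := hMOMENT n C R s hs
  have h2 : (T : ℤ) ^ 2 * F.card ≤ ∑ x ∈ ball n R, (∑ k ∈ range n, x k * s k x) ^ 2 := by
    calc (T : ℤ) ^ 2 * F.card = ∑ _x ∈ F, (T : ℤ) ^ 2 := by
          rw [Finset.sum_const, nsmul_eq_mul, mul_comm]
      _ ≤ ∑ x ∈ F, (∑ k ∈ range n, x k * s k x) ^ 2 := by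
          refine Finset.sum_le_sum fun x hx => ?_
          have hx' := (Finset.mem_filter.1 hx).2
          rw [not_le] at hx'
          rw [← sq_abs (∑ k ∈ range n, x k * s k x)]
          exact pow_le_pow_left₀ (by positivity) hx'.le 2
      _ ≤ ∑ x ∈ ball n R, (∑ k ∈ range n, x k * s k x) ^ 2 :=
          Finset.sum_le_sum_of_subset_of_nonneg (Finset.filter_subset _ _)
            (fun _ _ _ => sq_nonneg _)
  have h3 : (T : ℤ) ^ 2 * F.card ≤ (C : ℤ) ^ 2 * R * (ball n R).card := h2.trans h1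
  have h4 : T ^ 2 * F.card ≤ C ^ 2 * R * (ball n R).card := by exact_mod_cast h3
  rcases Nat.eq_zero_or_pos (C ^ 2 * R) with h0 | h0
  · rw [h0, zero_mul] at h4
    have h5 : 0 < T ^ 2 := by positivity
    have h6 : F.card = 0 := by
      by_contra hne
      have : 0 < T ^ 2 * F.card := Nat.mul_pos h5 (Nat.pos_of_ne_zero hne)
      omega
    rw [h6]; simp
  · have h5 : (l ^ 2 * F.card) * (C ^ 2 * R) ≤ (ball n R).card * (C ^ 2 * R) := by
      calc (l ^ 2 * F.card) * (C ^ 2 * R) = (l ^ 2 * (C ^ 2 * R)) * F.card := by ring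
        _ ≤ T ^ 2 * F.card := Nat.mul_le_mul_right _ hT
        _ ≤ C ^ 2 * R * (ball n R).card := h4
        _ = (ball n R).card * (C ^ 2 * R) := by ring
    exact Nat.le_of_mul_le_mul_right h5 h0

/-- There is a radius at which the ball grows slowly. -/
theorem choose_radius {n D R0 I : ℕ} {a : ℝ} (ha : 0 ≤ a) (hI : 1 ≤ I)
    (hID : I * D ≤ 3 * R0) (hHALF : (ball n (4 * R0)).card ≤ 3 ^ n * (ball n R0).card)
    (hpow : a ^ I * 3 ^ n ≤ 1) :
    ∃ R, D ≤ R ∧ R ≤ 4 * R0 ∧ a * (ball n R).card ≤ (ball n (R - D)).card := by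
  by_contra hcon
  push Not at hcon
  have hstep : ∀ i, i ≤ I → 1 ≤ i →
      ((ball n R0).card : ℝ) < a ^ i * (ball n (R0 + i * D)).card := by
    intro i
    induction i with
    | zero => intro _ h; omega
    | succ i ih =>
      intro hi _
      have hle : (i + 1) * D ≤ 3 * R0 := (Nat.mul_le_mul_right D hi).trans hID
      have h1 := hcon (R0 + (i + 1) * D) (by nlinarith) (by omega)
      have h2 : R0 + (i + 1) * D - D = R0 + i * D := by
        have : (i + 1) * D = i * D + D := by ring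
        omega
      rw [h2] at h1
      rcases Nat.eq_zero_or_pos i with h0 | h0
      · subst h0
        simpa using h1
      · have h3 := ih (by omega) h0
        calc ((ball n R0).card : ℝ) < a ^ i * (ball n (R0 + i * D)).card := h3
          _ ≤ a ^ i * (a * (ball n (R0 + (i + 1) * D)).card) :=
              mul_le_mul_of_nonneg_left h1.le (by positivity)
          _ = a ^ (i + 1) * (ball n (R0 + (i + 1) * D)).card := by ring
  have h1 := hstep I le_rfl hI
  have h2 : ((ball n (R0 + I * D)).card : ℝ) ≤ (ball n (4 * R0)).card := by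
    exact_mod_cast Finset.card_le_card (ball_mono (by omega))
  have h3 : ((ball n (4 * R0)).card : ℝ) ≤ 3 ^ n * (ball n R0).card := by exact_mod_cast hHALF
  have h4 : (0 : ℝ) ≤ (ball n R0).card := Nat.cast_nonneg _
  have h5 : ((ball n R0).card : ℝ) < (ball n R0).card := by
    calc ((ball n R0).card : ℝ) < a ^ I * (ball n (R0 + I * D)).card := h1
      _ ≤ a ^ I * (3 ^ n * (ball n R0).card) :=
          mul_le_mul_of_nonneg_left (h2.trans h3) (by positivity)
      _ = (a ^ I * 3 ^ n) * (ball n R0).card := by ring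
      _ ≤ 1 * (ball n R0).card := mul_le_mul_of_nonneg_right hpow h4
      _ = (ball n R0).card := one_mul _
  exact lt_irrefl _ h5

theorem core (hMOMENT : MOMENT_stmt) (hHALF : HALF_stmt) (hSIZEB : SIZEB_stmt) (C : ℕ)
    (hC : 1 ≤ C) (ε : ℝ) (hε : 0 < ε) (hε1 : ε ≤ 1) : ∃ K : ℝ, 0 < K ∧ ∀ n : ℕ, 1 ≤ n →
  ∃ B : Finset (ℕ → ℤ), B.Nonempty ∧ (∀ x ∈ B, ∀ m, n ≤ m → x m = 0) ∧
    ((B.card : ℝ) ≤ (K * Real.sqrt n) ^ n) ∧
    ∀ s : ℕ → (ℕ → ℤ) → ℤ, Shift n C s →
      ((B.filter (fun x => (fun k => x k + s k x) ∉ B)).card : ℝ) ≤ ε * B.card := by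
  obtain ⟨l, hl⟩ := exists_nat_ge (2 / ε)
  have hlpos : (0 : ℝ) < l := lt_of_lt_of_le (by positivity) hl
  have hl1 : 1 ≤ l := by exact_mod_cast hlpos
  have hl2 : 2 ≤ ε * (l : ℝ) ^ 2 := by
    rw [div_le_iff₀ hε] at hl
    have : (1 : ℝ) ≤ l := by exact_mod_cast hl1
    nlinarith
  set a : ℝ := 1 - ε / 2 with ha
  have ha0 : 0 ≤ a := by rw [ha]; linarith
  have ha1 : a < 1 := by rw [ha]; linarith
  obtain ⟨M, hM⟩ := exists_pow_lt_of_lt_one (show (0 : ℝ) < 1 / 3 by norm_num) ha1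
  have hM1 : 1 ≤ M := by
    by_contra h
    have : M = 0 := by omega
    rw [this] at hM
    norm_num at hM
  set κ : ℕ := M * (4 * l * C + C ^ 2) + 1 with hκ
  have hκ1 : 1 ≤ κ := by omega
  obtain ⟨K, hK, hKn⟩ := hSIZEB κ
  refine ⟨K, hK, fun n hn => ?_⟩
  set δ : ℕ := 4 * l * C * κ + C ^ 2 with hδ
  set D : ℕ := n * δ with hD
  set R0 : ℕ := κ ^ 2 * n ^ 2 with hR0
  set T : ℕ := 2 * l * C * κ * n with hTdef
  have hMδ : M * δ ≤ 3 * κ ^ 2 := by
    have h1 : δ ≤ (4 * l * C + C ^ 2) * κ := by rw [hδ]; nlinarith [Nat.zero_le (C ^ 2)]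
    have h2 : M * (4 * l * C + C ^ 2) ≤ κ := by omega
    calc M * δ ≤ M * ((4 * l * C + C ^ 2) * κ) := Nat.mul_le_mul_left _ h1
      _ = (M * (4 * l * C + C ^ 2)) * κ := by ring
      _ ≤ κ * κ := Nat.mul_le_mul_right _ h2
      _ ≤ 3 * κ ^ 2 := by nlinarith
  have hID : (M * n) * D ≤ 3 * R0 := by
    calc (M * n) * D = (M * δ) * n ^ 2 := by rw [hD]; ring
      _ ≤ (3 * κ ^ 2) * n ^ 2 := Nat.mul_le_mul_right _ hMδ
      _ = 3 * R0 := by rw [hR0]; ring
  have hpow : a ^ (M * n) * 3 ^ n ≤ 1 := by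
    rw [pow_mul, ← mul_pow]
    apply pow_le_one₀ (by positivity)
    have := hM.le
    linarith
  obtain ⟨R, hDR, hR4, hgrow⟩ := choose_radius (n := n) (D := D) (R0 := R0) (I := M * n) ha0
    (Nat.one_le_iff_ne_zero.2 (by positivity)) hID (hHALF n R0) hpow
  refine ⟨ball n R, ⟨_, zero_mem_ball n R⟩, fun x hx => (mem_ball.1 hx).1, ?_, ?_⟩
  · have h1 : ((ball n R).card : ℝ) ≤ (ball n (4 * κ ^ 2 * n ^ 2)).card := by
      have : 4 * R0 = 4 * κ ^ 2 * n ^ 2 := by rw [hR0]; ring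
      rw [this] at hR4
      exact_mod_cast Finset.card_le_card (ball_mono hR4)
    exact h1.trans (hKn n hn)
  · intro s hs
    have hTpos : 0 < T := by rw [hTdef]; positivity
    have hT2 : l ^ 2 * (C ^ 2 * R) ≤ T ^ 2 := by
      calc l ^ 2 * (C ^ 2 * R) ≤ l ^ 2 * (C ^ 2 * (4 * R0)) := by gcongr
        _ = T ^ 2 := by rw [hTdef, hR0]; ring
    have hch := cheb hMOMENT (R := R) hs hT2 hTpos
    set F := (ball n R).filter (fun x => ¬ |∑ k ∈ range n, x k * s k x| ≤ (T : ℤ)) with hF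
    have hDT : 2 * T + n * C ^ 2 ≤ D := by
      rw [hD, hδ, hTdef]
      apply le_of_eq
      ring
    have hsub : (ball n R).filter (fun x => (fun k => x k + s k x) ∉ ball n R) ⊆
        (ball n R \ ball n (R - D)) ∪ F := by
      intro x hx
      obtain ⟨hx1, hx2⟩ := Finset.mem_filter.1 hx
      rw [Finset.mem_union, Finset.mem_sdiff]
      by_contra hcon
      push Not at hcon
      obtain ⟨h1, h2⟩ := hcon
      have h3 := h1 hx1
      have h4 : |∑ k ∈ range n, x k * s k x| ≤ (T : ℤ) := by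
        by_contra h5
        exact h2 (Finset.mem_filter.2 ⟨hx1, h5⟩)
      exact hx2 (shift_mem hs hDR hDT h3 h4)
    have hcard : (((ball n R).filter (fun x => (fun k => x k + s k x) ∉ ball n R)).card : ℝ) ≤
        ((ball n R).card - (ball n (R - D)).card) + F.card := by
      have h1 := (Finset.card_le_card hsub).trans (Finset.card_union_le _ _)
      have h2 : (ball n R \ ball n (R - D)).card = (ball n R).card - (ball n (R - D)).card :=
        Finset.card_sdiff_of_subset (ball_mono (Nat.sub_le _ _))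
      have h3 : (ball n (R - D)).card ≤ (ball n R).card :=
        Finset.card_le_card (ball_mono (Nat.sub_le _ _))
      rw [h2] at h1
      have h4 : ((((ball n R).card - (ball n (R - D)).card : ℕ)) : ℝ) =
          ((ball n R).card : ℝ) - (ball n (R - D)).card := by rw [Nat.cast_sub h3]
      rw [← h4]
      exact_mod_cast h1
    have hFc : (F.card : ℝ) ≤ ε / 2 * (ball n R).card := by
      have h1 : (l : ℝ) ^ 2 * F.card ≤ (ball n R).card := by exact_mod_cast hch
      have h2 : (0 : ℝ) ≤ F.card := Nat.cast_nonneg _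
      have h3 : 2 * (F.card : ℝ) ≤ ε * (l : ℝ) ^ 2 * F.card := mul_le_mul_of_nonneg_right hl2 h2
      have h4 : ε * ((l : ℝ) ^ 2 * F.card) ≤ ε * (ball n R).card :=
        mul_le_mul_of_nonneg_left h1 hε.le
      linarith
    rw [ha] at hgrow
    linarith

end REGION

theorem REGION (hMOMENT : MOMENT_stmt) (hHALF : HALF_stmt) (hSIZEB : SIZEB_stmt) : REGION_stmt := by
  intro C ε hε
  obtain ⟨K, hK, h⟩ := REGION.core hMOMENT hHALF hSIZEB (C + 1) (by omega) (min ε 1)
    (lt_min hε one_pos) (min_le_right _ _)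
  refine ⟨K, hK, fun n hn => ?_⟩
  obtain ⟨B, h1, h2, h3, h4⟩ := h n hn
  refine ⟨B, h1, h2, h3, fun s hs => ?_⟩
  have hs' : Shift n (C + 1) s := by
    refine ⟨fun k x => ?_, hs.dep, hs.fin⟩
    have := hs.bdd k x
    push_cast
    linarith
  refine (h4 s hs').trans ?_
  exact mul_le_mul_of_nonneg_right (min_le_left _ _) (Nat.cast_nonneg _)

end BDim
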