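import Pool.Agent.Lib_MP_0cf6e1_co.Stmts

/-!
# MP_0cf6e1_co, piece SIZEB (about 130 lines)

kappa = 0: the ball is {0}, K = 1 works since (sqrt n)^n >= 1.  In general let R = 4 kappa^2 n^2.  For x in the ball, by Cauchy-Schwarz
(sum |x m|)^2 <= n R, so sum |x m| <= L := 2 kappa n sqrt n (real).  For 0 < q < 1:  1 <= q^(sum |x m|) q^(-L), so
card * q^L <= sum over x of prod over m < n of q^|x m| <= prod over m of (sum over v in Icc (-R) R of q^|v|) <= (2/(1-q))^n
(Finset.prod_univ_sum / Fintype.piFinset; sum over v in Icc (-R) R of q^|v| <= (1+q)/(1-q) <= 2/(1-q)).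
Take q = 1 - 1/(a sqrt n) with a = max(2 kappa, 1)*2 or similar (so q >= 1/2 and q^L >= exp(-2 L/(a sqrt n)) >= exp(-2n)-like bound:
use log q >= -2 (1-q) for q >= 1/2, or (1 - x) >= exp(-2x) for x in [0,1/2]).  Then card <= exp(2 L/(a sqrt n)) (2 a sqrt n)^n
<= (K sqrt n)^n with K = 2 a e^2.
-/

namespace BDim

open Finset
open scoped Classical

theorem SIZEB : SIZEB_stmt := by
  sorry

end BDim
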