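import Pool.Agent.Lib_MP_0cf6e1_co.Stmts

/-!
# MP_0cf6e1_co, piece SMALLSET (about 130 lines)

Take T = the extremal subset of S (hEXTR), Omega = Om t Gd T, N = n - k0, c = (eta - eta')/(1+eta), B = 8 w,
a j o = cnt Omega (tr (k0+j+1) o Xo) o / cnt Omega (tr (k0+j) o Xo) o  (j < N),  E_j = En Omega (tr (k0+j) o Xo) lam,
x j = 8 w card Omega (E_{j+1} - E_j).
* a j o > 0 (o itself is counted); the product over j < N telescopes to cnt(n)/cnt(k0) >= 1/card Omega.
* hSTARLAYER (GdDep Gd (k0+j) follows from GdDep Gd k0 by tr_tr_le; T subset V) and hSTARTRI summed over the edges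
  (Om is a product with Bool): c * sum a <= 2 sum over edges D2 <= 2 sum over Om of D1, and hENERGY (card (Fin w x Bool) = 2 w,
  refinement by tr_mono) gives (c sum a)^2 <= 4 * 2 w * card Omega * (E_{j+1} - E_j) = x j  (both sides >= 0).
* x j >= 0 (from hENERGY, w >= 1 since Pt w is inhabited; card Omega > 0) and the sum of x j telescopes,
  <= 8 w card Omega^2 by hENB.
hAMGM: (c sqrt N / sqrt (8 w))^N <= card Omega = 2 card (edg T) <= 2 w card T <= 2 w card S.
Omega is nonempty because (1+eta) card T <= card edg T and T nonempty.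
-/

namespace BDim

open Finset
open scoped Classical

theorem SMALLSET (hENERGY : ENERGY_stmt) (hENB : ENB_stmt) (hSTARTRI : STARTRI_stmt) (hSTARLAYER : STARLAYER_stmt) (hAMGM : AMGM_stmt) (hEXTR : EXTR_stmt) : SMALLSET_stmt := by
  sorry

end BDim
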