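import Pool.Agent.Lib_MP_0cf6e1_co.Stmts

/-!
# MP_0cf6e1_co, piece SPARSE (about 25 lines)

Apply hMOORE to ar = lar t (GdG t g k0) k, with hCYC (cycles are longer than g >= 2r+2).
-/

namespace BDim

open Finset
open scoped Classical

theorem SPARSE (hCYC : CYC_stmt) (hMOORE : MOORE_stmt) : SPARSE_stmt := by
  sorry

end BDim
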