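import Pool.Agent.Lib_MP_0cf6e1_co.Stmts

/-!
# MP_0cf6e1_co, piece STARCORE (about 130 lines)

Let E = edg t Gd S, rho = card E / card S >= 1 + eta, A = {s in S.image (tr k) : L s nonempty} (A is contained in V.image (tr k)).
inside = #{e in E : both ends (tr k e.1 and tr k (up t e.2 e.1)) in A}, cross = #{e : exactly one end in A}, Mis = the number of
mismatched edges (right hand side), N = #{p in S : tr k p in A}, n = the number on the left = 2 inside + cross
(an element (e,true) of Om counts iff tr k e.1 in A, (e,false) iff tr k (up t e.2 e.1) in A; ends of edges of E are in S).
1. A matched edge ((L s).image (. + t) = L s') has both or no end in A; so cross <= Mis and the matched inside edges are at least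
   inside - (Mis - cross) many.
2. For the gauge g s = min of L s (s in A, 0 otherwise): matched inside edges satisfy g s' - g s = t k e.1 e.2
   (the minimum of the image is the minimum plus t).  hBALC: their number is <= (1 + eta') N.
3. Extr applied to T = {p in S : tr k p not in A}: card(edg T) * card S <= card E * card T, and edg T contains all edges with no end
   in A: (card E - inside - cross) card S <= card E (card S - N), so rho N <= inside + cross.
4. inside - Mis + cross <= (1 + eta') N <= (1 + eta')/rho (inside + cross), so
   (1 - (1+eta')/(1+eta)) (inside + cross) <= Mis; 1 - (1+eta')/(1+eta) = (eta - eta')/(1+eta) and n <= 2 (inside + cross).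
-/

namespace BDim

open Finset
open scoped Classical

theorem STARCORE (hBALC : BALC_stmt) : STARCORE_stmt := by
  sorry

end BDim
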