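import Pool.Agent.Lib_MP_0cf6e1_co.Stmts

/-!
# MP_0cf6e1_co, piece STARLAYER (about 170 lines)

Layer cake.  Let Omega = Om t Gd S, n(s) = #{o : tr k (Xo o) = s}, M = (card Omega)! and H s v = M * law t Gd S k s v, a natural
number <= M (n(s) divides M if n(s) > 0; H = 0 if n(s) = 0).  For j = 1..M let L_j s = {v : H s v >= j} (a finite set: filter of
S.image (.2 k)).  Apply hSTARCORE to L_j and sum over j:
left: sum over j of #{o : L_j (tr k (Xo o)) nonempty} >= sum over o of H (tr k (Xo o)) ((Xo o).2 k) = M * sum over o of
cnt(k+1) o / cnt k o   (law s v for s = tr k X, v = X.2 k is exactly cnt(k+1)/cnt(k) by tr_succ_iff);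
right: for an edge e with s, s', T: #{j : (L_j s).image (. + T) != L_j s'} <= sum over v of #{j : not (v in L_j s <-> v + T in L_j s')}
= sum over v of |H s v - H s' (v + T)| = M * D2 e, where v ranges over S.image (.2 k) union S.image (.2 k - T) (outside both are 0).
Divide by M.  (An alternative is to integrate over a real threshold; the factorial trick is purely finite.)
-/

namespace BDim

open Finset
open scoped Classical

theorem STARLAYER (hSTARCORE : STARCORE_stmt) : STARLAYER_stmt := by
  sorry

end BDim
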