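import Pool.Agent.Lib_MP_0cf6e1_co.Stmts

/-!
# MP_0cf6e1_co, piece STARTRI (about 150 lines)

Let s = tr k e.1, s' = tr k (up t e.2 e.1), T = t k e.1 e.2, Omega = Om t Gd S, f o = tr k (Xo t o), h o = tr (k+1) (Xo t o).
The element (e,true) has class s and label (e.2,true); (e,false) has class s' and label (e.1.1,false).
Key bijection: (e',true) <-> (e',false) between {o : f o = s, lam o = (e.2,true)} and {o : f o = s', lam o = (e.1.1,false)}:
if e'.2 = e.2 and tr k e'.1 = s then e'.1.1 = e.1.1 and tr k (up t e'.2 e'.1) = s' (tr_up_congr); conversely if e'.1.1 = e.1.1 and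
tr k (up t e'.2 e'.1) = s' then e'.2 = s'.1 = e.2 and tr k e'.1 = s by tr_up_inj.  Moreover (up t e'.2 e'.1).2 k = e'.1.2 k + T (Dep).
Hence with P(v) = #{o : f o = s, lam o = lam(e,true), (Xo o).2 k = v} / #{o : f o = s, lam o = lam (e,true)} and P'(v') the same for
(e,false): P(v) = P'(v + T).  So |law s v - law s' (v+T)| <= |law s v - P v| + |P' (v+T) - law s' (v+T)|.
D1 (e,true) = sum over the fine classes c in the class of s of |P - law|: the fine classes c = tr (k+1) X correspond to the values
v = X.2 k (tr_succ_iff), for all other v both P v and law s v are 0; same for (e,false).  So the sum over any finite set of v of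
|law s v - P v| is at most D1 (e,true), etc.
-/

namespace BDim

open Finset
open scoped Classical

theorem STARTRI : STARTRI_stmt := by
  sorry

end BDim
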