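import Pool.Agent.Lib_MP_0cf6e1_co.Basic

/-!
# MP_0cf6e1_co: the statements of all pieces, as propositions

Overview of the proof of `B(w) ≥ w - 1`: see `Blueprint.md`.
-/

namespace BDim

open Finset
open scoped Classical

/-! ## Part A: small sets are sparse -/

/-- Energy increment. -/
def ENERGY_stmt : Prop := ∀ (ι α β Λ : Type) [Fintype Λ] (Ω : Finset ι) (f : ι → α) (h : ι → β)
  (lab : ι → Λ), (∀ i ∈ Ω, ∀ j ∈ Ω, h i = h j → f i = f j) →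
  (∑ i ∈ Ω, D1 Ω f h lab i) ^ 2 ≤
    (Fintype.card Λ : ℝ) * Ω.card * (En Ω h lab - En Ω f lab)

/-- Bounds of the energy. -/
def ENB_stmt : Prop := ∀ (ι α Λ : Type) (Ω : Finset ι) (f : ι → α) (lab : ι → Λ),
  0 ≤ En Ω f lab ∧ En Ω f lab ≤ Ω.card

/-- Edges above balanced edges. -/
def BALC_stmt : Prop := ∀ (w k : ℕ) (t : Volt w) (Gd : Pt w → Fin w → Prop)
  (V S A : Finset (Pt w)) (g : Pt w → ℤ) (η : ℝ),
  Dep t → GdDep Gd k → Bal t Gd V k η → A ⊆ V.image (tr k) →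
  (((edg t Gd S).filter (fun e => tr k e.1 ∈ A ∧ tr k (up t e.2 e.1) ∈ A ∧
      g (tr k (up t e.2 e.1)) - g (tr k e.1) = t k e.1 e.2)).card : ℝ) ≤
    (1 + η) * (S.filter (fun p => tr k p ∈ A)).card

/-- The core inequality for one family of finite sets `L s`. -/
def STARCORE_stmt : Prop := ∀ (w k : ℕ) (t : Volt w) (Gd : Pt w → Fin w → Prop)
  (V S : Finset (Pt w)) (L : Pt w → Finset ℤ) (η η' : ℝ),
  Dep t → GdDep Gd k → Bal t Gd V k η' → S ⊆ V → S.Nonempty → Extr t Gd S → 0 ≤ η' → η' < η →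
  (1 + η) * S.card ≤ (edg t Gd S).card →
  (η - η') / (1 + η) * ((Om t Gd S).filter (fun o => (L (tr k (Xo t o))).Nonempty)).card ≤
    2 * (((edg t Gd S).filter (fun e =>
      (L (tr k e.1)).image (fun v => v + t k e.1 e.2) ≠ L (tr k (up t e.2 e.1)))).card : ℝ)

/-- Triangle inequality for the laws. -/
def STARTRI_stmt : Prop := ∀ (w k : ℕ) (t : Volt w) (Gd : Pt w → Fin w → Prop)
  (S : Finset (Pt w)) (e : Pt w × Fin w), Dep t → e ∈ edg t Gd S →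
  D2 t Gd S k e ≤
    D1 (Om t Gd S) (fun o => tr k (Xo t o)) (fun o => tr (k + 1) (Xo t o)) lam (e, true) +
    D1 (Om t Gd S) (fun o => tr k (Xo t o)) (fun o => tr (k + 1) (Xo t o)) lam (e, false)

/-- The layer-cake inequality. -/
def STARLAYER_stmt : Prop := ∀ (w k : ℕ) (t : Volt w) (Gd : Pt w → Fin w → Prop)
  (V S : Finset (Pt w)) (η η' : ℝ),
  Dep t → GdDep Gd k → Bal t Gd V k η' → S ⊆ V → S.Nonempty → Extr t Gd S → 0 ≤ η' → η' < η →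
  (1 + η) * S.card ≤ (edg t Gd S).card →
  (η - η') / (1 + η) * ∑ o ∈ Om t Gd S,
      (cnt (Om t Gd S) (fun o => tr (k + 1) (Xo t o)) o : ℝ) /
        cnt (Om t Gd S) (fun o => tr k (Xo t o)) o ≤
    2 * ∑ e ∈ edg t Gd S, D2 t Gd S k e

/-- AM-GM and Cauchy-Schwarz. -/
def AMGM_stmt : Prop := ∀ (ι : Type) (Ω : Finset ι) (n : ℕ) (a : ℕ → ι → ℝ) (x : ℕ → ℝ)
  (c B : ℝ), Ω.Nonempty → 0 < n → 0 < c → 0 < B →
  (∀ k < n, ∀ i ∈ Ω, 0 < a k i) →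
  (∀ i ∈ Ω, 1 / (Ω.card : ℝ) ≤ ∏ k ∈ range n, a k i) →
  (∀ k < n, 0 ≤ x k) → (∀ k < n, (c * ∑ i ∈ Ω, a k i) ^ 2 ≤ x k) →
  ∑ k ∈ range n, x k ≤ B * (Ω.card : ℝ) ^ 2 →
  (c * Real.sqrt n / Real.sqrt B) ^ n ≤ Ω.card

/-- Extremal subsets exist. -/
def EXTR_stmt : Prop := ∀ (w : ℕ) (t : Volt w) (Gd : Pt w → Fin w → Prop) (S : Finset (Pt w))
  (η : ℝ), 0 ≤ η → S.Nonempty → (1 + η) * S.card ≤ (edg t Gd S).card →
  ∃ T ⊆ S, T.Nonempty ∧ Extr t Gd T ∧ (1 + η) * T.card ≤ ((edg t Gd T).card : ℝ)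

/-- Sets with many good edges are large. -/
def SMALLSET_stmt : Prop := ∀ (w n k₀ : ℕ) (t : Volt w) (Gd : Pt w → Fin w → Prop)
  (V S : Finset (Pt w)) (η η' : ℝ),
  Dep t → k₀ < n → 0 ≤ η' → η' < η →
  GdDep Gd k₀ → (∀ k, k₀ ≤ k → k < n → Bal t Gd V k η') → S ⊆ V → S.Nonempty →
  (1 + η) * S.card ≤ (edg t Gd S).card →
  ((η - η') / (1 + η) * Real.sqrt ((n - k₀ : ℕ) : ℝ) / Real.sqrt (8 * w)) ^ (n - k₀) ≤
    2 * w * (S.card : ℝ)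

/-! ## Part B: the conditional theorem -/

/-- Ramsey's theorem for pairs. -/
def RAM_stmt : Prop := ∀ (c m : ℕ), ∃ N : ℕ, m ≤ N ∧ ∀ col : Fin N → Fin N → Fin c,
  ∃ f : Fin m → Fin N, StrictMono f ∧
    ∀ i j i' j' : Fin m, i < j → i' < j' → col (f i) (f j) = col (f i') (f j')

/-- Homogeneous structure of a Boolean realizer. -/
def HOM_stmt : Prop := ∀ (V : Type) [Fintype V] (w d : ℕ) (F : Frame V w),
  ∃ N : ℕ, 1 ≤ N ∧ (BR (MLt F N) d →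
    ∃ (r : Fin d → V → ℕ) (sg : Fin d → V → Prop) (τ : (Fin d → Prop) → Prop), Hom F r sg τ)

/-- The abstract part of HOM: a linear order on `V × Fin 3` with homogeneous relations comes from
an ordered partition of `V` with signs. -/
def PREO_stmt : Prop := ∀ (V : Type) [Fintype V] (L : V × Fin 3 → V × Fin 3 → Prop),
  IsStrictTotalOrder (V × Fin 3) L →
  (∀ (v v' : V) (i j i' j' : Fin 3), i < j → i' < j' →
    ((L (v, i) (v', j) ↔ L (v, i') (v', j')) ∧ (L (v, j) (v', i) ↔ L (v, j') (v', i')))) →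
  ∃ (r : V → ℕ) (sg : V → Prop), (∀ v v', r v = r v' → (sg v ↔ sg v')) ∧
    ∀ (v v' : V) (i j : Fin 3), i < j →
      ((L (v, i) (v', j) ↔ (r v < r v' ∨ (r v = r v' ∧ sg v))) ∧
        (L (v, j) (v', i) ↔ (r v < r v' ∨ (r v = r v' ∧ ¬ sg v))))

/-- Grouping the classes of one order: `β` odd marks a big class, `β` even a small group. -/
def GRPA_stmt : Prop := ∀ (V : Type) [Fintype V] (r : V → ℕ) (m : ℕ), 1 ≤ m →
  ∃ β : V → ℕ, (∀ v v', β v < β v' → r v < r v') ∧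
    (∀ v v', β v = β v' → β v % 2 = 1 → r v = r v') ∧
    (∀ v, β v % 2 = 0 → (univ.filter (fun v' => β v' = β v)).card ≤ 2 * m) ∧
    (∀ v, β v < 2 * (Fintype.card V / m + 1))

/-- The counting of boxes. -/
def GRP_stmt : Prop := ∀ (V : Type) [Fintype V] (w d : ℕ) (F : Frame V w)
  (r : Fin d → V → ℕ) (sg : Fin d → V → Prop) (τ : (Fin d → Prop) → Prop), Hom F r sg τ →
  ∀ (m : ℕ) (η : ℝ), 1 ≤ m → 0 ≤ η →
  (∀ S : Finset V, S.card ≤ 2 * m → ((eset F.E S).card : ℝ) ≤ (1 + η) * S.card) →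
  ((eset F.E univ).card : ℝ) ≤ d * (1 + η) * (Fintype.card V : ℝ) +
    (w : ℝ) ^ 2 * (2 * ((Fintype.card V : ℝ) / m + 1)) ^ d

/-- Monotonicity in the number of orders. -/
def BRMONO_stmt : Prop := ∀ (X : Type) (lt : X → X → Prop) (d d' : ℕ), d ≤ d' → BR lt d → BR lt d'

/-- `MLt` is a strict order of width at most `w`, and equal to `w` if `V` has an antichain of
size `w`. -/
def MORD_stmt : Prop := ∀ (V : Type) (w N : ℕ) (F : Frame V w),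
  IsStrictOrder (V × Fin N) (MLt F N) ∧
  (∀ s : Finset (V × Fin N), (∀ a ∈ s, ∀ b ∈ s, ¬ MLt F N a b) → s.card ≤ w) ∧
  (1 ≤ N → (∃ a : Fin w → V, Function.Injective a ∧ ∀ i j, ¬ F.lt (a i) (a j)) →
    ∃ s : Finset (V × Fin N), (∀ a ∈ s, ∀ b ∈ s, ¬ MLt F N a b) ∧ s.card = w)

/-! ## Part C: the poset of the tower -/

/-- The frame of a finite set of points. -/
def FRAME_stmt : Prop := ∀ (w n C : ℕ) (t : Volt w) (Gd : Pt w → Fin w → Prop)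
  (V : Finset (Pt w)), VG n C t →
  ∃ F : Frame {p : Pt w // p ∈ V} w,
    (∀ a b, F.lt a b ↔ ((a.1.1 = b.1.1 ∧ toLex a.1.2 < toLex b.1.2) ∨
      (a.1.1 ≠ b.1.1 ∧ toLex (up t b.1.1 a.1).2 ≤ toLex b.1.2))) ∧
    (∀ a, F.ch a = a.1.1) ∧
    (∀ S : Finset {p : Pt w // p ∈ V},
      (eset F.E S).card = (edg t Gd (S.image Subtype.val)).card)

/-! ## Part D: the region -/

/-- Second moment: the shift is almost orthogonal to the position. -/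
def MOMENT_stmt : Prop := ∀ (n C R : ℕ) (s : ℕ → (ℕ → ℤ) → ℤ), Shift n C s →
  ∑ x ∈ ball n R, (∑ k ∈ range n, x k * s k x) ^ 2 ≤ (C : ℤ) ^ 2 * R * (ball n R).card

/-- Halving. -/
def HALF_stmt : Prop := ∀ (n R : ℕ), (ball n (4 * R)).card ≤ 3 ^ n * (ball n R).card

/-- Size of balls. -/
def SIZEB_stmt : Prop := ∀ κ : ℕ, ∃ K : ℝ, 0 < K ∧ ∀ n : ℕ, 1 ≤ n →
  ((ball n (4 * κ ^ 2 * n ^ 2)).card : ℝ) ≤ (K * Real.sqrt n) ^ n

/-- The region. -/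
def REGION_stmt : Prop := ∀ (C : ℕ) (ε : ℝ), 0 < ε → ∃ K : ℝ, 0 < K ∧ ∀ n : ℕ, 1 ≤ n →
  ∃ B : Finset (ℕ → ℤ), B.Nonempty ∧ (∀ x ∈ B, ∀ m, n ≤ m → x m = 0) ∧
    ((B.card : ℝ) ≤ (K * Real.sqrt n) ^ n) ∧
    ∀ s : ℕ → (ℕ → ℤ) → ℤ, Shift n C s →
      ((B.filter (fun x => (fun k => x k + s k x) ∉ B)).card : ℝ) ≤ ε * B.card

/-! ## Part E: short cycles -/

/-- Coordinates along a walk. -/
def KEYC_stmt : Prop := ∀ (w k : ℕ) (t t' : Volt w) (p : Pt w) (W : ℕ → Fin w × Bool) (m : ℕ),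
  Dep t → Dep t' → Agr k t t' →
  (pos t' p W (m + 1)).2 k =
    (pos t' p W m).2 k + sgn W m * t' k (key t k p W m).1 (key t k p W m).2

/-- A closed reduced walk contains a closed part with distinct keys. -/
def KEYD_stmt : Prop := ∀ (w k : ℕ) (t : Volt w) (p : Pt w) (W : ℕ → Fin w × Bool) (L : ℕ),
  Dep t → (∀ p j, t 0 p j = 1) → 1 ≤ k → 1 ≤ L → Rd p.1 W L → Cl t k p W L →
  ∃ a b, a < b ∧ b ≤ L ∧ tr k (pos t p W a) = tr k (pos t p W b) ∧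
    ∀ m m', a ≤ m → m < b → a ≤ m' → m' < b → key t k p W m = key t k p W m' → m = m'

/-- Averaging over the voltages: few assignments satisfy a nontrivial signed equation. -/
def AVG_stmt : Prop := ∀ (κ : Type) [Fintype κ] (C a b : ℕ) (sg : ℕ → ℤ) (ky : ℕ → κ),
  a < b → (∀ m, sg m = 1 ∨ sg m = -1) →
  (∀ m m', a ≤ m → m < b → a ≤ m' → m' < b → ky m = ky m' → m = m') →
  (2 * C + 1) * ((univ : Finset (κ → Fin (2 * C + 1))).filter (fun u =>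
      ∑ m ∈ Finset.Ico a b, sg m * ((u (ky m) : ℤ) - C) = 0)).card ≤
    Fintype.card (κ → Fin (2 * C + 1))

/-- One step of the potential argument. -/
def GSTEP_stmt : Prop := ∀ (w C g k : ℕ) (l₀ : Fin w × Bool) (V : Finset (Pt w)) (t : Volt w),
  1 ≤ k → Dep t → (∀ p j, t 0 p j = 1) →
  ∃ u : Pt w → Fin w → ℤ, (∀ p j, |u p j| ≤ C) ∧
    (∀ p q j, tr k p = tr k q → u p j = u q j) ∧
    (2 * C + 1) * Pot C g l₀ V (Function.update t k u) (k + 1) ≤ 2 * Pot C g l₀ V t k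

/-- Few closed walks. -/
def GIRTH_stmt : Prop := ∀ (w C g k₀ : ℕ) (l₀ : Fin w × Bool) (V : Finset (Pt w)),
  1 ≤ C → 1 ≤ k₀ → ∃ t : Volt w, VG k₀ C t ∧
    NCl g l₀ V t k₀ * (2 * C + 1) ^ (k₀ - 1) ≤
      2 ^ (k₀ - 1) * (g * (2 * w) ^ g * V.card * (2 * C + 1) ^ ((g + 1) ^ 2))

/-- Bad edges are counted by closed walks. -/
def BADC_stmt : Prop := ∀ (w g k : ℕ) (l₀ : Fin w × Bool) (V : Finset (Pt w)) (t : Volt w),
  Dep t → nbad t (GdG t g k) V ≤ 2 * NCl g l₀ V t k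

/-- Good edges form no short cycle. -/
def CYC_stmt : Prop := ∀ (w g k₀ k : ℕ) (t : Volt w), Dep t → (∀ p j, t 0 p j = 1) →
  1 ≤ k₀ → k₀ ≤ k →
  (∀ p q, lar t (GdG t g k₀) k p q → ¬ lar t (GdG t g k₀) k q p) ∧
  ∀ (v : Pt w) (c : (SimpleGraph.fromRel (lar t (GdG t g k₀) k)).Walk v v), c.IsCycle →
    g < c.length

/-- Graphs without short cycles are locally sparse. -/
def MOORE_stmt : Prop := ∀ (α : Type) (ar : α → α → Prop) (A : Finset α) (r : ℕ) (η : ℝ),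
  0 < η → (∀ u v, ar u v → ¬ ar v u) →
  (∀ (v : α) (c : (SimpleGraph.fromRel ar).Walk v v), c.IsCycle → 2 * r + 2 < c.length) →
  (A.card : ℝ) < (1 + η) ^ r →
  (((A ×ˢ A).filter (fun e => ar e.1 e.2)).card : ℝ) ≤ (1 + η) * A.card

/-- Small sets of level `k` points are sparse. -/
def SPARSE_stmt : Prop := ∀ (w g r k₀ k : ℕ) (t : Volt w) (η : ℝ) (A : Finset (Pt w)),
  Dep t → (∀ p j, t 0 p j = 1) → 1 ≤ k₀ → k₀ ≤ k → 0 < η → 2 * r + 2 ≤ g →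
  (A.card : ℝ) < (1 + η) ^ r →
  (((A ×ˢ A).filter (fun e => lar t (GdG t g k₀) k e.1 e.2)).card : ℝ) ≤ (1 + η) * A.card

/-! ## Part F: voltages for which balanced sets are sparse -/

/-- Number of connected sets. -/
def CONN_stmt : Prop := ∀ (α : Type) [Fintype α] (R : α → α → Prop) (Δ a : ℕ), 1 ≤ a →
  (∀ u, (univ.filter (fun v => R u v ∨ R v u)).card ≤ Δ) →
  (((univ : Finset α).powersetCard a).filter (fun A => CConn A R)).card ≤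
    Fintype.card α * Δ ^ (2 * (a - 1))

/-- Spanning trees. -/
def STREE_stmt : Prop := ∀ (α : Type) (A : Finset α) (R : α → α → Prop), A.Nonempty →
  CConn A R → ∃ T : Finset (α × α), (∀ e ∈ T, e.1 ∈ A ∧ e.2 ∈ A ∧ R e.1 e.2) ∧
    T.card + 1 ≤ A.card ∧ CConn A (fun u v => (u, v) ∈ T)

/-- Number of balanced assignments. -/
def BALN_stmt : Prop := ∀ (α : Type) [Fintype α] (C : ℕ) (A : Finset α) (B : Finset (α × α)),
  A.Nonempty → B ⊆ A ×ˢ A → CConn A (fun u v => (u, v) ∈ B) →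
  ((univ : Finset (α × α → Fin (2 * C + 1))).filter (fun τ =>
      ∃ g : α → ℤ, ∀ e ∈ B, g e.2 - g e.1 = (τ e : ℤ) - C)).card * (2 * C + 1) ^ B.card ≤
    (2 * C + 1) ^ (Fintype.card (α × α) + A.card - 1)

/-- Voltages with sparse balanced sets. -/
def VOLT_stmt : Prop := ∀ (α : Type) [Fintype α] (ar : α → α → Prop) (Δ a₀ C : ℕ) (η : ℝ),
  0 < η → (∀ u v, ar u v → ¬ ar v u) →
  (∀ u, (univ.filter (fun v => ar u v ∨ ar v u)).card ≤ Δ) →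
  (∀ A : Finset α, A.card ≤ a₀ →
    (((A ×ˢ A).filter (fun e => ar e.1 e.2)).card : ℝ) ≤ (1 + η) * A.card) →
  Fintype.card α ≤ 4 ^ a₀ → (4 * Δ ^ 2 * 2 ^ Δ : ℝ) ≤ (2 * C + 1 : ℝ) ^ η →
  ∃ t : α → α → ℤ, (∀ u v, |t u v| ≤ C) ∧ ∀ (A : Finset α) (g : α → ℤ),
    (((A ×ˢ A).filter (fun e => ar e.1 e.2 ∧ g e.2 - g e.1 = t e.1 e.2)).card : ℝ) ≤
      (1 + η) * A.card

/-- One level of voltages. -/
def VSTEP_stmt : Prop := ∀ (w C r k₀ k a₀ : ℕ) (t : Volt w) (η : ℝ) (V : Finset (Pt w)),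
  Dep t → (∀ p j, t 0 p j = 1) → 1 ≤ k₀ → k₀ ≤ k → 0 < η → (a₀ : ℝ) < (1 + η) ^ r →
  V.card ≤ 4 ^ a₀ → (4 * (2 * w : ℕ) ^ 2 * 2 ^ (2 * w) : ℝ) ≤ (2 * C + 1 : ℝ) ^ η →
  ∃ u : Pt w → Fin w → ℤ, (∀ p j, |u p j| ≤ C) ∧
    (∀ p q j, tr k p = tr k q → u p j = u q j) ∧
    Bal (Function.update t k u) (GdG t (2 * r + 2) k₀) V k η

/-- The tower. -/
def TOWER_stmt : Prop := ∀ (w C n r k₀ a₀ : ℕ) (η : ℝ) (V : Finset (Pt w)), 1 ≤ w → 1 ≤ C →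
  1 ≤ k₀ → k₀ ≤ n → 0 < η → (a₀ : ℝ) < (1 + η) ^ r →
  V.card ≤ 4 ^ a₀ → (4 * (2 * w : ℕ) ^ 2 * 2 ^ (2 * w) : ℝ) ≤ (2 * C + 1 : ℝ) ^ η →
  ∃ t : Volt w, VG n C t ∧ GdDep (GdG t (2 * r + 2) k₀) k₀ ∧
    (∀ k, k₀ ≤ k → k < n → Bal t (GdG t (2 * r + 2) k₀) V k η) ∧
    nbad t (GdG t (2 * r + 2) k₀) V * (2 * C + 1) ^ (k₀ - 1) ≤
      2 * (2 ^ (k₀ - 1) * ((2 * r + 2) * (2 * w) ^ (2 * r + 2) * V.card *
        (2 * C + 1) ^ ((2 * r + 3) ^ 2)))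

/-! ## Part G: assembly -/

/-- Choice of the parameters. -/
def NUM_stmt : Prop := ∀ (w C : ℕ) (K : ℝ), 3 ≤ w → 1 ≤ C → 0 < K →
  ∃ r k₀ n a₀ m : ℕ, 1 ≤ k₀ ∧ k₀ < n ∧ 1 ≤ m ∧
    (a₀ : ℝ) < (1 + 1 / (8 * (w : ℝ))) ^ r ∧
    w * (K * Real.sqrt n) ^ n ≤ (4 : ℝ) ^ a₀ ∧
    32 * 2 ^ (k₀ - 1) * ((2 * r + 2) * (2 * w) ^ (2 * r + 2) * (2 * C + 1) ^ ((2 * r + 3) ^ 2)) ≤
      (2 * C + 1) ^ (k₀ - 1) ∧
    2 * (w : ℝ) * (2 * m) <
      ((1 / (4 * (w : ℝ)) - 1 / (8 * w)) / (1 + 1 / (4 * w)) * Real.sqrt ((n - k₀ : ℕ) : ℝ) /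
        Real.sqrt (8 * w)) ^ (n - k₀) ∧
    (w : ℝ) ^ 2 * (2 * (w * (K * Real.sqrt n) ^ n / m + 1)) ^ (w - 2) ≤ m / 2

/-- Number of edges of the tower inside the region. -/
def EDGEC_stmt : Prop := ∀ (w n C : ℕ) (t : Volt w) (Gd : Pt w → Fin w → Prop)
  (B : Finset (ℕ → ℤ)) (ε : ℝ), 1 ≤ w → VG n C t → 0 ≤ ε →
  (∀ s : ℕ → (ℕ → ℤ) → ℤ, Shift n C s →
      ((B.filter (fun x => (fun k => x k + s k x) ∉ B)).card : ℝ) ≤ ε * B.card) →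
  ((w : ℝ) - 1) * (1 - ε) * (w * B.card) ≤
    (edg t Gd ((univ : Finset (Fin w)) ×ˢ B)).card + (nbad t Gd ((univ : Finset (Fin w)) ×ˢ B) : ℝ)

/-- Main theorem: a frame with an antichain of size `w` such that no Boolean realizer with at most
`w - 2` orders exists for some `N`. -/
def FINAL_stmt : Prop := ∀ w : ℕ, 3 ≤ w → ∃ (V : Type) (_ : Fintype V) (F : Frame V w) (N : ℕ),
  1 ≤ N ∧ (∃ a : Fin w → V, Function.Injective a ∧ ∀ i j, ¬ F.lt (a i) (a j)) ∧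
  ¬ BR (MLt F N) (w - 2)

end BDim
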