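import Pool.Agent.Lib_MP_0cf6e1_co.Stmts

/-!
# MP_0cf6e1_co, piece STREE (about 70 lines)

Growth from one vertex: claim: for every 1 <= i <= card A there are A_i subset A with card i and T_i subset A_i x A_i, T_i card + 1 <= i,
all pairs of T_i in R, and CConn A_i (in T_i).  i = 1: a singleton, T empty (a nonempty subset of a singleton is everything).
Step: A_i != A, by CConn A R there are u in A_i, v in A minus A_i with R u v or R v u; add v and the pair (u,v) or (v,u).
CConn of the new set: let A' be a proper nonempty subset of A_i + v.  If A' intersected with A_i is neither empty nor A_i use CConn A_i
(applied to the intersection; the crossing pair crosses A' too).  If the intersection is empty then A' = {v} and the new pair crosses;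
if it is A_i then v not in A' and the new pair crosses.
-/

namespace BDim

open Finset
open scoped Classical

theorem STREE : STREE_stmt := by
  sorry

end BDim
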