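import Pool.Agent.Lib_MP_0cf6e1_co.Stmts

/-!
# MP_0cf6e1_co, piece TOWER (about 130 lines)

Take l0 : Fin w x Bool (1 <= w), t0 from hGIRTH with g = 2r+2.  Show by induction on n >= k0: there is t with VG n C t, Agr k0 t t0 and
Bal t (GdG t (2r+2) k0) V k eta for k0 <= k < n.  Base n = k0: t0.  Step: hVSTEP at level k = n gives u; t' = update t n u:
VG (n+1) C (Dep.update; t' 0 = t 0 since n >= k0 >= 1), Agr k0 t' t0; the property Bal at a level k < n is inherited because
t and t' agree up to level k <= n - 1 (bedg uses tr k (up ..) (agr_up) and t k = t' k) and GdG t' = GdG t (agr_GdG); at level n it is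
hVSTEP (with GdG t = GdG t' again).  GdDep from GdG_dep.  Finally NCl for t equals NCl for t0 (agr_Cl, level k0), and hBADC.
(g + 1 = 2r + 3.)
-/

namespace BDim

open Finset
open scoped Classical

theorem TOWER (hGIRTH : GIRTH_stmt) (hBADC : BADC_stmt) (hVSTEP : VSTEP_stmt) : TOWER_stmt := by
  sorry

end BDim
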