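import Pool.Agent.Lib_MP_0cf6e1_co.Stmts

/-!
# MP_0cf6e1_co, piece VOLT (about 220 lines)

Assignments tau : alpha x alpha -> Fin (2C+1), t u v = tau (u,v) - C.  Suppose that for every tau the conclusion fails: there are A, g with
more than (1+eta) card A balanced pairs in A.  Choose such A (same g) with minimal cardinality and let B = the balanced ar-pairs inside A.
Then CConn A (in B): otherwise A = A' + A'' (both nonempty, smaller) and no pair of B between them, so B(A') or B(A'') is also too large.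
Also card A > a0 (hypothesis for small sets; B is contained in the ar-pairs), CConn A ar-related, A nonempty, card B > (1+eta) card A.
Union bound: N = (2C+1)^(card (alpha x alpha)) = number of tau <= sum over a in (a0, card alpha] of sum over A (card a, CConn w.r.t. ar)
of sum over B subset {ar-pairs in A} with card B > (1+eta) a, CConn A B of #{tau balanced on B}.  hBALN: #{...} * (2C+1)^(card B) <=
N * (2C+1)^(a-1), so #{...} <= N (2C+1)^(-eta a) (real powers, card B >= (1+eta) a).  hCONN: the number of A is at most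
card alpha * Delta^(2(a-1)) <= card alpha * (Delta^2)^a if Delta >= 1 (if Delta = 0 there are no ar-pairs and the conclusion is
trivial since B is empty); the number of B is at most 2^(Delta a) (the ar-pairs in A are at most Delta a).  So 1 <= card alpha * sum over
a > a0 of (Delta^2 2^Delta (2C+1)^(-eta))^a <= card alpha * sum over a > a0 of 4^(-a) < card alpha * 4^(-a0) <= 1, contradiction.
-/

namespace BDim

open Finset
open scoped Classical

private theorem volt_conn {α : Type} (ar : α → α → Prop) (t : α → α → ℤ) (g : α → ℤ) (η : ℝ)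
    (A₀ : Finset α) (h : (1 + η) * A₀.card <
      (((A₀ ×ˢ A₀).filter (fun e => ar e.1 e.2 ∧ g e.2 - g e.1 = t e.1 e.2)).card : ℝ)) :
    ∃ A : Finset α, (1 + η) * A.card <
      (((A ×ˢ A).filter (fun e => ar e.1 e.2 ∧ g e.2 - g e.1 = t e.1 e.2)).card : ℝ) ∧
      CConn A (fun u v => (u, v) ∈
        (A ×ˢ A).filter (fun e => ar e.1 e.2 ∧ g e.2 - g e.1 = t e.1 e.2)) := by
  have hex : ∃ m : ℕ, ∃ A : Finset α, A.card = m ∧ (1 + η) * A.card <
      (((A ×ˢ A).filter (fun e => ar e.1 e.2 ∧ g e.2 - g e.1 = t e.1 e.2)).card : ℝ) :=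
    ⟨A₀.card, A₀, rfl, h⟩
  obtain ⟨A, hAm, hA⟩ := Nat.find_spec hex
  have hmin : ∀ A' : Finset α, A'.card < A.card →
      (((A' ×ˢ A').filter (fun e => ar e.1 e.2 ∧ g e.2 - g e.1 = t e.1 e.2)).card : ℝ) ≤
        (1 + η) * A'.card := by
    intro A' hA'
    by_contra hc
    rw [not_le] at hc
    rw [hAm] at hA'
    exact Nat.find_min hex hA' ⟨A', rfl, hc⟩
  refine ⟨A, hA, ?_⟩
  intro A' hsub hne hneq
  by_contra hno
  push Not at hno
  have hlt1 : A'.card < A.card := Finset.card_lt_card (Finset.ssubset_iff_subset_ne.2 ⟨hsub, hneq⟩)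
  have hcard : (A \ A').card + A'.card = A.card := Finset.card_sdiff_add_card_eq_card hsub
  have hpos : 0 < A'.card := Finset.card_pos.2 hne
  have hlt2 : (A \ A').card < A.card := by omega
  have h1 := hmin A' hlt1
  have h2 := hmin (A \ A') hlt2
  have hcov : (A ×ˢ A).filter (fun e => ar e.1 e.2 ∧ g e.2 - g e.1 = t e.1 e.2) ⊆
      ((A' ×ˢ A').filter (fun e => ar e.1 e.2 ∧ g e.2 - g e.1 = t e.1 e.2)) ∪
      (((A \ A') ×ˢ (A \ A')).filter (fun e => ar e.1 e.2 ∧ g e.2 - g e.1 = t e.1 e.2)) := by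
    rintro ⟨u, v⟩ he
    have he' := he
    rw [Finset.mem_filter, Finset.mem_product] at he
    obtain ⟨⟨hu, hv⟩, hp⟩ := he
    rw [Finset.mem_union, Finset.mem_filter, Finset.mem_filter, Finset.mem_product,
      Finset.mem_product]
    by_cases hu' : u ∈ A'
    · by_cases hv' : v ∈ A'
      · exact Or.inl ⟨⟨hu', hv'⟩, hp⟩
      · exact absurd he' (hno u hu' v hv hv').1
    · by_cases hv' : v ∈ A'
      · exact absurd he' (hno v hv' u hu hu').2
      · exact Or.inr ⟨⟨Finset.mem_sdiff.2 ⟨hu, hu'⟩, Finset.mem_sdiff.2 ⟨hv, hv'⟩⟩, hp⟩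
  have h3 : (((A ×ˢ A).filter (fun e => ar e.1 e.2 ∧ g e.2 - g e.1 = t e.1 e.2)).card : ℝ) ≤
      (((A' ×ˢ A').filter (fun e => ar e.1 e.2 ∧ g e.2 - g e.1 = t e.1 e.2)).card : ℝ) +
      ((((A \ A') ×ˢ (A \ A')).filter
        (fun e => ar e.1 e.2 ∧ g e.2 - g e.1 = t e.1 e.2)).card : ℝ) := by
    exact_mod_cast (Finset.card_le_card hcov).trans (Finset.card_union_le _ _)
  have h4 : ((A \ A').card : ℝ) + A'.card = A.card := by exact_mod_cast hcard
  have h5 : (1 + η) * (A.card : ℝ) = (1 + η) * (A \ A').card + (1 + η) * A'.card := by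
    rw [← h4]; ring
  linarith

private theorem volt_deg {α : Type} [Fintype α] (ar : α → α → Prop) (Δ : ℕ)
    (hΔ : ∀ u, (univ.filter (fun v => ar u v ∨ ar v u)).card ≤ Δ) (A : Finset α) :
    ((A ×ˢ A).filter (fun e => ar e.1 e.2)).card ≤ Δ * A.card := by
  rw [Finset.card_filter, Finset.sum_product]
  calc ∑ u ∈ A, ∑ v ∈ A, (if ar u v then 1 else 0) ≤ ∑ u ∈ A, Δ := by
        apply Finset.sum_le_sum
        intro u _
        rw [← Finset.card_filter]
        refine (Finset.card_le_card ?_).trans (hΔ u)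
        intro v hv
        rw [Finset.mem_filter] at hv ⊢
        exact ⟨Finset.mem_univ _, Or.inl hv.2⟩
    _ = Δ * A.card := by rw [Finset.sum_const, smul_eq_mul, mul_comm]

private theorem volt_geom (a₀ M : ℕ) :
    ∑ a ∈ Finset.Ioc a₀ M, (1 / 4 : ℝ) ^ a ≤ (1 / 4 : ℝ) ^ a₀ / 3 := by
  rcases le_or_gt M a₀ with hM | hM
  · rw [Finset.Ioc_eq_empty_of_le hM, Finset.sum_empty]
    positivity
  · have h : ∀ k : ℕ, ∑ a ∈ Finset.Ioc a₀ (a₀ + k), (1 / 4 : ℝ) ^ a =
        (1 / 4 : ℝ) ^ a₀ / 3 - (1 / 4 : ℝ) ^ (a₀ + k) / 3 := by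
      intro k
      induction k with
      | zero => simp
      | succ k ih =>
        rw [← add_assoc, ← Finset.sum_Ioc_consecutive _ (Nat.le_add_right a₀ k) (Nat.le_succ _),
          ih, Nat.Ioc_succ_singleton, Finset.sum_singleton, pow_succ]
        ring
    obtain ⟨k, rfl⟩ : ∃ k, M = a₀ + k := ⟨M - a₀, by omega⟩
    rw [h]
    have : (0 : ℝ) ≤ (1 / 4 : ℝ) ^ (a₀ + k) / 3 := by positivity
    linarith

private theorem volt_T (hBALN : BALN_stmt) {α : Type} [Fintype α] (C : ℕ) (η : ℝ)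
    (A : Finset α) (B : Finset (α × α)) (hA : A.Nonempty) (hB : B ⊆ A ×ˢ A)
    (hc : CConn A (fun u v => (u, v) ∈ B)) (hbig : (1 + η) * A.card < (B.card : ℝ)) :
    (((univ : Finset (α × α → Fin (2 * C + 1))).filter (fun τ =>
      ∃ g : α → ℤ, ∀ e ∈ B, g e.2 - g e.1 = (τ e : ℤ) - C)).card : ℝ) ≤
      (2 * C + 1 : ℝ) ^ (Fintype.card (α × α)) * (((2 * C + 1 : ℝ) ^ η)⁻¹) ^ A.card := by
  have h := hBALN α C A B hA hB hc
  set T := ((univ : Finset (α × α → Fin (2 * C + 1))).filter (fun τ =>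
      ∃ g : α → ℤ, ∀ e ∈ B, g e.2 - g e.1 = (τ e : ℤ) - C)).card with hT
  have hC0 : (0 : ℝ) ≤ C := Nat.cast_nonneg C
  have hq1 : (1 : ℝ) ≤ 2 * C + 1 := by linarith
  have hq0 : (0 : ℝ) < 2 * C + 1 := by linarith
  set q : ℝ := 2 * C + 1 with hq
  have h1 : (T : ℝ) * q ^ B.card ≤ q ^ (Fintype.card (α × α) + A.card - 1) := by
    rw [hq]
    exact_mod_cast h
  have h2 : q ^ (Fintype.card (α × α) + A.card - 1) ≤ q ^ (Fintype.card (α × α)) * q ^ A.card := by
    rw [← pow_add]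
    exact pow_le_pow_right₀ hq1 (Nat.sub_le _ _)
  have h3 : q ^ A.card * (q ^ η) ^ A.card ≤ q ^ B.card := by
    rw [← Real.rpow_natCast q B.card, ← Real.rpow_natCast q A.card, ← Real.rpow_natCast (q ^ η),
      ← Real.rpow_mul hq0.le, ← Real.rpow_add hq0]
    apply Real.rpow_le_rpow_of_exponent_le hq1
    linarith
  have hqη : 0 < q ^ η := Real.rpow_pos_of_pos hq0 η
  have hT0 : (0 : ℝ) ≤ T := Nat.cast_nonneg T
  have h4 : (T : ℝ) * (q ^ A.card * (q ^ η) ^ A.card) ≤
      q ^ (Fintype.card (α × α)) * q ^ A.card :=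
    (mul_le_mul_of_nonneg_left h3 hT0).trans (h1.trans h2)
  have hqA : 0 < q ^ A.card := by positivity
  have hqηA : 0 < (q ^ η) ^ A.card := by positivity
  have h5 : (T : ℝ) * (q ^ η) ^ A.card ≤ q ^ (Fintype.card (α × α)) := by
    have : (T : ℝ) * (q ^ η) ^ A.card * q ^ A.card ≤ q ^ (Fintype.card (α × α)) * q ^ A.card := by
      calc (T : ℝ) * (q ^ η) ^ A.card * q ^ A.card =
          (T : ℝ) * (q ^ A.card * (q ^ η) ^ A.card) := by ring
        _ ≤ _ := h4
    exact le_of_mul_le_mul_right this hqA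
  rw [inv_pow, ← div_eq_mul_inv, le_div_iff₀ hqηA]
  exact h5

theorem VOLT (hCONN : CONN_stmt) (hBALN : BALN_stmt) : VOLT_stmt := by
  intro α _ ar Δ a₀ C η hη hanti hΔ hsmall hcard hbig
  by_contra hcon
  push Not at hcon
  -- `Δ` is positive
  have hC0 : (0 : ℝ) ≤ C := Nat.cast_nonneg C
  rcases Nat.eq_zero_or_pos Δ with hΔ0 | hΔ1
  · obtain ⟨A, g, h⟩ := hcon (fun _ _ => 0) (fun u v => by simp)
    have hno : ∀ u v, ¬ ar u v := by
      intro u v huv
      have h1 := hΔ u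
      rw [hΔ0, Nat.le_zero, Finset.card_eq_zero] at h1
      have h2 : v ∈ univ.filter (fun v => ar u v ∨ ar v u) :=
        Finset.mem_filter.2 ⟨Finset.mem_univ _, Or.inl huv⟩
      rw [h1] at h2
      exact Finset.notMem_empty _ h2
    have h0 : (((A ×ˢ A).filter (fun e => ar e.1 e.2 ∧ g e.2 - g e.1 = 0)).card : ℝ) = 0 := by
      rw [Nat.cast_eq_zero, Finset.card_eq_zero, Finset.filter_eq_empty_iff]
      intro e _ he
      exact hno _ _ he.1
    rw [h0] at h
    have : (0 : ℝ) ≤ (1 + η) * A.card := by positivity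
    linarith
  have hq0 : (0 : ℝ) < 2 * C + 1 := by linarith
  set q : ℝ := 2 * C + 1 with hq
  have hqη : 0 < q ^ η := Real.rpow_pos_of_pos hq0 η
  set x : ℝ := (q ^ η)⁻¹ with hx
  have hx0 : 0 < x := inv_pos.2 hqη
  set 𝒜 : Finset (Finset α) := (univ : Finset (Finset α)).filter
    (fun A => a₀ < A.card ∧ CConn A ar) with h𝒜
  set ℬ : Finset α → Finset (Finset (α × α)) := fun A =>
    (((A ×ˢ A).filter (fun e => ar e.1 e.2)).powerset).filter
      (fun B => (1 + η) * A.card < (B.card : ℝ) ∧ CConn A (fun u v => (u, v) ∈ B)) with hℬ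
  set T : Finset (α × α) → Finset (α × α → Fin (2 * C + 1)) := fun B =>
    (univ : Finset (α × α → Fin (2 * C + 1))).filter (fun τ =>
      ∃ g : α → ℤ, ∀ e ∈ B, g e.2 - g e.1 = (τ e : ℤ) - C) with hTdef
  have hcover : (univ : Finset (α × α → Fin (2 * C + 1))) ⊆
      𝒜.biUnion (fun A => (ℬ A).biUnion T) := by
    intro τ _
    obtain ⟨A₀, g, hA₀⟩ := hcon (fun u v => (τ (u, v) : ℤ) - C) (fun u v => by
      have h1 : ((τ (u, v) : ℕ) : ℤ) < 2 * C + 1 := by exact_mod_cast (τ (u, v)).2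
      have h2 : (0 : ℤ) ≤ ((τ (u, v) : ℕ) : ℤ) := by positivity
      rw [abs_le]
      constructor <;> linarith)
    obtain ⟨A, hA, hAc⟩ := volt_conn ar (fun u v => (τ (u, v) : ℤ) - C) g η A₀ hA₀
    rw [Finset.mem_biUnion]
    have hsubs : (A ×ˢ A).filter (fun e => ar e.1 e.2 ∧ g e.2 - g e.1 = (τ (e.1, e.2) : ℤ) - C) ⊆
        (A ×ˢ A).filter (fun e => ar e.1 e.2) := by
      intro e he
      rw [Finset.mem_filter] at he ⊢
      exact ⟨he.1, he.2.1⟩
    refine ⟨A, ?_, ?_⟩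
    · rw [h𝒜, Finset.mem_filter]
      refine ⟨Finset.mem_univ _, ?_, ?_⟩
      · by_contra hle
        rw [not_lt] at hle
        have h1 := hsmall A hle
        have h2 : (((A ×ˢ A).filter
            (fun e => ar e.1 e.2 ∧ g e.2 - g e.1 = (τ (e.1, e.2) : ℤ) - C)).card : ℝ) ≤
            (((A ×ˢ A).filter (fun e => ar e.1 e.2)).card : ℝ) := by
          exact_mod_cast Finset.card_le_card hsubs
        linarith
      · intro A' h1 h2 h3
        obtain ⟨u, hu, v, hv, hv', h⟩ := hAc A' h1 h2 h3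
        refine ⟨u, hu, v, hv, hv', ?_⟩
        rcases h with h | h
        · exact Or.inl (Finset.mem_filter.1 h).2.1
        · exact Or.inr (Finset.mem_filter.1 h).2.1
    · rw [Finset.mem_biUnion]
      refine ⟨(A ×ˢ A).filter (fun e => ar e.1 e.2 ∧ g e.2 - g e.1 = (τ (e.1, e.2) : ℤ) - C),
        ?_, ?_⟩
      · rw [hℬ]
        simp only
        rw [Finset.mem_filter, Finset.mem_powerset]
        exact ⟨hsubs, hA, hAc⟩
      · rw [hTdef]
        simp only
        rw [Finset.mem_filter]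
        refine ⟨Finset.mem_univ _, g, ?_⟩
        intro e he
        exact (Finset.mem_filter.1 he).2.2
  -- the union bound
  have hN : (q ^ (Fintype.card (α × α)) : ℝ) ≤
      ∑ A ∈ 𝒜, ∑ B ∈ ℬ A, ((T B).card : ℝ) := by
    have h1 : (univ : Finset (α × α → Fin (2 * C + 1))).card ≤
        ∑ A ∈ 𝒜, ∑ B ∈ ℬ A, (T B).card := by
      refine (Finset.card_le_card hcover).trans (Finset.card_biUnion_le.trans ?_)
      exact Finset.sum_le_sum fun A _ => Finset.card_biUnion_le
    rw [Finset.card_univ, Fintype.card_fun, Fintype.card_fin] at h1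
    have h2 : (((2 * C + 1) ^ Fintype.card (α × α) : ℕ) : ℝ) ≤
        ((∑ A ∈ 𝒜, ∑ B ∈ ℬ A, (T B).card : ℕ) : ℝ) := by exact_mod_cast h1
    push_cast at h2
    exact h2
  have hTB : ∀ A ∈ 𝒜, ∀ B ∈ ℬ A, ((T B).card : ℝ) ≤
      q ^ (Fintype.card (α × α)) * x ^ A.card := by
    intro A hA B hB
    rw [h𝒜, Finset.mem_filter] at hA
    rw [hℬ] at hB
    simp only at hB
    rw [Finset.mem_filter, Finset.mem_powerset] at hB
    have hAne : A.Nonempty := by
      rw [← Finset.card_pos]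
      omega
    exact volt_T hBALN C η A B hAne (hB.1.trans (Finset.filter_subset _ _)) hB.2.2 hB.2.1
  have hBcard : ∀ A : Finset α, ((ℬ A).card : ℝ) ≤ (2 ^ Δ) ^ A.card := by
    intro A
    have h1 : (ℬ A).card ≤ 2 ^ (Δ * A.card) := by
      refine (Finset.card_filter_le _ _).trans ?_
      rw [Finset.card_powerset]
      exact Nat.pow_le_pow_right (by norm_num) (volt_deg ar Δ hΔ A)
    rw [← pow_mul]
    exact_mod_cast h1
  set y : ℝ := 2 ^ Δ * x with hy
  have hy0 : 0 < y := by positivity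
  have hsum1 : ∑ A ∈ 𝒜, ∑ B ∈ ℬ A, ((T B).card : ℝ) ≤
      q ^ (Fintype.card (α × α)) * ∑ A ∈ 𝒜, y ^ A.card := by
    rw [Finset.mul_sum]
    apply Finset.sum_le_sum
    intro A hA
    calc ∑ B ∈ ℬ A, ((T B).card : ℝ) ≤ ∑ B ∈ ℬ A, q ^ (Fintype.card (α × α)) * x ^ A.card :=
          Finset.sum_le_sum fun B hB => hTB A hA B hB
      _ = (ℬ A).card * (q ^ (Fintype.card (α × α)) * x ^ A.card) := by
          rw [Finset.sum_const, nsmul_eq_mul]
      _ ≤ (2 ^ Δ) ^ A.card * (q ^ (Fintype.card (α × α)) * x ^ A.card) :=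
          mul_le_mul_of_nonneg_right (hBcard A) (by positivity)
      _ = q ^ (Fintype.card (α × α)) * y ^ A.card := by rw [hy, mul_pow]; ring
  -- sum over the sets of given cardinality
  have hsum2 : ∑ A ∈ 𝒜, y ^ A.card ≤
      ∑ a ∈ Finset.Ioc a₀ (Fintype.card α), (Fintype.card α : ℝ) * (1 / 4 : ℝ) ^ a := by
    have hmaps : ∀ A ∈ 𝒜, A.card ∈ Finset.Ioc a₀ (Fintype.card α) := by
      intro A hA
      rw [h𝒜, Finset.mem_filter] at hA
      rw [Finset.mem_Ioc]
      exact ⟨hA.2.1, Finset.card_le_univ A⟩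
    rw [← Finset.sum_fiberwise_of_maps_to hmaps]
    apply Finset.sum_le_sum
    intro a ha
    rw [Finset.mem_Ioc] at ha
    have h1 : ∑ A ∈ 𝒜.filter (fun A => A.card = a), y ^ A.card =
        (𝒜.filter (fun A => A.card = a)).card * y ^ a := by
      rw [Finset.sum_congr rfl (g := fun _ => y ^ a)
        (fun A hA => by rw [(Finset.mem_filter.1 hA).2]), Finset.sum_const, nsmul_eq_mul]
    rw [h1]
    have h2 : (𝒜.filter (fun A => A.card = a)).card ≤ Fintype.card α * (Δ ^ 2) ^ a := by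
      have h3 := hCONN α ar Δ a (by omega) hΔ
      have h4 : 𝒜.filter (fun A => A.card = a) ⊆
          ((univ : Finset α).powersetCard a).filter (fun A => CConn A ar) := by
        intro A hA
        rw [Finset.mem_filter, h𝒜, Finset.mem_filter] at hA
        rw [Finset.mem_filter, Finset.mem_powersetCard]
        exact ⟨⟨Finset.subset_univ _, hA.2⟩, hA.1.2.2⟩
      refine (Finset.card_le_card h4).trans (h3.trans ?_)
      apply Nat.mul_le_mul_left
      rw [← pow_mul]
      exact Nat.pow_le_pow_right hΔ1 (by omega)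
    have h3 : ((𝒜.filter (fun A => A.card = a)).card : ℝ) ≤
        (Fintype.card α : ℝ) * ((Δ : ℝ) ^ 2) ^ a := by exact_mod_cast h2
    calc ((𝒜.filter (fun A => A.card = a)).card : ℝ) * y ^ a ≤
        (Fintype.card α : ℝ) * ((Δ : ℝ) ^ 2) ^ a * y ^ a :=
          mul_le_mul_of_nonneg_right h3 (by positivity)
      _ = (Fintype.card α : ℝ) * ((Δ : ℝ) ^ 2 * y) ^ a := by rw [mul_pow]; ring
      _ ≤ (Fintype.card α : ℝ) * (1 / 4 : ℝ) ^ a := by
          apply mul_le_mul_of_nonneg_left _ (Nat.cast_nonneg _)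
          apply pow_le_pow_left₀ (by positivity)
          rw [hy, hx]
          have h5 : (Δ : ℝ) ^ 2 * (2 ^ Δ * (q ^ η)⁻¹) = (4 * (Δ : ℝ) ^ 2 * 2 ^ Δ) / (q ^ η) / 4 := by
            field_simp
          rw [h5]
          have h6 : (4 * (Δ : ℝ) ^ 2 * 2 ^ Δ) / (q ^ η) ≤ 1 := (div_le_one hqη).2 hbig
          linarith
  have hsum3 : ∑ a ∈ Finset.Ioc a₀ (Fintype.card α), (Fintype.card α : ℝ) * (1 / 4 : ℝ) ^ a ≤
      1 / 3 := by
    rw [← Finset.mul_sum]
    have h1 := volt_geom a₀ (Fintype.card α)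
    have h2 : (Fintype.card α : ℝ) ≤ 4 ^ a₀ := by exact_mod_cast hcard
    calc (Fintype.card α : ℝ) * ∑ a ∈ Finset.Ioc a₀ (Fintype.card α), (1 / 4 : ℝ) ^ a ≤
        4 ^ a₀ * ((1 / 4 : ℝ) ^ a₀ / 3) :=
          mul_le_mul h2 h1 (Finset.sum_nonneg fun _ _ => by positivity) (by positivity)
      _ = 1 / 3 := by
          rw [one_div, inv_pow]
          field_simp
  have hNpos : 0 < q ^ (Fintype.card (α × α)) := by positivity
  have : q ^ (Fintype.card (α × α)) ≤ q ^ (Fintype.card (α × α)) * (1 / 3) :=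
    hN.trans (hsum1.trans (mul_le_mul_of_nonneg_left (hsum2.trans hsum3) hNpos.le))
  linarith

end BDim
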