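import Pool.Agent.Lib_MP_0cf6e1_co.Stmts

/-!
# MP_0cf6e1_co, piece VSTEP (about 130 lines)

alpha = {x // x in V.image (tr k)}, ar = lar t (GdG t (2r+2) k0) k on it, Delta = 2w.  Degree: for fixed p the q with lar p q are
tr k (up t j p), one for each chain j; the q with lar q p have p = tr k (up t p.1 q), so q is determined by q.1 (tr_up_inj, q = tr k q);
so at most 2w.  Small sets: hSPARSE (g = 2r+2, card A <= a0 < (1+eta)^r; transfer A to Finset (Pt w) by map).  card alpha <= card V.
ar is asymmetric: time coordinate (k >= 1, t 0 = 1), as in hCYC; prove directly or from hSPARSE's file.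
hVOLT gives T : alpha -> alpha -> Int.  Define u p j = T (tr k p) (tr k (up t j (tr k p))) if both are in V.image (tr k), else 0
(tr k (up t j (tr k p)) = tr k (up t j p)).  Bal (update t k u) (GdG t ..) V k eta: let A subset V.image (tr k), g.  For (p,j) in
bedg t' Gd k A g: p in A is truncated (tr k p = p), q = tr k (up t' j p) = tr k (up t j p) (agr_up with agr_update) in A, Gd p j, so
lar p q (j = q.1, p.1 != j), and t' k p j = u p j = T p q.  The map (p,j) -> (p,q) is injective; the image is in the set counted by hVOLT.
-/

namespace BDim

open Finset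
open scoped Classical

theorem VSTEP (hVOLT : VOLT_stmt) (hSPARSE : SPARSE_stmt) : VSTEP_stmt := by
  sorry

end BDim
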